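import Mathlib

/-! Free placement of points does not help in three dimensions. -/

open Finset

namespace Pool.Agent.MP_507a17_nt.H83

/-- membership in a box of lattice points -/
abbrev In (a a' b b' c c' : ℕ) (y : Fin 3 → ℕ) : Prop :=
  (a ≤ y 0 ∧ y 0 < a') ∧ (b ≤ y 1 ∧ y 1 < b') ∧ (c ≤ y 2 ∧ y 2 < c')

theorem sum_In {T : Type} [Fintype T] (w : T → ℝ) (z : T → Fin 3 → ℕ) {a a' b b' c c' : ℕ}
    (ha : a ≤ a') (hb : b ≤ b') (hc : c ≤ c') {A : ℕ → ℕ → ℕ → ℝ}
    (hA : ∀ a b c, A a b c = ∑ t, if ∀ i, z t i < ![a, b, c] i then w t else 0) :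
    (∑ t, if In a a' b b' c c' (z t) then w t else 0) = A a' b' c' - A a b' c' - A a' b c' +
      A a b c' - A a' b' c + A a b' c + A a' b c - A a b c := by
  simp only [hA, ← sum_sub_distrib, ← sum_add_distrib]
  refine sum_congr rfl fun t _ => ?_
  have h1 : ∀ {a a' : ℕ} (x : ℕ), a ≤ a' → (if a ≤ x ∧ x < a' then 1 else 0 : ℝ) =
      (if x < a' then 1 else 0) - if x < a then 1 else 0 := by
    intro a a' x h
    split_ifs <;> first | omega | norm_num
  have h2 : ∀ (p q r : Prop) [Decidable p] [Decidable q] [Decidable r],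
      (if p ∧ q ∧ r then w t else 0) =
      w t * (if p then 1 else 0) * (if q then 1 else 0) * (if r then 1 else 0) := by
    intro p q r _ _ _
    by_cases p <;> by_cases q <;> by_cases r <;> simp [*]
  have h3 : ∀ a b c, (if ∀ i, z t i < ![a, b, c] i then w t else 0) =
      if z t 0 < a ∧ z t 1 < b ∧ z t 2 < c then w t else 0 := fun a b c =>
    if_congr (by simp [Fin.forall_fin_succ]) rfl rfl
  simp only [h3]
  simp only [h2, h1 _ ha, h1 _ hb, h1 _ hc]
  ring

theorem cell_eq {G k k' e : ℕ} (he : e < G) (h1 : k * G ≤ k' * G + e)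
    (h2 : k' * G + e < k * G + G) : k' = k := by
  rcases lt_trichotomy k' k with h | h | h
  · nlinarith [Nat.mul_le_mul_right G (Nat.succ_le_of_lt h)]
  · exact h
  · nlinarith [Nat.mul_le_mul_right G (Nat.succ_le_of_lt h)]

/-- the positions of the atoms -/
def at3 (G : ℕ) {K N : ℕ} (e : Fin 3 → Fin N → ℕ) (j : Fin K × Fin K × Fin N) : Fin 3 → ℕ :=
  ![j.1 * G + e 0 j.2.2, j.2.1 * G + e 1 j.2.2, e 2 j.2.2 * N + j.2.2]

theorem reduction {I : Type} [Fintype I] {G K N W : ℕ} {e : Fin 3 → Fin N → ℕ}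
    (he : ∀ i p, e i p < G) (hW1 : K * G ≤ W) (hW2 : G * N ≤ W) {θ : Fin N → ℝ}
    (hθ : ∀ p, θ p ≤ 1) (x : I → Fin 3 → ℕ) {lam : ℝ}
    (H : ∀ Y : Fin 3 → ℕ, (∀ i, Y i ≤ W) → |(∑ n, if ∀ i, x n i < Y i then 1 else 0) -
      ∑ j : Fin K × Fin K × Fin N, if ∀ i, at3 G e j i < Y i then θ j.2.2 else 0| ≤ lam)
    (h1 : 8 * lam * (G * N + 4 * (K * N)) < K ^ 2) (h2 : 8 * lam ≤ N) :
    ∃ q : Fin N → ℕ, ∑ p, q p ≤ 2 * N ∧ ∀ y : Fin 3 → ℕ, (∀ i, y i ≤ G) →
      |∑ p, if ∀ i, e i p < y i then q p - θ p else 0| ≤ 8 * lam := by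
  classical
  have hB : ∀ {a a' b b' c c' : ℕ}, a ≤ a' → b ≤ b' → c ≤ c' → a' ≤ W → b' ≤ W → c' ≤ W →
      |((univ.filter fun n => In a a' b b' c c' (x n)).card : ℝ) - ∑ j : Fin K × Fin K × Fin N,
        if In a a' b b' c c' (at3 G e j) then θ j.2.2 else 0| ≤ 8 * lam := by
    intro a a' b b' c c' ha hb hc ha' hb' hc'
    have h3 := fun a b c (ha : a ≤ W) (hb : b ≤ W) (hc : c ≤ W) => abs_le.1 (H ![a, b, c]
      fun i => by fin_cases i <;> assumption)
    rw [card_filter, Nat.cast_sum]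
    simp only [Nat.cast_ite, Nat.cast_one, Nat.cast_zero]
    rw [sum_In (fun _ => 1) x ha hb hc fun _ _ _ => rfl,
      sum_In (fun j : Fin K × Fin K × Fin N => θ j.2.2) _ ha hb hc fun _ _ _ => rfl, abs_le]
    have := h3 a b c (ha.trans ha') (hb.trans hb') (hc.trans hc')
    have := h3 a' b c ha' (hb.trans hb') (hc.trans hc')
    have := h3 a b' c (ha.trans ha') hb' (hc.trans hc')
    have := h3 a b c' (ha.trans ha') (hb.trans hb') hc'
    have := h3 a' b' c ha' hb' (hc.trans hc')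
    have := h3 a' b c' ha' (hb.trans hb') hc'
    have := h3 a b' c' (ha.trans ha') hb' hc'
    have := h3 a' b' c' ha' hb' hc'
    constructor <;> linarith
  have hE : ∀ {a a' b b' c c' : ℕ}, a ≤ a' → b ≤ b' → c ≤ c' → a' ≤ W → b' ≤ W → c' ≤ W →
      (∀ j : Fin K × Fin K × Fin N, ¬In a a' b b' c c' (at3 G e j)) →
      ((univ.filter fun n => In a a' b b' c c' (x n)).card : ℝ) ≤ 8 * lam := by
    intro a a' b b' c c' ha hb hc ha' hb' hc' h
    have h3 := hB ha hb hc ha' hb' hc'
    rw [sum_eq_zero fun j _ => if_neg (h j), sub_zero] at h3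
    exact (le_abs_self _).trans h3
  have hl : 0 ≤ lam := (abs_nonneg _).trans (H 0 fun _ => Nat.zero_le _)
  have ht : ∀ p : Fin N, e 2 p * N + p < G * N := fun p => by
    nlinarith [Nat.mul_le_mul_right N (Nat.succ_le_of_lt (he 2 p)), p.2]
  have hk : ∀ k : Fin K, k * G + G ≤ K * G := fun k => by
    nlinarith [Nat.mul_le_mul_right G (Nat.succ_le_of_lt k.2)]
  have hp : ∀ p p' : Fin N, e 2 p * N + p = e 2 p' * N + p' → p = p' := fun p p' h => by
    have := cell_eq (k := e 2 p') (k' := e 2 p) p.2 (by omega) (by omega)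
    rw [this] at h
    exact Fin.ext (by omega)
  set B := univ.filter fun n => (x n 0 < K * G ∧ x n 1 < K * G ∧ x n 2 < G * N) ∧
    ∀ j : Fin K × Fin K × Fin N, x n ≠ at3 G e j with hBdef
  have hsub : B ⊆ (((range (G * N)).filter fun t => ∀ p : Fin N, t ≠ e 2 p * N + p).biUnion
      fun t => univ.filter fun n => In 0 W 0 W t (t + 1) (x n)) ∪
      (univ : Finset (Fin K × Fin N)).biUnion fun j =>
        ((univ.filter fun n => In (j.1 * G) (j.1 * G + e 0 j.2) 0 W (e 2 j.2 * N + j.2)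
          (e 2 j.2 * N + j.2 + 1) (x n)) ∪
        (univ.filter fun n => In (j.1 * G + e 0 j.2 + 1) (j.1 * G + G) 0 W (e 2 j.2 * N + j.2)
          (e 2 j.2 * N + j.2 + 1) (x n))) ∪
        ((univ.filter fun n => In 0 W (j.1 * G) (j.1 * G + e 1 j.2) (e 2 j.2 * N + j.2)
          (e 2 j.2 * N + j.2 + 1) (x n)) ∪
        (univ.filter fun n => In 0 W (j.1 * G + e 1 j.2 + 1) (j.1 * G + G) (e 2 j.2 * N + j.2)
          (e 2 j.2 * N + j.2 + 1) (x n))) := by
    intro n hn
    obtain ⟨⟨h3, h4, h5⟩, h6⟩ := (mem_filter.1 hn).2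
    simp only [mem_union, mem_biUnion, mem_filter, mem_univ, true_and, mem_range]
    by_cases h7 : ∀ p : Fin N, x n 2 ≠ e 2 p * N + p
    · exact Or.inl ⟨x n 2, ⟨h5, h7⟩, by omega⟩
    push Not at h7
    obtain ⟨p, h7⟩ := h7
    have hG : 0 < G := (Nat.zero_le _).trans_lt (he 0 p)
    have d0 := Nat.div_add_mod' (x n 0) G
    have d1 := Nat.div_add_mod' (x n 1) G
    have m0 := Nat.mod_lt (x n 0) hG
    have m1 := Nat.mod_lt (x n 1) hG
    have k0 := Nat.div_lt_of_lt_mul (mul_comm K G ▸ h3)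
    have k1 := Nat.div_lt_of_lt_mul (mul_comm K G ▸ h4)
    right
    by_cases h8 : x n 0 % G = e 0 p
    · refine ⟨(⟨_, k1⟩, p), Or.inr ?_⟩
      have h9 : x n 1 % G ≠ e 1 p := fun h9 => h6 (⟨_, k0⟩, ⟨_, k1⟩, p) (funext fun i => by
        fin_cases i <;> simp [at3] <;> omega)
      dsimp only
      omega
    · refine ⟨(⟨_, k0⟩, p), Or.inl ?_⟩
      dsimp only
      omega
  have hcard : (B.card : ℝ) < K ^ 2 := by
    refine lt_of_le_of_lt ?_ h1
    refine (Nat.cast_le.2 ((card_le_card hsub).trans ((card_union_le _ _).trans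
      (add_le_add card_biUnion_le card_biUnion_le)))).trans ?_
    rw [Nat.cast_add, Nat.cast_sum, Nat.cast_sum, mul_add]
    refine add_le_add ((sum_le_card_nsmul _ _ (8 * lam) fun t ht' => ?_).trans ?_)
      ((sum_le_card_nsmul _ _ (8 * lam + 8 * lam + (8 * lam + 8 * lam)) fun j _ => ?_).trans_eq ?_)
    · rw [mem_filter, mem_range] at ht'
      refine hE (by omega) (by omega) (by omega) le_rfl le_rfl (by omega) fun j hj => ?_
      exact ht'.2 j.2.2 (by simp [In, at3] at hj; omega)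
    · rw [nsmul_eq_mul, mul_comm]
      refine mul_le_mul_of_nonneg_left ?_ (by positivity)
      exact_mod_cast (card_filter_le _ _).trans_eq (card_range _)
    · refine (Nat.cast_le.2 ((card_union_le _ _).trans
        (add_le_add (card_union_le _ _) (card_union_le _ _)))).trans ?_
      push_cast
      have := ht j.2
      have := hk j.1
      have e0 := he 0 j.2
      have e1 := he 1 j.2
      refine add_le_add (add_le_add ?_ ?_) (add_le_add ?_ ?_) <;>
        refine hE (by omega) (by omega) (by omega) (by omega) (by omega) (by omega)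
          fun j' hj => ?_ <;> simp [In, at3] at hj <;>
        rw [← hp j.2 j'.2.2 (by omega)] at hj
      · have := cell_eq (k := j.1) (k' := j'.1) e0 (by omega) (by omega)
        rw [this] at hj
        omega
      · have := cell_eq (k := j.1) (k' := j'.1) e0 (by omega) (by omega)
        rw [this] at hj
        omega
      · have := cell_eq (k := j.1) (k' := j'.2.1) e1 (by omega) (by omega)
        rw [this] at hj
        omega
      · have := cell_eq (k := j.1) (k' := j'.2.1) e1 (by omega) (by omega)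
        rw [this] at hj
        omega
    · simp
      ring
  obtain ⟨⟨k, l⟩, hkl, hnot⟩ := exists_mem_notMem_of_card_lt_card
    (s := B.image fun n => (x n 0 / G, x n 1 / G)) (t := range K ×ˢ range K)
    (card_image_le.trans_lt (by
      rw [card_product, card_range, ← sq]
      exact_mod_cast hcard))
  simp only [mem_product, mem_range] at hkl
  have hk1 := hk ⟨k, hkl.1⟩
  have hk2 := hk ⟨l, hkl.2⟩
  dsimp only at hk1 hk2
  have hIn : ∀ y : Fin 3 → ℕ, (∀ i, y i ≤ G) → ∀ j : Fin K × Fin K × Fin N,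
      In (k * G) (k * G + y 0) (l * G) (l * G + y 1) 0 (y 2 * N) (at3 G e j) ↔
        j.1 = ⟨k, hkl.1⟩ ∧ j.2.1 = ⟨l, hkl.2⟩ ∧ ∀ i, e i j.2.2 < y i := by
    rintro y hy ⟨k', l', p⟩
    have y0 := hy 0
    have y1 := hy 1
    have h3 : e 2 p * N + p < y 2 * N ↔ e 2 p < y 2 := ⟨fun h => lt_of_mul_lt_mul_right
      (by omega : e 2 p * N < y 2 * N) (Nat.zero_le _), fun h => by
        nlinarith [Nat.mul_le_mul_right N (Nat.succ_le_of_lt h), p.2]⟩
    simp only [In, at3, Fin.forall_fin_succ, Fin.ext_iff]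
    simp only [Matrix.cons_val_zero, Matrix.cons_val_one, Matrix.cons_val, h3, Fin.succ_zero_eq_one,
      Fin.succ_one_eq_two, IsEmpty.forall_iff, and_true, zero_le, true_and]
    constructor
    · rintro ⟨h4, h5, h6⟩
      obtain rfl := cell_eq (k := k) (k' := k') (he 0 p) h4.1 (by omega)
      obtain rfl := cell_eq (k := l) (k' := l') (he 1 p) h5.1 (by omega)
      omega
    · rintro ⟨rfl, rfl, h4⟩
      omega
  set q : Fin N → ℕ := fun p =>
    (univ.filter fun n => x n = at3 G e (⟨k, hkl.1⟩, ⟨l, hkl.2⟩, p)).card with hq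
  have key : ∀ y : Fin 3 → ℕ, (∀ i, y i ≤ G) →
      |∑ p, if ∀ i, e i p < y i then q p - θ p else 0| ≤ 8 * lam := by
    intro y hy
    have y0 := hy 0
    have y1 := hy 1
    have y2 := Nat.mul_le_mul_right N (hy 2)
    have h3 := hB (a := k * G) (a' := k * G + y 0) (b := l * G) (b' := l * G + y 1) (c := 0)
      (c' := y 2 * N) (by omega) (by omega) (by omega) (by omega) (by omega) (by omega)
    have h4 : (univ.filter fun n =>
        In (k * G) (k * G + y 0) (l * G) (l * G + y 1) 0 (y 2 * N) (x n)) =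
        (univ.filter fun p => ∀ i, e i p < y i).biUnion fun p =>
          univ.filter fun n => x n = at3 G e (⟨k, hkl.1⟩, ⟨l, hkl.2⟩, p) := by
      ext n
      simp only [mem_biUnion, mem_filter, mem_univ, true_and]
      constructor
      · intro h
        have h5 : n ∉ B := fun hn => hnot (mem_image.2 ⟨n, hn, Prod.ext
          (Nat.div_eq_of_lt_le h.1.1 (by rw [add_mul]; dsimp only; omega))
          (Nat.div_eq_of_lt_le h.2.1.1 (by rw [add_mul]; dsimp only; omega))⟩)
        simp only [hBdef, mem_filter, mem_univ, true_and, not_and, not_forall, not_not] at h5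
        obtain ⟨⟨k', l', p⟩, h6⟩ := h5 (by omega)
        rw [h6] at h ⊢
        obtain ⟨rfl, rfl, h7⟩ := (hIn y hy _).1 h
        exact ⟨p, h7, rfl⟩
      · rintro ⟨p, h5, h6⟩
        rw [h6]
        exact (hIn y hy _).2 ⟨rfl, rfl, h5⟩
    rw [h4, card_biUnion fun p _ p' _ hpp => disjoint_filter.2 fun n _ h5 h6 =>
      hpp (hp p p' (by simpa [at3] using congrFun (h5.symm.trans h6) 2))] at h3
    convert h3 using 2
    simp only [hIn y hy, Fintype.sum_prod_type, ite_and, sum_ite_irrel, sum_ite_eq', mem_univ,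
      if_true, sum_const_zero, Nat.cast_sum, sum_filter, ← sum_sub_distrib]
    refine sum_congr rfl fun p _ => ?_
    split_ifs <;> simp [hq]
  refine ⟨q, ?_, key⟩
  have h3 := (abs_le.1 (key (fun _ => G) fun _ => le_rfl)).2
  simp only [he, implies_true, if_true, sum_sub_distrib] at h3
  have h4 : ∑ p, θ p ≤ N := (sum_le_card_nsmul _ _ 1 fun p _ => hθ p).trans_eq (by simp)
  have h5 : (∑ p, (q p : ℝ)) ≤ 2 * N := by linarith
  exact_mod_cast h5

end Pool.Agent.MP_507a17_nt.H83
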