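import Pool.Agent.MP_507a17_nt.H83.Points
import Pool.Agent.MP_507a17_nt.H83.Red

/-! An atomic measure on the unit cube that no point set approximates at the Lebesgue rate. -/

open Finset MeasureTheory

namespace Pool.Agent.MP_507a17_nt.H83

open Classical in
theorem exists_measure {T : Type} [Fintype T] [Nonempty T] {w : T → ℝ}
    (hw : ∀ t, 0 ≤ w t ∧ w t ≤ 1) {ζ : T → Fin 3 → ℝ} (hζ : ∀ t, ζ t ∈ Set.Icc 0 1) :
    ∃ μ : Measure (Fin 3 → ℝ), IsProbabilityMeasure μ ∧ μ (Set.Icc (0 : Fin 3 → ℝ) 1)ᶜ = 0 ∧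
      ∀ y : Fin 3 → ℝ, y 0 ≤ 1 → (μ {z | ∀ i, z i < y i}).toReal =
        (∑ t, if ∀ i, ζ t i < y i then w t else 0) / Fintype.card T := by
  have hT : (0 : ℝ) < Fintype.card T := by exact_mod_cast Fintype.card_pos
  set μ : Measure (Fin 3 → ℝ) := ∑ t, (ENNReal.ofReal (w t / Fintype.card T) • Measure.dirac (ζ t)
    + ENNReal.ofReal ((1 - w t) / Fintype.card T) • Measure.dirac 1) with hμ
  have h : ∀ S : Set (Fin 3 → ℝ), μ S = ENNReal.ofReal ((∑ t, ((if ζ t ∈ S then w t else 0) +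
      if (1 : Fin 3 → ℝ) ∈ S then 1 - w t else 0)) / Fintype.card T) := by
    intro S
    have h0 : ∀ t, 0 ≤ (if ζ t ∈ S then w t else 0) / (Fintype.card T : ℝ) := fun t =>
      div_nonneg (by split_ifs; exacts [(hw t).1, le_rfl]) hT.le
    have h1 : ∀ t, 0 ≤ (if (1 : Fin 3 → ℝ) ∈ S then 1 - w t else 0) / (Fintype.card T : ℝ) :=
      fun t => div_nonneg (by split_ifs; exacts [sub_nonneg.2 (hw t).2, le_rfl]) hT.le
    simp only [sum_div, add_div]
    rw [hμ, Measure.finsetSum_apply, ENNReal.ofReal_sum_of_nonneg fun t _ =>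
      add_nonneg (h0 t) (h1 t)]
    refine sum_congr rfl fun t _ => ?_
    rw [ENNReal.ofReal_add (h0 t) (h1 t), Measure.add_apply, Measure.smul_apply,
      Measure.smul_apply, Measure.dirac_apply, Measure.dirac_apply]
    congr 1
    · by_cases h2 : ζ t ∈ S <;> simp [h2]
    · by_cases h2 : (1 : Fin 3 → ℝ) ∈ S <;> simp [h2]
  refine ⟨μ, ⟨?_⟩, ?_, fun y hy => ?_⟩
  · rw [h]
    simp [hT.ne']
  · rw [h, sum_eq_zero fun t _ => by
      rw [if_neg (Set.notMem_compl_iff.2 (hζ t)),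
        if_neg (Set.notMem_compl_iff.2 (Set.right_mem_Icc.2 zero_le_one)), add_zero]]
    simp
  · have h2 : (1 : Fin 3 → ℝ) ∉ {z : Fin 3 → ℝ | ∀ i, z i < y i} := fun h => not_lt.2 hy (h 0)
    rw [h, ENNReal.toReal_ofReal (div_nonneg (sum_nonneg fun t _ => by
      rw [if_neg h2, add_zero]
      split_ifs
      exacts [(hw t).1, le_rfl]) hT.le)]
    congr 1
    exact sum_congr rfl fun t _ => by rw [if_neg h2, add_zero]; congr

open Classical in
/-- in dimension three the rate `(log N) ^ 2 / N` fails for general measures -/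
theorem not_rate (C : ℝ) : ∃ μ : Measure (Fin 3 → ℝ), IsProbabilityMeasure μ ∧
    μ (Set.Icc (0 : Fin 3 → ℝ) 1)ᶜ = 0 ∧ ∃ M : ℕ, 2 ≤ M ∧ ∀ x : Fin M → Fin 3 → ℝ,
      (∀ n, x n ∈ Set.Icc (0 : Fin 3 → ℝ) 1) → ¬∀ y : Fin 3 → ℝ,
        |((univ.filter fun n : Fin M => ∀ i, x n i < y i).card : ℝ) / M -
          (μ {z | ∀ i, z i < y i}).toReal| ≤ C * Real.log M ^ 2 / M := by
  obtain ⟨u₀, hc⟩ := core (8 * (361 * |C|))
  obtain ⟨u, hu⟩ := exists_nat_gt (max u₀ (max 1 (40 * (361 * |C|))))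
  simp only [max_lt_iff] at hu
  obtain ⟨hu0, hu1, hu2⟩ := hu
  have hu3 : 1 < u := by exact_mod_cast hu1
  obtain ⟨n, hn⟩ : ∃ n, u ^ 4 = n + 1 := Nat.exists_eq_succ_of_ne_zero (by positivity)
  have hn' : (n + 1 : ℝ) = (u : ℝ) ^ 4 := by exact_mod_cast hn.symm
  have hh : 40 * (361 * |C|) < n + 1 := hu2.trans_le (hn' ▸ le_self_pow₀ hu1.le four_ne_zero)
  have hn2 : n + 1 ≤ 2 ^ n := Nat.lt_two_pow_self
  have hn3 : 2 ≤ n + 1 := hn ▸ hu3.trans_le (Nat.le_self_pow four_ne_zero u)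
  obtain ⟨N, hN⟩ : ∃ N, N = (n + 1) ^ 2 * 2 ^ n := ⟨_, rfl⟩
  obtain ⟨X, θ, hθ, hX⟩ := hc u n N hu0.le hn' hN
  obtain ⟨G, hG⟩ : ∃ G, G = 2 ^ (n + 2) := ⟨_, rfl⟩
  obtain ⟨K, hK⟩ : ∃ K, K = G * N * (n + 1) ^ 3 := ⟨_, rfl⟩
  have hN0 : 0 < N := by rw [hN]; positivity
  have hG0 : 0 < G := by rw [hG]; positivity
  have hK0 : 0 < K := by rw [hK]; positivity
  have hW : (0 : ℝ) < (K * G * N : ℕ) := by positivity
  have he : ∀ i p, rk i (X p) < G := fun i p => hG ▸ rk_lt_pow i (X p)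
  have hW1 : K * G ≤ K * G * N := Nat.le_mul_of_pos_right _ hN0
  have hW2 : G * N ≤ K * G * N := by rw [mul_assoc]; exact Nat.le_mul_of_pos_left _ hK0
  have : Nonempty (Fin K × Fin K × Fin N) := ⟨⟨0, hK0⟩, ⟨0, hK0⟩, ⟨0, hN0⟩⟩
  obtain ⟨μ, hμ1, hμ2, hμ3⟩ := exists_measure (T := Fin K × Fin K × Fin N)
    (w := fun j => θ j.2.2) (fun j => hθ _)
    (ζ := fun j i => at3 G (fun i p => rk i (X p)) j i / (K * G * N : ℕ)) fun j => by
      refine ⟨fun i => by simp only [Pi.zero_apply]; positivity, fun i => (div_le_one hW).2 ?_⟩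
      have h1 := Nat.mul_le_mul_right G (Nat.succ_le_of_lt j.1.2)
      have h2 := Nat.mul_le_mul_right G (Nat.succ_le_of_lt j.2.1.2)
      have h3 := Nat.mul_le_mul_right N (Nat.succ_le_of_lt (he 2 j.2.2))
      have := he 0 j.2.2
      have := he 1 j.2.2
      have := j.2.2.2
      rw [Nat.succ_mul] at h1 h2 h3
      refine Nat.cast_le.2 ?_
      fin_cases i <;> simp [at3] <;> omega
  have hM2 : 2 ≤ K * (K * N) := by
    refine le_trans ?_ (Nat.le_mul_of_pos_left _ hK0 |>.trans (Nat.le_mul_of_pos_left _ hK0))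
    rw [hN]
    nlinarith [Nat.one_le_two_pow (n := n)]
  have hlog : Real.log (K * (K * N) : ℕ) ≤ 19 * (n + 1) := by
    have h1 : n + 1 ≤ 2 ^ (n + 1) := Nat.lt_two_pow_self.le
    have h2 : N ≤ (2 ^ (n + 1)) ^ 3 := by
      rw [hN, pow_succ _ 2]
      gcongr <;> simp
    have h3 : G ≤ (2 ^ (n + 1)) ^ 2 := by
      rw [hG, ← pow_mul]
      exact Nat.pow_le_pow_right two_pos (by omega)
    have h4 : K ≤ (2 ^ (n + 1)) ^ 8 := by
      rw [hK, show 8 = 2 + 3 + 3 by rfl, pow_add, pow_add]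
      gcongr
    have h5 : K * (K * N) ≤ (2 ^ (n + 1)) ^ 19 := by
      rw [show 19 = 8 + (8 + 3) by rfl, pow_add _ 8, pow_add _ 8]
      gcongr
    refine (Real.log_le_log (by positivity) (Nat.cast_le.2 h5)).trans ?_
    push_cast
    rw [Real.log_pow, Real.log_pow]
    push_cast
    nlinarith [Real.log_two_lt_d9, (Nat.cast_nonneg n : (0 : ℝ) ≤ n)]
  refine ⟨μ, hμ1, hμ2, K * (K * N), hM2, fun x hx H => ?_⟩
  have hM : (0 : ℝ) < (K * (K * N) : ℕ) := by positivity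
  have hlam : C * Real.log (K * (K * N) : ℕ) ^ 2 ≤ 361 * |C| * (n + 1) ^ 2 := by
    have := pow_le_pow_left₀ (Real.log_natCast_nonneg _) hlog 2
    calc _ ≤ |C| * (19 * (n + 1)) ^ 2 := mul_le_mul (le_abs_self C) this (sq_nonneg _)
          (abs_nonneg C)
      _ = _ := by ring
  obtain ⟨q, hq, h1⟩ := reduction (K := K) he hW1 hW2 (fun p => (hθ p).2)
    (fun m i => ⌊x m i * (K * G * N : ℕ)⌋₊) (lam := 361 * |C| * (n + 1) ^ 2)
    (fun Y hY => by
      have h2 := H fun i => Y i / (K * G * N : ℕ)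
      rw [hμ3 _ ((div_le_one hW).2 (Nat.cast_le.2 (hY 0)))] at h2
      simp only [Fintype.card_prod, Fintype.card_fin, div_lt_div_iff_of_pos_right hW,
        Nat.cast_lt] at h2
      rw [← sub_div, abs_div, abs_of_pos hM, div_le_div_iff_of_pos_right hM] at h2
      refine le_trans (le_of_eq ?_) (h2.trans hlam)
      rw [sum_boole]
      congr 4
      refine filter_congr fun m _ => forall_congr' fun i => ?_
      rw [Nat.floor_lt (mul_nonneg ((hx m).1 i) hW.le), lt_div_iff₀ hW])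
    (by
      have h2 : (K : ℝ) = G * N * (n + 1) ^ 3 := by exact_mod_cast hK
      have h3 : (G : ℝ) * N ≤ K * (G * N) :=
        le_mul_of_one_le_left (by positivity) (by exact_mod_cast hK0)
      have h4 : (K : ℝ) * N ≤ K * (G * N) := mul_le_mul_of_nonneg_left
        (le_mul_of_one_le_left (by positivity) (by exact_mod_cast hG0)) (by positivity)
      calc _ ≤ 8 * (361 * |C| * (n + 1) ^ 2) * (5 * (K * (G * N))) := by gcongr; linarith
        _ = 40 * (361 * |C|) * ((n + 1) ^ 2 * (K * (G * N))) := by ring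
        _ < (n + 1) * ((n + 1) ^ 2 * (K * (G * N))) :=
          mul_lt_mul_of_pos_right hh (by positivity)
        _ = _ := by rw [sq (K : ℝ)]; nth_rw 3 [h2]; ring)
    (by
      have h2 : (N : ℝ) = (n + 1) ^ 2 * 2 ^ n := by exact_mod_cast hN
      have h3 : (n + 1 : ℝ) ≤ 2 ^ n := by exact_mod_cast hn2
      rw [h2]
      nlinarith [mul_le_mul_of_nonneg_left (hh.le.trans h3) (sq_nonneg (n + 1 : ℝ)),
        mul_nonneg (abs_nonneg C) (sq_nonneg (n + 1 : ℝ))])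
  obtain ⟨ω, hω⟩ := hX q hq
  refine not_le.2 hω (le_trans (le_of_eq ?_)
    ((h1 (fun i => rk i ω) fun i => hG ▸ (rk_lt_pow i ω).le).trans_eq (by ring)))
  congr 1
  simp only [DD, Finset.sum_apply, Pi.smul_apply, Pi.mul_apply, smul_eq_mul, H83.G]
  refine sum_congr rfl fun p _ => ?_
  simp only [Fin.forall_fin_succ, IsEmpty.forall_iff, and_true, Fin.succ_zero_eq_one,
    Fin.succ_one_eq_two]
  by_cases rk 0 (X p) < rk 0 ω <;> by_cases rk 1 (X p) < rk 1 ω <;>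
    by_cases rk 2 (X p) < rk 2 ω <;> simp [*]

end Pool.Agent.MP_507a17_nt.H83
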