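import Pool.Agent.MP_507a17_nt.H83.Ops

/-! The gain in the coincidence terms of a hyperbolic sum of signs. -/

open Finset

namespace Pool.Agent.MP_507a17_nt.H83

variable {s : ℕ}

theorem tri_comm {β : Type} [AddCommMonoid β] (n : ℕ) (G : ℕ → ℕ → β) :
    ∑ a ∈ range (n + 1), ∑ b ∈ range (n - a + 1), G a b =
      ∑ b ∈ range (n + 1), ∑ a ∈ range (n - b + 1), G a b :=
  sum_comm' fun x y => by simp only [mem_range]; omega

theorem tri_le {n : ℕ} {G : ℕ → ℕ → ℝ} (h : ∀ a b, 0 ≤ G a b) :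
    ∑ a ∈ range (n + 1), ∑ b ∈ range (n - a + 1), G a b ≤
      ∑ a ∈ range (n + 1), ∑ b ∈ range (n + 1), G a b :=
  sum_le_sum fun a _ => sum_le_sum_of_subset_of_nonneg (range_subset_range.2 (by omega))
    fun _ _ _ => h _ _

theorem tri_flip {β : Type} [AddCommMonoid β] (m : ℕ) (G : ℕ → ℕ → β) :
    ∑ b ∈ range (m + 1), G b (m - b) = ∑ c ∈ range (m + 1), G (m - c) c := by
  rw [← sum_flip fun c => G (m - c) c]
  exact sum_congr rfl fun b hb => by rw [Nat.sub_sub_self (Nat.lt_succ_iff.1 (mem_range.1 hb))]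

theorem beck {i : Fin 3} (j : Fin 3) (n : ℕ) {w : ℕ → ℕ → Fn s} (hw1 : ∀ a k ω, |w a k ω| ≤ 1)
    (hw : ∀ a k, M i (n - a - k) (w a k)) {f : Fn s} {B τ : ℝ} (hf : ∀ ω, |f ω| ≤ B)
    (hτ : 0 < τ) :
    ∑ a ∈ range (n + 1), av ((∑ k ∈ range (n - a + 1), w a k * r i (n - a - k) * C j k f) ^ 2) ≤
      τ⁻¹ * (n + 1) ^ 3 + τ * (5 * B ^ 4) := by
  set u : ℕ → ℕ → Fn s := fun a k => if a + k ≤ n then w a k * r i (n - a - k) else 0 with hu
  have hu1 : ∀ a k ω, |u a k ω| ≤ 1 := by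
    intro a k ω
    simp only [hu]
    split_ifs
    · rw [mul_comm]
      exact (abs_r_mul _ _ _ _).trans (hw1 a k ω)
    · simp
  have hM : ∀ a k a' k', a + k < a' + k' → M i (n - a - k) (u a' k') := by
    intro a k a' k' h
    simp only [hu]
    split_ifs with h'
    · exact ((hw a' k').le (by omega)).mul (M_r (Or.inr (by omega)))
    · exact dep_const _ 0
  have hz : ∀ a a' k k', a < a' → k < k' → av (u a k * u a k' * (u a' k * u a' k')) = 0 := by
    intro a a' k k' ha hk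
    by_cases h : a + k ≤ n
    · have h1 := M.av_r ((hw a k).mul (((hM a k a k' (by omega)).mul
        (hM a k a' k (by omega))).mul (hM a k a' k' (by omega))))
      rw [← h1, show u a k = w a k * r i (n - a - k) from if_pos h]
      congr 1
      ring
    · rw [show u a k = 0 from if_neg h]
      simp
  have hq : ∀ a a' k k', av (u a k * u a k' * (u a' k * u a' k')) ≤
      (if a = a' then 1 else 0) + (if k = k' then 1 else 0) := by
    intro a a' k k'
    have h1 : av (u a k * u a k' * (u a' k * u a' k')) ≤ 1 := av_le fun ω => by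
      refine (le_abs_self _).trans ?_
      simp only [Pi.mul_apply, abs_mul]
      exact mul_le_one₀ (mul_le_one₀ (hu1 _ _ _) (abs_nonneg _) (hu1 _ _ _)) (by positivity)
        (mul_le_one₀ (hu1 _ _ _) (abs_nonneg _) (hu1 _ _ _))
    by_cases ha : a = a'
    · rw [if_pos ha]
      split_ifs <;> linarith
    by_cases hk : k = k'
    · rw [if_pos hk, if_neg ha]
      linarith
    rw [if_neg ha, if_neg hk, add_zero]
    apply le_of_eq
    rcases lt_or_gt_of_ne ha with ha | ha <;> rcases lt_or_gt_of_ne hk with hk | hk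
    · exact hz _ _ _ _ ha hk
    · rw [← hz _ _ _ _ ha hk]; congr 1; ring
    · rw [← hz _ _ _ _ ha hk]; congr 1; ring
    · rw [← hz _ _ _ _ ha hk]; congr 1; ring
  set Γ : ℕ → ℕ → Fn s := fun k k' => ∑ a ∈ range (n + 1), u a k * u a k' with hΓ
  have hG : ∑ k ∈ range (n + 1), ∑ k' ∈ range (n + 1), av (Γ k k' ^ 2) ≤ 2 * (n + 1) ^ 3 := by
    have h1 : ∀ k k', av (Γ k k' ^ 2) ≤ ∑ a ∈ range (n + 1), ∑ a' ∈ range (n + 1),
        ((if a = a' then 1 else 0) + (if k = k' then 1 else 0) : ℝ) := by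
      intro k k'
      rw [sq, hΓ, sum_mul_sum, map_sum]
      exact sum_le_sum fun a _ => by rw [map_sum]; exact sum_le_sum fun a' _ => hq _ _ _ _
    refine (sum_le_sum fun k _ => sum_le_sum fun k' _ => h1 k k').trans_eq ?_
    have h2 : ∑ a ∈ range (n + 1), ∑ a' ∈ range (n + 1), (if a = a' then 1 else 0 : ℝ) = n + 1 := by
      rw [sum_congr rfl fun a ha => by rw [sum_ite_eq, if_pos ha]]
      simp
    simp only [sum_add_distrib, h2, sum_const, card_range, nsmul_eq_mul, ← mul_sum]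
    push_cast
    ring
  have h3 : ∑ a ∈ range (n + 1),
      av ((∑ k ∈ range (n - a + 1), w a k * r i (n - a - k) * C j k f) ^ 2) =
      ∑ k ∈ range (n + 1), ∑ k' ∈ range (n + 1), av (Γ k k' * (C j k f * C j k' f)) := by
    simp only [← map_sum]
    congr 1
    have h4 : ∀ a ∈ range (n + 1), ∑ k ∈ range (n - a + 1), w a k * r i (n - a - k) * C j k f =
        ∑ k ∈ range (n + 1), u a k * C j k f := by
      intro a ha
      rw [mem_range] at ha
      rw [← sum_subset (range_subset_range.2 (by omega : n - a + 1 ≤ n + 1)) fun k _ hk => by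
        rw [mem_range] at hk
        rw [show u a k = 0 from if_neg (by omega), zero_mul]]
      exact sum_congr rfl fun k hk => by
        rw [mem_range] at hk
        rw [show u a k = _ from if_pos (by omega)]
    rw [sum_congr rfl fun a ha => by rw [h4 a ha, sq, sum_mul_sum], sum_comm]
    refine sum_congr rfl fun k _ => ?_
    rw [sum_comm]
    refine sum_congr rfl fun k' _ => ?_
    rw [hΓ, sum_mul]
    exact sum_congr rfl fun a _ => by ring
  have h5 : ∑ k ∈ range (n + 1), ∑ k' ∈ range (n + 1), av ((C j k f * C j k' f) ^ 2) ≤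
      10 * B ^ 4 := by
    refine le_trans (le_of_eq ?_) (sq4 j (n + 1) hf)
    rw [sq (∑ k ∈ range (n + 1), _), sum_mul_sum]
    simp only [map_sum, mul_pow]
  rw [h3]
  refine (sum_le_sum fun k _ => sum_le_sum fun k' _ =>
    (le_abs_self _).trans (abs_av_mul_le _ _ (inv_pos.2 hτ))).trans ?_
  simp only [← sum_div, sum_add_distrib, ← mul_sum, inv_inv]
  have := mul_le_mul_of_nonneg_left hG (inv_pos.2 hτ).le
  have := mul_le_mul_of_nonneg_left h5 hτ.le
  linarith

/-- a family of signs attached to dyadic boxes -/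
structure Sg (σ : ℕ → ℕ → ℕ → Fn s) : Prop where
  sq : ∀ a b c, σ a b c * σ a b c = 1
  m0 : ∀ a b c, M 0 a (σ a b c)
  m1 : ∀ a b c, M 1 b (σ a b c)
  m2 : ∀ a b c, M 2 c (σ a b c)

theorem Sg.abs {σ : ℕ → ℕ → ℕ → Fn s} (h : Sg σ) (a b c : ℕ) (ω : Om s) : |σ a b c ω| = 1 := by
  have h1 : σ a b c ω * σ a b c ω = 1 := congrFun (h.sq a b c) ω
  rcases mul_self_eq_one_iff.1 h1 with h2 | h2 <;> simp [h2]

/-- removal of one martingale difference -/
noncomputable def Dl (i : Fin 3) (k : ℕ) (f : Fn s) : Fn s := f - r i k * C i k f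

/-- one term of the hyperbolic sum -/
def ff (σ : ℕ → ℕ → ℕ → Fn s) (a b c : ℕ) : Fn s := σ a b c * r 1 b * r 2 c

/-- the planar hyperbolic sum -/
def gg (σ : ℕ → ℕ → ℕ → Fn s) (n a : ℕ) : Fn s := ∑ b ∈ range (n - a + 1), ff σ a b (n - a - b)

/-- the part without coincidences -/
noncomputable def VV (σ : ℕ → ℕ → ℕ → Fn s) (n a : ℕ) (F : Fn s) : Fn s :=
  ∑ b ∈ range (n - a + 1), ff σ a b (n - a - b) * Dl 1 b (Dl 2 (n - a - b) F)

/-- the part with coincidences -/
noncomputable def UU (σ : ℕ → ℕ → ℕ → Fn s) (n a : ℕ) (F : Fn s) : Fn s :=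
  F * gg σ n a - VV σ n a F

theorem C_Dl (i : Fin 3) (k : ℕ) (f : Fn s) : C i k (Dl i k f) = 0 := by
  rw [Dl, map_sub, C_rC, sub_self]

theorem C_Dl_ne {i j : Fin 3} (h : i ≠ j) (k l : ℕ) (f : Fn s) :
    C i k (Dl j l f) = Dl j l (C i k f) := by
  rw [Dl, Dl, map_sub, (M_r (Or.inl h.symm)).C_mul, C_C h]

theorem Dl_comm {i j : Fin 3} (h : i ≠ j) (k l : ℕ) (f : Fn s) :
    Dl i k (Dl j l f) = Dl j l (Dl i k f) := by
  rw [Dl, C_Dl_ne h, Dl.eq_1 j l (Dl i k f), C_Dl_ne h.symm]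
  simp only [Dl]
  rw [C_C h]
  ring

theorem av_Dl (i : Fin 3) (k : ℕ) (f : Fn s) : av (Dl i k f) = av f := by
  rw [Dl, map_sub, (M_C i k f).av_r, sub_zero]

theorem M.Dl {i j : Fin 3} {k : ℕ} {f : Fn s} (h : M i k f) (hj : j ≠ i) (l : ℕ) :
    M i k (Dl j l f) := h.sub ((M_r (Or.inl hj)).mul (h.C hj l))

theorem M.P_kill {i : Fin 3} {k l : ℕ} {G : Fn s} (h : M i k G) (hl : l ≤ k) (H : Fn s) :
    H83.P i l (r i k * (G * H83.Dl i k H)) = 0 := by
  rw [← P_P_le hl, ← C_def, h.C_mul, C_Dl, mul_zero, map_zero]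

variable {σ : ℕ → ℕ → ℕ → Fn s} {n : ℕ}

theorem Sg.M_ff (h : Sg σ) (a b c : ℕ) : M 0 a (ff σ a b c) :=
  ((h.m0 a b c).mul (M_r (Or.inl (by decide)))).mul (M_r (Or.inl (by decide)))

theorem Sg.M_gg (h : Sg σ) (n a : ℕ) : M 0 a (gg σ n a) := Dep.sum fun _ _ => h.M_ff _ _ _

theorem Sg.M_VV (h : Sg σ) (n : ℕ) {a : ℕ} {F : Fn s} (hF : M 0 a F) : M 0 a (VV σ n a F) :=
  Dep.sum fun _ _ => (h.M_ff _ _ _).mul ((hF.Dl (by decide) _).Dl (by decide) _)

theorem Sg.M_UU (h : Sg σ) (n : ℕ) {a : ℕ} {F : Fn s} (hF : M 0 a F) : M 0 a (UU σ n a F) :=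
  (hF.mul (h.M_gg n a)).sub (h.M_VV n hF)

theorem Sg.moments (h : Sg σ) (n a : ℕ) :
    av (gg σ n a ^ 2) ≤ n + 1 ∧ av (gg σ n a ^ 4) ≤ 3 * (n + 1) ^ 2 := by
  have h1 := khin (i := 1) (m := n - a + 1) (e := fun b => σ a b (n - a - b) * r 2 (n - a - b))
    (fun b _ => (h.m1 _ _ _).mul (M_r (Or.inl (by decide)))) fun b ω => by
      rw [mul_comm]
      exact (abs_r_mul _ _ _ _).trans (h.abs _ _ _ ω).le
  have h2 : gg σ n a = ∑ b ∈ range (n - a + 1), r 1 b * (σ a b (n - a - b) * r 2 (n - a - b)) :=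
    sum_congr rfl fun b _ => by rw [ff]; ring
  have h3 : ((n - a + 1 : ℕ) : ℝ) ≤ n + 1 := by exact_mod_cast (by omega : n - a + 1 ≤ n + 1)
  rw [h2]
  exact ⟨h1.1.trans h3, h1.2.trans (by gcongr)⟩

theorem Sg.kill (h : Sg σ) {a a' b : ℕ} (ha : a' < a) (hb : a + b ≤ n) (F : Fn s) :
    P 1 b (P 2 (n - a - b) (r 0 a' * VV σ n a' F)) = 0 := by
  rw [VV, mul_sum, map_sum, map_sum]
  refine sum_eq_zero fun b' _ => ?_
  rcases le_or_gt b b' with hb' | hb'
  · have h1 := (((h.m1 a' b' (n - a' - b')).mul (M_r (i := 0) (k := a') (Or.inl (by decide)))).mul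
      (M_r (i := 2) (k := n - a' - b') (Or.inl (by decide)))).P_kill hb' (Dl 2 (n - a' - b') F)
    rw [P_P, ← map_zero (P 2 (n - a - b)), ← h1, ff]
    congr 2
    ring
  · have h1 := (((h.m2 a' b' (n - a' - b')).mul (M_r (i := 0) (k := a') (Or.inl (by decide)))).mul
      (M_r (i := 1) (k := b') (Or.inl (by decide)))).P_kill
      (by omega : n - a - b ≤ n - a' - b') (Dl 1 b' F)
    rw [← map_zero (P 1 b), ← h1, ff, Dl_comm (by decide)]
    congr 2
    ring

theorem Sg.av_VV_gg (h : Sg σ) (hs : n < s) (a : ℕ) (F : Fn s) :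
    av (VV σ n a F * gg σ n a) = (n - a + 1 : ℕ) * av F := by
  rw [VV, gg, sum_mul_sum, map_sum]
  rw [sum_congr rfl (g := fun _ => av F), sum_const, card_range, nsmul_eq_mul]
  intro b hb
  rw [map_sum, sum_eq_single_of_mem b hb]
  · rw [← av_Dl 2 (n - a - b) F, ← av_Dl 1 b (Dl 2 (n - a - b) F), ff]
    rw [mem_range] at hb
    congr 1
    have h1 := h.sq a b (n - a - b)
    have h2 := r_mul (i := 1) (by omega : b < s)
    have h3 := r_mul (i := 2) (by omega : n - a - b < s)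
    generalize Dl 1 b (Dl 2 (n - a - b) F) = H, σ a b (n - a - b) = x, (r 1 b : Fn s) = y,
      (r 2 (n - a - b) : Fn s) = z at *
    linear_combination H * y * y * z * z * h1 + H * z * z * h2 + H * h3
  · intro b' hb' hne
    rw [mem_range] at hb hb'
    rcases lt_or_gt_of_ne hne with hl | hl
    · have h1 := ((((h.m1 a b (n - a - b)).mul (M_r (i := 2) (k := n - a - b)
        (Or.inl (by decide)))).mul ((h.m1 a b' (n - a - b')).le hl.le)).mul
        ((M_r (i := 1) (Or.inr hl)).mul (M_r (i := 2) (k := n - a - b') (Or.inl (by decide))))).P_kill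
        le_rfl (Dl 2 (n - a - b) F)
      rw [← av_P 1 b, ← map_zero (av (X := Om s)), ← h1, ff, ff]
      congr 2
      ring
    · have hl' : n - a - b' < n - a - b := by omega
      have h1 := ((((h.m2 a b (n - a - b)).mul (M_r (i := 1) (k := b)
        (Or.inl (by decide)))).mul ((h.m2 a b' (n - a - b')).le hl'.le)).mul
        ((M_r (i := 2) (Or.inr hl')).mul (M_r (i := 1) (k := b') (Or.inl (by decide))))).P_kill
        le_rfl (Dl 1 b F)
      rw [← av_P 2 (n - a - b), ← map_zero (av (X := Om s)), ← h1, ff, ff, Dl_comm (by decide)]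
      congr 2
      ring

theorem Sg.UU_eq (h : Sg σ) (hs : n < s) (a : ℕ) (Ψ : Fn s) :
    UU σ n a (P 0 a Ψ) = P 0 a (
      ∑ k ∈ range (n - a + 1), σ a (n - a - k) k * r 1 (n - a - k) * C 2 k Ψ +
      ∑ k ∈ range (n - a + 1), σ a k (n - a - k) * r 2 (n - a - k) * C 1 k Ψ -
      ∑ b ∈ range (n - a + 1), σ a b (n - a - b) * C 1 b (C 2 (n - a - b) Ψ)) := by
  rw [← tri_flip (n - a) fun b c => σ a b c * r 1 b * C 2 c Ψ, ← sum_add_distrib,
    ← sum_sub_distrib, map_sum, UU, gg, VV, mul_sum, ← sum_sub_distrib]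
  refine sum_congr rfl fun b hb => ?_
  rw [mem_range] at hb
  have h2 := r_mul (i := 1) (by omega : b < s)
  have h3 := r_mul (i := 2) (by omega : n - a - b < s)
  rw [map_sub, map_add, ((h.m0 _ _ _).mul (M_r (Or.inl (by decide)))).P_mul,
    ((h.m0 _ _ _).mul (M_r (Or.inl (by decide)))).P_mul, (h.m0 _ _ _).P_mul,
    ← C_P (by decide), ← C_P (by decide), ← C_P (by decide), ← C_P (by decide), Dl,
    C_Dl_ne (by decide), Dl, Dl, C_C (by decide : (2 : Fin 3) ≠ 1), ff]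
  generalize P 0 a Ψ = F
  generalize C 1 b (C 2 (n - a - b) F) = A
  generalize σ a b (n - a - b) = x, (r 1 b : Fn s) = y, (r 2 (n - a - b) : Fn s) = z,
    C 1 b F = A1, C 2 (n - a - b) F = A2 at *
  linear_combination x * y * A2 * h3 + x * z * A1 * h2 - x * A * z * z * h2 - x * A * h3

theorem Sg.U_bound (h : Sg σ) (hs : n < s) {Ψ : Fn s} {B τ : ℝ} (hf : ∀ ω, |Ψ ω| ≤ B)
    (hτ : 0 < τ) :
    ∑ a ∈ range (n + 1), av (UU σ n a (P 0 a Ψ) ^ 2) ≤
      6 * (τ⁻¹ * (n + 1) ^ 3 + τ * (5 * B ^ 4)) + 3 * ((n + 1) * B ^ 2) := by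
  have h1 := beck (i := 1) 2 n (w := fun a k => σ a (n - a - k) k)
    (fun _ _ ω => (h.abs _ _ _ ω).le) (fun _ _ => h.m1 _ _ _) hf hτ
  have h2 := beck (i := 2) 1 n (w := fun a k => σ a k (n - a - k))
    (fun _ _ ω => (h.abs _ _ _ ω).le) (fun _ _ => h.m2 _ _ _) hf hτ
  have h3 : ∑ a ∈ range (n + 1), av ((∑ b ∈ range (n - a + 1),
      σ a b (n - a - b) * C 1 b (C 2 (n - a - b) Ψ)) ^ 2) ≤ (n + 1) * B ^ 2 := by
    have h4 : ∀ a ∈ range (n + 1), av ((∑ b ∈ range (n - a + 1),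
        σ a b (n - a - b) * C 1 b (C 2 (n - a - b) Ψ)) ^ 2) ≤
        (n + 1) * ∑ b ∈ range (n - a + 1), av (C 1 b (C 2 (n - a - b) Ψ) ^ 2) := by
      intro a _
      rw [← map_sum, ← av_cmul]
      refine av_mono fun ω => ?_
      simp only [Pi.pow_apply, Finset.sum_apply, Pi.mul_apply]
      refine sq_sum_le_card_mul_sum_sq.trans (mul_le_mul ?_ (sum_le_sum fun b _ => ?_)
        (by positivity) (by positivity))
      · rw [card_range]
        exact_mod_cast (by omega : n - a + 1 ≤ n + 1)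
      · rw [mul_pow, ← sq_abs (σ _ _ _ _), h.abs, one_pow, one_mul]
    refine (sum_le_sum h4).trans ?_
    rw [← mul_sum, tri_comm]
    refine mul_le_mul_of_nonneg_left ?_ (by positivity)
    refine le_trans ?_ ((bessel₂ 2 1 0 0 (n + 1) (n + 1) Ψ).trans (av_sq_le hf))
    refine le_trans (le_of_eq ?_) (tri_le fun _ _ => av_sq_nonneg _)
    refine sum_congr rfl fun b _ => ?_
    rw [← sum_flip]
    refine sum_congr rfl fun c hc => ?_
    rw [mem_range] at hc
    rw [C_C (by decide), zero_add, zero_add, show n - (n - b - c) - b = c by omega]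
  have h5 : ∀ x y z : Fn s, av ((x + y - z) ^ 2) ≤ 3 * (av (x ^ 2) + av (y ^ 2) + av (z ^ 2)) := by
    intro x y z
    rw [← map_add, ← map_add, ← av_cmul]
    refine av_mono fun ω => ?_
    simp only [Pi.pow_apply, Pi.add_apply, Pi.sub_apply]
    nlinarith [sq_nonneg (x ω - y ω), sq_nonneg (x ω + z ω), sq_nonneg (y ω + z ω)]
  simp only [h.UU_eq hs]
  refine (sum_le_sum fun a _ => (av_sq_P _ _ _).trans (h5 _ _ _)).trans ?_
  rw [← mul_sum, sum_add_distrib, sum_add_distrib]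
  linarith

end Pool.Agent.MP_507a17_nt.H83
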