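import Mathlib

/-! Means and conditional means on finite product spaces, signs on the Boolean cube. -/

open Finset
open scoped BigOperators

namespace Pool.Agent.MP_507a17_nt.H83

section mean
variable {X : Type} [Fintype X]

/-- the uniform mean -/
noncomputable def av : (X → ℝ) →ₗ[ℝ] ℝ where
  toFun f := 𝔼 x, f x
  map_add' _ _ := expect_add_distrib _ _ _
  map_smul' _ _ := (mul_expect _ _ _).symm

theorem av_def (f : X → ℝ) : av f = 𝔼 x, f x := rfl

theorem av_mono {f g : X → ℝ} (h : ∀ x, f x ≤ g x) : av f ≤ av g :=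
  expect_le_expect fun x _ => h x

theorem av_nonneg {f : X → ℝ} (h : ∀ x, 0 ≤ f x) : 0 ≤ av f := expect_nonneg fun x _ => h x

theorem abs_av_le (f : X → ℝ) : |av f| ≤ av |f| := abs_expect_le _ _

theorem av_const [Nonempty X] (c : ℝ) : av (fun _ : X => c) = c := Fintype.expect_const c

theorem av_one [Nonempty X] : av (1 : X → ℝ) = 1 := av_const 1

theorem av_le [Nonempty X] {f : X → ℝ} {c : ℝ} (h : ∀ x, f x ≤ c) : av f ≤ c :=
  (av_mono h).trans_eq (av_const c)

theorem av_cmul (c : ℝ) (f : X → ℝ) : av (fun x => c * f x) = c * av f := av.map_smul c f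

theorem av_add' (f g : X → ℝ) : av (fun x => f x + g x) = av f + av g := av.map_add f g

theorem av_sum' {κ : Type} (t : Finset κ) (f : κ → X → ℝ) :
    av (fun x => ∑ k ∈ t, f k x) = ∑ k ∈ t, av (f k) := expect_sum_comm _ _ _

/-- weighted arithmetic-geometric mean inequality for a mean of products -/
theorem abs_av_mul_le (f g : X → ℝ) {τ : ℝ} (hτ : 0 < τ) :
    |av (f * g)| ≤ (τ * av (f ^ 2) + τ⁻¹ * av (g ^ 2)) / 2 := by
  refine (abs_av_le _).trans ?_
  have h : ∀ x, |f * g| x ≤ ((τ / 2) • f ^ 2 + (τ⁻¹ / 2) • g ^ 2) x := by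
    intro x
    simp only [Pi.abs_apply, Pi.mul_apply, Pi.add_apply, Pi.smul_apply, Pi.pow_apply, smul_eq_mul]
    have h1 : 0 ≤ τ⁻¹ * (τ * |f x| - |g x|) ^ 2 := by positivity
    have h2 : τ⁻¹ * (τ * |f x| - |g x|) ^ 2 =
        τ * |f x| ^ 2 - 2 * (|f x| * |g x|) + τ⁻¹ * |g x| ^ 2 := by field_simp; ring
    rw [h2, sq_abs, sq_abs, ← abs_mul] at h1
    linarith
  refine (av_mono h).trans_eq ?_
  simp only [map_add, map_smul, smul_eq_mul]
  ring

theorem av_abs_le_sq [Nonempty X] (f : X → ℝ) {τ : ℝ} (hτ : 0 < τ) :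
    av |f| ≤ (τ + τ⁻¹ * av (f ^ 2)) / 2 := by
  have h := abs_av_mul_le 1 |f| hτ
  have h2 : |f| ^ 2 = f ^ 2 := funext fun x => sq_abs (f x)
  rw [one_mul, one_pow, av_one, mul_one, h2] at h
  exact (le_abs_self _).trans h

theorem av_abs_add (f g : X → ℝ) : av |f + g| ≤ av |f| + av |g| := by
  rw [← map_add]
  exact av_mono fun x => abs_add_le (f x) (g x)

theorem av_abs_sub (f g : X → ℝ) : av |f - g| ≤ av |f| + av |g| := by
  rw [← map_add]
  exact av_mono fun x => abs_sub (f x) (g x)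

theorem av_abs_sum {κ : Type} (t : Finset κ) (f : κ → X → ℝ) :
    av |∑ k ∈ t, f k| ≤ ∑ k ∈ t, av |f k| := by
  rw [← map_sum]
  refine av_mono fun x => ?_
  simp only [Pi.abs_apply, Finset.sum_apply]
  exact abs_sum_le_sum_abs _ _

end mean

section product
variable {ι α : Type} [Fintype ι] [DecidableEq ι] [Fintype α]

/-- the conditional mean given the coordinates in `A` -/
noncomputable def ce (A : Finset ι) : ((ι → α) → ℝ) →ₗ[ℝ] ((ι → α) → ℝ) where
  toFun f ω := av fun ω' => f (A.piecewise ω ω')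
  map_add' _ _ := funext fun _ => av_add' _ _
  map_smul' _ _ := funext fun _ => av_cmul _ _

theorem ce_apply (A : Finset ι) (f : (ι → α) → ℝ) (ω : ι → α) :
    ce A f ω = av fun ω' => f (A.piecewise ω ω') := rfl

/-- `f` depends only on the coordinates in `A` -/
def Dep (A : Finset ι) (f : (ι → α) → ℝ) : Prop :=
  ∀ ω ω', (∀ i ∈ A, ω i = ω' i) → f ω = f ω'

theorem av_ce [Nonempty α] (A : Finset ι) (f : (ι → α) → ℝ) : av (ce A f) = av f := by
  have hi : Function.Involutive fun x : (ι → α) × (ι → α) =>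
      (A.piecewise x.1 x.2, A.piecewise x.2 x.1) := by
    rintro ⟨a, b⟩
    ext i <;> by_cases h : i ∈ A <;> simp [h]
  have h1 := Fintype.expect_equiv hi.toPerm (fun x => f (A.piecewise x.1 x.2)) (fun x => f x.1)
    fun _ => rfl
  rw [← univ_product_univ, expect_product, expect_product] at h1
  simp only [Fintype.expect_const] at h1
  exact h1

theorem ce_ce [Nonempty α] (A B : Finset ι) (f : (ι → α) → ℝ) :
    ce A (ce B f) = ce (A ∩ B) f := by
  funext ω
  rw [ce_apply (A ∩ B), ← av_ce B, ce_apply]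
  congr 1
  funext ω'
  simp only [ce_apply]
  congr 1
  funext ω''
  congr 1
  funext i
  by_cases h : i ∈ A <;> by_cases h' : i ∈ B <;> simp [h, h']

omit [Fintype ι] [DecidableEq ι] [Fintype α] in
theorem Dep.mono {A B : Finset ι} {f : (ι → α) → ℝ} (h : Dep A f) (hAB : A ⊆ B) : Dep B f :=
  fun ω ω' e => h ω ω' fun i hi => e i (hAB hi)

omit [Fintype ι] [DecidableEq ι] [Fintype α] in
theorem Dep.map₂ {A : Finset ι} {f g : (ι → α) → ℝ} (F : ℝ → ℝ → ℝ) (hf : Dep A f)
    (hg : Dep A g) : Dep A fun ω => F (f ω) (g ω) := fun ω ω' e => by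
  simp only [hf ω ω' e, hg ω ω' e]

omit [Fintype ι] [DecidableEq ι] [Fintype α] in
theorem Dep.map {A : Finset ι} {f : (ι → α) → ℝ} (F : ℝ → ℝ) (hf : Dep A f) :
    Dep A fun ω => F (f ω) := fun ω ω' e => by simp only [hf ω ω' e]

omit [Fintype ι] [DecidableEq ι] [Fintype α] in
theorem Dep.mul {A : Finset ι} {f g : (ι → α) → ℝ} (hf : Dep A f) (hg : Dep A g) :
    Dep A (f * g) := hf.map₂ (· * ·) hg

omit [Fintype ι] [DecidableEq ι] [Fintype α] in
theorem Dep.add {A : Finset ι} {f g : (ι → α) → ℝ} (hf : Dep A f) (hg : Dep A g) :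
    Dep A (f + g) := hf.map₂ (· + ·) hg

omit [Fintype ι] [DecidableEq ι] [Fintype α] in
theorem Dep.sub {A : Finset ι} {f g : (ι → α) → ℝ} (hf : Dep A f) (hg : Dep A g) :
    Dep A (f - g) := hf.map₂ (· - ·) hg

omit [Fintype ι] [DecidableEq ι] [Fintype α] in
theorem Dep.smul {A : Finset ι} {f : (ι → α) → ℝ} (c : ℝ) (hf : Dep A f) : Dep A (c • f) :=
  hf.map (c * ·)

omit [Fintype ι] [DecidableEq ι] [Fintype α] in
theorem dep_const (A : Finset ι) (c : ℝ) : Dep A fun _ : ι → α => c := fun _ _ _ => rfl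

omit [Fintype ι] [DecidableEq ι] [Fintype α] in
theorem Dep.sum {A : Finset ι} {κ : Type} {t : Finset κ} {f : κ → (ι → α) → ℝ}
    (h : ∀ k ∈ t, Dep A (f k)) : Dep A (∑ k ∈ t, f k) := fun ω ω' e => by
  simp only [Finset.sum_apply]
  exact sum_congr rfl fun k hk => h k hk ω ω' e

theorem Dep.ce {A B : Finset ι} {f : (ι → α) → ℝ} (h : Dep B f) : Dep (A ∩ B) (ce A f) := by
  intro ω ω' e
  simp only [ce_apply]
  congr 1
  funext η
  refine h _ _ fun i hi => ?_
  by_cases h' : i ∈ A
  · simp [h', e i (mem_inter.2 ⟨h', hi⟩)]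
  · simp [h']

theorem dep_ce (A : Finset ι) (f : (ι → α) → ℝ) : Dep A (ce A f) :=
  (Dep.ce (B := univ) fun ω ω' e => by rw [funext fun i => e i (mem_univ i)]).mono
    inter_subset_left

theorem Dep.ce_mul {A : Finset ι} {g : (ι → α) → ℝ} (h : Dep A g) (f : (ι → α) → ℝ) :
    H83.ce A (g * f) = g * H83.ce A f := by
  funext ω
  simp only [ce_apply, Pi.mul_apply]
  rw [← av_cmul]
  congr 1
  funext η
  rw [h _ ω fun i hi => by simp [hi]]

theorem ce_one [Nonempty α] (A : Finset ι) : ce A (1 : (ι → α) → ℝ) = 1 :=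
  funext fun _ => av_const 1

theorem Dep.ce_eq [Nonempty α] {A : Finset ι} {g : (ι → α) → ℝ} (h : Dep A g) :
    H83.ce A g = g := by
  simpa [ce_one] using h.ce_mul 1

theorem av_ce_mul [Nonempty α] (A : Finset ι) (f g : (ι → α) → ℝ) :
    av (ce A f * g) = av (f * ce A g) := by
  rw [← av_ce A (ce A f * g), (dep_ce A f).ce_mul, ← av_ce A (f * ce A g), mul_comm f,
    (dep_ce A g).ce_mul, mul_comm]

theorem ce_nonneg (A : Finset ι) {f : (ι → α) → ℝ} (h : ∀ ω, 0 ≤ f ω) (ω : ι → α) :
    0 ≤ ce A f ω := av_nonneg fun _ => h _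

theorem ce_le [Nonempty α] (A : Finset ι) {f : (ι → α) → ℝ} {B : ℝ} (h : ∀ ω, f ω ≤ B)
    (ω : ι → α) : ce A f ω ≤ B := av_le fun _ => h _

theorem abs_ce_le [Nonempty α] (A : Finset ι) {f : (ι → α) → ℝ} {B : ℝ} (h : ∀ ω, |f ω| ≤ B)
    (ω : ι → α) : |ce A f ω| ≤ B := (abs_av_le _).trans (av_le fun _ => h _)

theorem av_abs_ce [Nonempty α] (A : Finset ι) (f : (ι → α) → ℝ) : av |ce A f| ≤ av |f| := by
  rw [← av_ce A |f|]
  exact av_mono fun _ => abs_av_le _

theorem av_sq_split [Nonempty α] (A : Finset ι) (f : (ι → α) → ℝ) :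
    av (f ^ 2) = av (ce A f ^ 2) + av ((f - ce A f) ^ 2) := by
  have h : av (ce A f * f) = av (ce A f ^ 2) := by
    rw [← av_ce A (ce A f * f), (dep_ce A f).ce_mul, sq]
  rw [show (f - ce A f) ^ 2 = f ^ 2 - (2 : ℝ) • (ce A f * f) + ce A f ^ 2 by
    rw [two_smul]; ring, map_add, map_sub, map_smul, h, smul_eq_mul]
  ring

theorem av_sq_ce [Nonempty α] (A : Finset ι) (f : (ι → α) → ℝ) : av (ce A f ^ 2) ≤ av (f ^ 2) := by
  rw [av_sq_split A f]
  exact le_add_of_nonneg_right (av_nonneg fun ω => sq_nonneg ((f - ce A f) ω))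

theorem av_sq_sub_ce [Nonempty α] (A : Finset ι) (f : (ι → α) → ℝ) :
    av ((f - ce A f) ^ 2) ≤ av (f ^ 2) := by
  rw [av_sq_split A f]
  exact le_add_of_nonneg_left (av_nonneg fun ω => sq_nonneg (ce A f ω))

theorem av_coord [Nonempty α] (p : ι) (f : α → ℝ) : av (fun P : ι → α => f (P p)) = av f := by
  have h1 := Fintype.expect_equiv (Equiv.funSplitAt p α) (fun P => f (P p)) (fun x => f x.1)
    fun _ => rfl
  rw [← univ_product_univ, expect_product] at h1
  simp only [Fintype.expect_const] at h1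
  exact h1

theorem av_coord₂ [Nonempty α] {p q : ι} (h : p ≠ q) (f : α → α → ℝ) :
    av (fun P : ι → α => f (P p) (P q)) = av fun x => av (f x) := by
  rw [← av_ce {p}, ← av_coord p fun x => av (f x)]
  congr 1
  funext P
  rw [ce_apply, ← av_coord q (f (P p))]
  simp [h.symm]

end product

section cube
variable {ι : Type} [Fintype ι] [DecidableEq ι]

/-- the sign of a bit -/
def sg (i : ι) : (ι → Bool) → ℝ := fun ω => if ω i then 1 else -1

omit [Fintype ι] [DecidableEq ι] in
theorem sg_mul (i : ι) : sg i * sg i = 1 := by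
  funext ω
  by_cases h : ω i <;> simp [sg, h]

omit [Fintype ι] [DecidableEq ι] in
theorem dep_sg {A : Finset ι} {i : ι} (h : i ∈ A) : Dep A (sg i) := fun ω ω' e => by
  simp only [sg, e i h]

theorem av_sg_mul {A : Finset ι} {i : ι} (h : i ∉ A) {f : (ι → Bool) → ℝ} (hf : Dep A f) :
    av (sg i * f) = 0 := by
  have hi : Function.Involutive fun ω : ι → Bool => Function.update ω i (!ω i) := by
    intro ω
    simp
  have h1 := Fintype.expect_equiv hi.toPerm (sg i * f) (-(sg i * f)) fun ω => by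
    have h2 : f (Function.update ω i (!ω i)) = f ω :=
      hf _ _ fun j hj => Function.update_of_ne (by rintro rfl; exact h hj) _ _
    change sg i ω * f ω = -(sg i (Function.update ω i (!ω i)) * f (Function.update ω i (!ω i)))
    rw [h2]
    by_cases h3 : ω i <;> simp [sg, h3]
  have h2 : av (sg i * f) = av (-(sg i * f)) := h1
  rw [map_neg] at h2
  linarith

theorem ce_sg {A : Finset ι} {i : ι} (h : i ∉ A) : ce A (sg i) = 0 := by
  funext ω
  have h1 := av_sg_mul h (dep_const A (1 : ℝ))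
  rw [ce_apply, Pi.zero_apply, ← h1]
  congr 1
  funext η
  simp [sg, h]

theorem ce_insert {A : Finset ι} {i : ι} (h : i ∉ A) (f : (ι → Bool) → ℝ) :
    ce (insert i A) f = ce A f + sg i * ce A (sg i * f) := by
  have hA : A ∩ insert i A = A := inter_eq_left.2 (subset_insert _ _)
  have h1 : ce A f = ce A (ce (insert i A) f) := by rw [ce_ce, hA]
  have h2 : ce A (sg i * f) = ce A (sg i * ce (insert i A) f) := by
    rw [← (dep_sg (mem_insert_self i A)).ce_mul, ce_ce, hA]
  rw [h1, h2]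
  have hg := dep_ce (insert i A) f
  generalize ce (insert i A) f = g at hg
  have hu : ∀ b, Dep A fun ω => g (Function.update ω i b) := fun b ω ω' e =>
    hg _ _ fun j hj => by
      rcases eq_or_ne j i with rfl | hji
      · simp
      · simp [hji, e j ((mem_insert.1 hj).resolve_left hji)]
  have h0 := (hu true).map₂ (fun x y => (x + y) / 2) (hu false)
  have h3 := (hu true).map₂ (fun x y => (x - y) / 2) (hu false)
  set g0 := fun ω => (g (Function.update ω i true) + g (Function.update ω i false)) / 2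
  set g1 := fun ω => (g (Function.update ω i true) - g (Function.update ω i false)) / 2
  have h4 : g = g0 + g1 * sg i := by
    funext ω
    have h5 : g ω = g (Function.update ω i (ω i)) := by simp
    simp only [Pi.add_apply, Pi.mul_apply, g0, g1, sg]
    rw [h5]
    cases ω i <;> simp <;> ring
  have h5 : sg i * g = g0 * sg i + g1 := by
    rw [h4]
    linear_combination g1 * sg_mul i
  rw [h5]
  conv_rhs => rw [h4]
  rw [map_add, map_add, h0.ce_eq, h3.ce_eq, h0.ce_mul, h3.ce_mul, ce_sg h, h4]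
  ring

/-- the indicator of agreeing with `z` on `B` -/
def ag (B : Finset ι) (z : ι → Bool) : (ι → Bool) → ℝ :=
  fun ω => if ∀ i ∈ B, ω i = z i then 1 else 0

theorem dep_ag (B : Finset ι) (z : ι → Bool) : Dep B (ag B z) := fun ω ω' e => by
  unfold ag
  exact if_congr (forall₂_congr fun i hi => by rw [e i hi]) rfl rfl

theorem av_ag (B : Finset ι) (z : ι → Bool) : av (ag B z) = (1 / 2) ^ B.card := by
  induction B using Finset.induction_on with
  | empty =>
    rw [show ag ∅ z = 1 from funext fun ω => by simp [ag], av_one]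
    simp
  | insert i B h ih =>
    have h1 : ag (insert i B) z = (1 / 2 : ℝ) • ag B z + (sg i z / 2) • (sg i * ag B z) := by
      funext ω
      simp only [ag, sg, forall_mem_insert, Pi.add_apply, Pi.smul_apply, Pi.mul_apply, smul_eq_mul]
      by_cases h2 : ∀ j ∈ B, ω j = z j
      · simp only [if_pos h2, and_iff_left h2]
        cases ω i <;> cases z i <;> norm_num
      · simp [h2]
    rw [h1, map_add, map_smul, map_smul, av_sg_mul h (dep_ag B z), ih, card_insert_of_notMem h]
    simp [pow_succ, mul_comm]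

end cube

end Pool.Agent.MP_507a17_nt.H83
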