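import Pool.Agent.MP_507a17_nt.H83.Gain

/-! The discrepancy function of a weighted point set and its Haar coefficients. -/

open Finset

namespace Pool.Agent.MP_507a17_nt.H83

variable {s : ℕ}

/-- word number `i`, in the lexicographic order -/
def wd (i : Fin 3) (ω : Om s) : Lex (Fin s → Bool) := toLex fun k => ω (i, k)

/-- the rank in a finite linear order -/
def rank {X : Type} [Fintype X] [LinearOrder X] (x : X) : ℕ := (univ.filter fun y => y < x).card

theorem rank_lt_card {X : Type} [Fintype X] [LinearOrder X] (x : X) : rank x < Fintype.card X :=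
  card_lt_univ_of_notMem (x := x) (by simp)

theorem rank_strictMono {X : Type} [Fintype X] [LinearOrder X] : StrictMono (rank (X := X)) := by
  intro x y hxy
  refine card_lt_card ⟨fun z hz => ?_, fun h => ?_⟩
  · simp only [mem_filter, mem_univ, true_and] at hz ⊢
    exact hz.trans hxy
  · simpa using h (x := x) (by simpa using hxy)

/-- the rank of a word -/
noncomputable def rk (i : Fin 3) (ω : Om s) : ℕ := rank (wd i ω)

theorem rk_lt_pow (i : Fin 3) (ω : Om s) : rk i ω < 2 ^ s :=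
  (rank_lt_card _).trans_eq (by simp)

theorem rk_lt_iff {i : Fin 3} {p ω : Om s} : rk i p < rk i ω ↔
    ∃ k : Fin s, (∀ j < k, p (i, j) = ω (i, j)) ∧ p (i, k) < ω (i, k) :=
  rank_strictMono.lt_iff_lt.trans Iff.rfl

/-- the indicator of lying above `p` in word `i` -/
noncomputable def G (i : Fin 3) (p : Om s) : Fn s := fun ω => if rk i p < rk i ω then 1 else 0

/-- the bits of word `i` -/
def O (s : ℕ) (i : Fin 3) : Finset (Fin 3 × Fin s) := univ.filter fun x => x.1 = i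

theorem Dep.M {i j : Fin 3} {f : Fn s} (h : Dep (O s i) f) (hij : i ≠ j) (k : ℕ) : M j k f :=
  h.mono fun _ hx => mem_L.2 (Or.inl ((mem_filter.1 hx).2 ▸ hij))

theorem dep_G (i : Fin 3) (p : Om s) : Dep (O s i) (G i p) := fun ω ω' e => by
  have : rk i ω = rk i ω' := congrArg (fun x => rank (toLex x)) (funext fun k => e _ (by simp [O]))
  simp only [G, this]

theorem dep_r (i : Fin 3) (k : ℕ) : Dep (O s i) (r i k) := by
  unfold r
  split_ifs
  · exact dep_sg (by simp [O])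
  · exact dep_const _ 0

theorem factor {T : Fin 3 → ℕ → Fn s →ₗ[ℝ] Fn s}
    (h1 : ∀ i k g f, M i k g → T i k (g * f) = g * T i k f)
    (h2 : ∀ i k f, Dep (O s i) f → Dep (O s i) (T i k f)) (a b c : ℕ) (p : Om s) :
    T 0 a (T 1 b (T 2 c (G 0 p * G 1 p * G 2 p))) =
      T 0 a (G 0 p) * T 1 b (G 1 p) * T 2 c (G 2 p) := by
  have d1 := h2 1 b _ (dep_G 1 p)
  have d2 := h2 2 c _ (dep_G 2 p)
  rw [h1 2 c _ _ (((dep_G 0 p).M (by decide) c).mul ((dep_G 1 p).M (by decide) c)),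
    mul_right_comm, h1 1 b _ _ (((dep_G 0 p).M (by decide) b).mul (d2.M (by decide) b)),
    mul_assoc, mul_comm (G 0 p), h1 0 a _ _ ((d2.M (by decide) a).mul (d1.M (by decide) a))]
  ring

theorem factor_Q (a b c : ℕ) (p : Om s) : Q 0 a (Q 1 b (Q 2 c (G 0 p * G 1 p * G 2 p))) =
    Q 0 a (G 0 p) * Q 1 b (G 1 p) * Q 2 c (G 2 p) :=
  factor (fun i k g f h => by rw [Q_def, Q_def, h.P_mul, mul_sub])
    (fun i k f h => h.sub (h.ce.mono inter_subset_right)) a b c p

theorem dep_C {i : Fin 3} (k : ℕ) {f : Fn s} (h : Dep (O s i) f) :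
    Dep (L s i k ∩ O s i) (C i k f) := ((dep_r i k).mul h).ce

theorem factor_C (a b c : ℕ) (p : Om s) : be (G 0 p * G 1 p * G 2 p) a b c =
    C 0 a (G 0 p) * C 1 b (G 1 p) * C 2 c (G 2 p) :=
  factor (fun _ _ _ f h => h.C_mul f) (fun _ k _ h => (dep_C k h).mono inter_subset_right) a b c p

theorem G_loc {i : Fin 3} {k : ℕ} {p ω ω' : Om s} (h : ¬∀ x ∈ L s i k ∩ O s i, ω x = p x)
    (e : ∀ x ∈ L s i k, ω' x = ω x) : G i p ω' = G i p ω := by
  have key : ∀ ω ω' : Om s, (¬∀ x ∈ L s i k ∩ O s i, ω x = p x) → (∀ x ∈ L s i k, ω' x = ω x) →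
      rk i p < rk i ω → rk i p < rk i ω' := by
    intro ω ω' h e
    simp only [rk_lt_iff]
    rintro ⟨k0, h1, h2⟩
    have hk : (k0 : ℕ) < k := by
      by_contra hk
      refine h fun x hx => ?_
      obtain ⟨x1, x2⟩ := x
      simp only [mem_inter, mem_L, O, mem_filter, mem_univ, true_and] at hx
      obtain ⟨hx, rfl⟩ := hx
      exact (h1 x2 (Fin.lt_def.2 (by simp at hx; omega))).symm
    refine ⟨k0, fun j hj => ?_, ?_⟩
    · rw [h1 j hj, e _ (mem_L.2 (Or.inr ((Fin.lt_def.1 hj).trans hk)))]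
    · rwa [e _ (mem_L.2 (Or.inr hk))]
  refine if_congr ⟨key ω' ω (fun h' => h fun x hx => ?_) fun x hx => (e x hx).symm,
    key ω ω' h e⟩ rfl rfl
  rw [← e x (mem_inter.1 hx).1, h' x hx]

theorem G_mem (i : Fin 3) (p ω : Om s) : 0 ≤ G i p ω ∧ G i p ω ≤ 1 := by
  unfold G
  split_ifs <;> norm_num

theorem abs_QG (i : Fin 3) (k : ℕ) (p ω : Om s) :
    |Q i k (G i p) ω| ≤ ag (L s i k ∩ O s i) p ω := by
  unfold ag
  split_ifs with h
  · have h1 : 0 ≤ P i k (G i p) ω := ce_nonneg _ (fun ω => (G_mem i p ω).1) ω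
    have h2 : P i k (G i p) ω ≤ 1 := ce_le _ (fun ω => (G_mem i p ω).2) ω
    rw [Q_def, Pi.sub_apply, abs_le]
    constructor <;> linarith [(G_mem i p ω).1, (G_mem i p ω).2]
  · have h1 : P i k (G i p) ω = G i p ω := by
      rw [← av_const (X := Om s) (G i p ω)]
      exact congrArg av (funext fun η => G_loc h fun x hx => by simp [hx])
    rw [Q_def, Pi.sub_apply, h1, sub_self, abs_zero]

theorem CG_eq (i : Fin 3) (k : ℕ) (p ω : Om s) :
    C i k (G i p) ω = ag (L s i k ∩ O s i) p ω * C i k (G i p) p := by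
  by_cases h : ∀ x ∈ L s i k ∩ O s i, ω x = p x
  · rw [ag, if_pos h, one_mul, dep_C k (dep_G i p) ω p h]
  · have h1 : Q i k (G i p) = ag (L s i k ∩ O s i) p * Q i k (G i p) := by
      funext η
      have h2 := abs_QG i k p η
      rw [Pi.mul_apply]
      unfold ag at h2 ⊢
      split_ifs at h2 ⊢
      · rw [one_mul]
      · rw [zero_mul, abs_nonpos_iff.1 h2]
    rw [← C_Q, h1, M.C_mul ((dep_ag _ p).mono inter_subset_left), Pi.mul_apply, ag, if_neg h,
      zero_mul, zero_mul]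

theorem abs_CG (i : Fin 3) (k : ℕ) (p ω : Om s) : |C i k (G i p) ω| ≤ 1 :=
  abs_C_le i k (fun ω => abs_le.2 ⟨by linarith [(G_mem i p ω).1], (G_mem i p ω).2⟩) ω

theorem CG_ge {i : Fin 3} {k : ℕ} (hk : k + 1 < s) {p : Om s}
    (h0 : p (i, ⟨k, by omega⟩) = false) (h1 : p (i, ⟨k + 1, hk⟩) = true) :
    1 / 4 ≤ C i k (G i p) p := by
  have h2 : P i k ((1 / 4 : ℝ) • 1 + (3 / 4 : ℝ) • (r i k * 1) +
      r i (k + 1) * ((1 / 4 : ℝ) • (r i k - 1)) : Fn s) = (1 / 4 : ℝ) • 1 := by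
    rw [map_add, map_add, map_smul, map_smul, ← C_def, C_one, ← P_P_le k.le_succ (_ * _), ← C_def,
      M.C_eq (g := (1 / 4 : ℝ) • (r i k - 1))
        (((M_r (Or.inr k.lt_succ_self)).sub (dep_const _ 1)).smul _),
      show P i k (1 : Fn s) = 1 from ce_one _]
    simp
  have h3 := congrFun h2 p
  simp only [Pi.smul_apply, Pi.one_apply, smul_eq_mul, mul_one] at h3
  rw [← h3]
  refine av_mono fun η => ?_
  have h4 : ∀ j : Fin s, (j : ℕ) < k → (L s i k).piecewise p η (i, j) = p (i, j) := fun j hj =>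
    piecewise_eq_of_mem _ _ _ (mem_L.2 (Or.inr hj))
  generalize (L s i k).piecewise p η = ω at h4
  simp only [LinearMap.mulLeft_apply, Pi.add_apply, Pi.smul_apply, Pi.mul_apply, Pi.sub_apply,
    Pi.one_apply, smul_eq_mul, r, dif_pos hk, dif_pos (by omega : k < s), sg]
  cases h5 : ω (i, ⟨k, by omega⟩)
  · cases h6 : ω (i, ⟨k + 1, hk⟩)
    · have h7 : rk i ω < rk i p := rk_lt_iff.2 ⟨⟨k + 1, hk⟩, fun j hj => by
        rcases (Nat.lt_succ_iff.1 (Fin.lt_def.1 hj)).eq_or_lt with h | h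
        · rw [show j = ⟨k, by omega⟩ from Fin.ext h, h5, h0]
        · exact h4 j h, by rw [h6, h1]; decide⟩
      rw [G, if_neg h7.le.not_gt]
      norm_num
    · have := (G_mem i p ω).2
      norm_num
      linarith
  · have h7 : rk i p < rk i ω := rk_lt_iff.2 ⟨⟨k, by omega⟩, fun j hj => (h4 j hj).symm,
      by rw [h5, h0]; decide⟩
    rw [G, if_pos h7]
    norm_num

/-- the bits that determine a dyadic box -/
def Bx (s : ℕ) (v : Fin 3 → ℕ) : Finset (Fin 3 × Fin s) := univ.filter fun x => (x.2 : ℕ) < v x.1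

theorem card_Bx {v : Fin 3 → ℕ} (h : ∀ i, v i ≤ s) : (Bx s v).card = v 0 + v 1 + v 2 := by
  rw [Bx, card_filter, Fintype.sum_prod_type, ← Fin.sum_univ_three]
  refine sum_congr rfl fun i _ => ?_
  rw [← card_filter]
  exact Fin.card_filter_val_lt.trans (min_eq_right (h i))

theorem ag_mul {ι : Type} [Fintype ι] [DecidableEq ι] (A B : Finset ι) (z ω : ι → Bool) :
    ag A z ω * ag B z ω = ag (A ∪ B) z ω := by
  simp only [ag, forall_mem_union]
  by_cases h : ∀ i ∈ A, ω i = z i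
  · simp only [if_pos h, one_mul, and_iff_right h]
  · rw [if_neg h, if_neg fun h' : _ ∧ _ => h h'.1, zero_mul]

theorem ag_three (a b c : ℕ) (p ω : Om s) : ag (L s 0 a ∩ O s 0) p ω * ag (L s 1 b ∩ O s 1) p ω *
    ag (L s 2 c ∩ O s 2) p ω = ag (Bx s ![a, b, c]) p ω := by
  rw [ag_mul, ag_mul]
  congr 1
  ext ⟨i, k⟩
  fin_cases i <;> simp [mem_L, O, Bx]

/-- the tent weight of a point in its box -/
noncomputable def ta (a b c : ℕ) (p : Om s) : ℝ :=
  C 0 a (G 0 p) p * C 1 b (G 1 p) p * C 2 c (G 2 p) p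

theorem abs_ta (a b c : ℕ) (p : Om s) : |ta a b c p| ≤ 1 := by
  rw [ta, abs_mul, abs_mul]
  exact mul_le_one₀ (mul_le_one₀ (abs_CG _ _ _ _) (abs_nonneg _) (abs_CG _ _ _ _)) (abs_nonneg _)
    (abs_CG _ _ _ _)

theorem av_ta {a b c : ℕ} (ha : a + 1 < s) (hb : b + 1 < s) (hc : c + 1 < s) :
    (1 / 2) ^ 18 ≤ av fun p : Om s => ta a b c p ^ 2 := by
  have h1 : (Bx s ![a + 2, b + 2, c + 2] \ Bx s ![a, b, c]).card = 6 := by
    rw [card_sdiff_of_subset, card_Bx, card_Bx]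
    · simp
      omega
    · intro i
      fin_cases i <;> simp <;> omega
    · intro i
      fin_cases i <;> simp <;> omega
    · rintro ⟨i, k⟩
      fin_cases i <;> simp [Bx] <;> omega
  have h2 := av_ag (Bx s ![a + 2, b + 2, c + 2] \ Bx s ![a, b, c])
    fun x => decide ((x.2 : ℕ) = ![a, b, c] x.1 + 1)
  rw [h1] at h2
  rw [show ((1 / 2) ^ 18 : ℝ) = (1 / 64) ^ 2 * (1 / 2) ^ 6 by norm_num, ← h2, ← av_cmul]
  refine av_mono fun p => ?_
  unfold ag
  split_ifs with h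
  · have h0 := CG_ge (i := 0) ha (p := p) (by simpa using h (0, ⟨a, by omega⟩) (by simp [Bx]))
      (by simpa using h (0, ⟨a + 1, ha⟩) (by simp [Bx]))
    have h1 := CG_ge (i := 1) hb (p := p) (by simpa using h (1, ⟨b, by omega⟩) (by simp [Bx]))
      (by simpa using h (1, ⟨b + 1, hb⟩) (by simp [Bx]))
    have h2 := CG_ge (i := 2) hc (p := p) (by simpa using h (2, ⟨c, by omega⟩) (by simp [Bx]))
      (by simpa using h (2, ⟨c + 1, hc⟩) (by simp [Bx]))
    rw [mul_one]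
    refine pow_le_pow_left₀ (by norm_num) ?_ 2
    rw [ta, show (1 / 64 : ℝ) = 1 / 4 * (1 / 4) * (1 / 4) by norm_num]
    gcongr
  · rw [mul_zero]
    exact sq_nonneg _

variable {J : Type} [Fintype J]

/-- the discrepancy function -/
noncomputable def DD (ζ : J → ℝ) (X : J → Om s) : Fn s :=
  ∑ p, ζ p • (G 0 (X p) * G 1 (X p) * G 2 (X p))

theorem be_DD (ζ : J → ℝ) (X : J → Om s) (a b c : ℕ) (ω : Om s) :
    be (DD ζ X) a b c ω = ∑ p, ag (Bx s ![a, b, c]) (X p) ω * ta a b c (X p) * ζ p := by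
  have h := fun p => factor_C a b c (X p)
  simp only [be] at h
  simp only [be, DD, map_sum, map_smul, h, Finset.sum_apply, Pi.smul_apply, Pi.mul_apply,
    smul_eq_mul]
  refine sum_congr rfl fun p _ => ?_
  rw [CG_eq 0, CG_eq 1, CG_eq 2, ← ag_three, ta]
  ring

theorem av_QQQ (ζ : J → ℝ) (X : J → Om s) (a b c : ℕ) :
    av |Q 0 a (Q 1 b (Q 2 c (DD ζ X)))| ≤ (∑ p, |ζ p|) * (1 / 2) ^ (a + b + c) := by
  simp only [DD, map_sum, map_smul, factor_Q]
  rw [sum_mul]
  refine (av_abs_sum _ _).trans (sum_le_sum fun p _ => ?_)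
  rw [show ∀ (c : ℝ) (f : Fn s), |c • f| = |c| • |f| from fun c f =>
      funext fun ω => abs_mul c (f ω), map_smul, smul_eq_mul]
  refine mul_le_mul_of_nonneg_left ?_ (abs_nonneg _)
  have hz : ∀ i k, s ≤ k → Q i k (G i (X p)) = 0 := fun i k h => by rw [Q_def, P_top h, sub_self]
  by_cases h : a ≤ s ∧ b ≤ s ∧ c ≤ s
  · have h1 := card_Bx (s := s) (v := ![a, b, c]) fun i => by fin_cases i <;> simp [h]
    refine (av_mono (g := ag (Bx s ![a, b, c]) (X p)) fun ω => ?_).trans_eq ?_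
    · rw [← ag_three]
      simp only [Pi.abs_apply, Pi.mul_apply, abs_mul]
      have := fun i k => (abs_nonneg _).trans (abs_QG i k (X p) ω)
      gcongr <;> first | exact abs_QG _ _ _ _ | exact mul_nonneg (this _ _) (this _ _) | exact this _ _
    · rw [av_ag, h1]
      simp
  · have h1 : Q 0 a (G 0 (X p)) * Q 1 b (G 1 (X p)) * Q 2 c (G 2 (X p)) = 0 := by
      rcases (by omega : s ≤ a ∨ s ≤ b ∨ s ≤ c) with h | h | h <;> simp [hz _ _ h]
    rw [h1, abs_zero, map_zero]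
    positivity

end Pool.Agent.MP_507a17_nt.H83
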