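import Pool.Agent.MP_507a17_nt.H83.Riesz

/-! A function of three words with many large Haar coefficients has a large maximum. -/

open Finset

namespace Pool.Agent.MP_507a17_nt.H83

variable {s n : ℕ} {σ : ℕ → ℕ → ℕ → Fn s}

theorem Sg.bad (h : Sg σ) (hs : n < s) {u A l τ : ℝ} (hu : (n + 1 : ℝ) = u ^ 4) (hu1 : 1 ≤ u)
    (hA : 0 < A) (hl : 0 < l) (hτ : 0 < τ) {R W : ℝ} (hR : R = Real.exp l)
    (hW : W = 6 + 30 * (2 * R) ^ 4 + 3 * (2 * R) ^ 2) (huW : W + 1 ≤ u) {m : ℕ}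
    (hm : m ≤ n + 1) {Ψ : ℕ → Fn s} (hΨ : Ψ = Ps (fun a => (A / u ^ 4) • gg σ n a) R) :
    av |Ψ m - 1 - (A / u ^ 4) • ∑ a ∈ range m, r 0 a * VV σ n a (Ψ a)| ≤
      (τ * ((2 * A ^ 2 + 1) / l) + τ⁻¹ * (2 * A ^ 2)) / 2 +
        (3 * R * A ^ 4 + A * (1 + W)) / u := by
  have hu0 : 0 < u := by linarith
  have hR1 : 1 ≤ R := hR ▸ Real.one_le_exp hl.le
  have hW0 : 0 ≤ W := by rw [hW]; positivity
  have hg : ∀ a, M 0 a ((A / u ^ 4) • gg σ n a) := fun a => (h.M_gg n a).smul _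
  have hb : ∀ a ω, 0 ≤ Ψ a ω ∧ Ψ a ω ≤ 2 * R := fun a ω => hΨ ▸ Ps_bound hR1 a ω
  have hM : ∀ a, M 0 a (Ψ a) := fun a => hΨ ▸ M_Ps hg a
  have hsub : range m ⊆ range (n + 1) := range_subset_range.2 hm
  have hmu : (m : ℝ) ≤ u ^ 4 := hu ▸ by exact_mod_cast hm
  have hU : ∑ a ∈ range m, av (UU σ n a (Ψ a) ^ 2) ≤ W * u ^ 6 := by
    have h1 := h.U_bound hs (Ψ := Ψ (n + 1)) (B := 2 * R) (τ := u ^ 6)
      (fun ω => abs_le.2 ⟨by linarith [(hb (n + 1) ω).1], (hb _ ω).2⟩) (by positivity)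
    rw [sum_congr rfl fun a ha => by
      rw [show P 0 a (Ψ (n + 1)) = Ψ a from hΨ ▸ P_Ps hg (mem_range.1 ha).le], hu] at h1
    refine (sum_le_sum_of_subset_of_nonneg hsub fun _ _ _ => av_sq_nonneg _).trans (h1.trans ?_)
    have h2 : (u ^ 6)⁻¹ * (u ^ 4) ^ 3 = u ^ 6 := by field_simp
    have h3 : u ^ 4 * (2 * R) ^ 2 ≤ u ^ 6 * (2 * R) ^ 2 := by gcongr; norm_num
    rw [h2, hW]
    linarith
  have hΓ : ∑ a ∈ range m, av (Ψ a * ((A / u ^ 4) • gg σ n a) ^ 2) ≤ 2 * A ^ 2 := by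
    have h1 : ∀ a ∈ range m, av (Ψ a * ((A / u ^ 4) • gg σ n a) ^ 2) ≤ (A / u ^ 4) ^ 2 *
        (u ^ 4 + (u * av (UU σ n a (Ψ a) ^ 2) + u⁻¹ * u ^ 4) / 2) := by
      intro a _
      rw [smul_pow, mul_smul_comm, map_smul, smul_eq_mul,
        show Ψ a * gg σ n a ^ 2 = VV σ n a (Ψ a) * gg σ n a + UU σ n a (Ψ a) * gg σ n a by
          rw [UU]; ring, map_add, h.av_VV_gg hs, show av (Ψ a) = 1 from hΨ ▸ av_Ps hg a]
      refine mul_le_mul_of_nonneg_left (add_le_add ?_ ((le_abs_self _).trans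
        ((abs_av_mul_le _ _ hu0).trans ?_))) (sq_nonneg _)
      · rw [mul_one, ← hu]
        exact_mod_cast (by omega : n - a + 1 ≤ n + 1)
      · have := hu ▸ (h.moments n a).1
        gcongr
    refine (sum_le_sum h1).trans ?_
    simp only [← mul_sum, sum_add_distrib, ← sum_div, sum_const, card_range, nsmul_eq_mul]
    calc _ ≤ (A / u ^ 4) ^ 2 * (u ^ 4 * u ^ 4 + (u * (W * u ^ 6) + u⁻¹ * (u ^ 4 * u ^ 4)) / 2) := by
          gcongr
      _ = A ^ 2 * (1 + (W + 1) / u / 2) := by field_simp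
      _ ≤ _ := by
          have := (div_le_one hu0).2 huW
          nlinarith [sq_nonneg A]
  have h4 : R * ∑ a ∈ range m, av (((A / u ^ 4) • gg σ n a) ^ 4) ≤ 3 * R * A ^ 4 / u := by
    have h1 : ∀ a ∈ range m, av (((A / u ^ 4) • gg σ n a) ^ 4) ≤
        (A / u ^ 4) ^ 4 * (3 * (u ^ 4) ^ 2) := by
      intro a _
      rw [smul_pow, map_smul, smul_eq_mul]
      exact mul_le_mul_of_nonneg_left (hu ▸ (h.moments n a).2) (by positivity)
    calc _ ≤ R * (u ^ 4 * ((A / u ^ 4) ^ 4 * (3 * (u ^ 4) ^ 2))) := by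
          refine mul_le_mul_of_nonneg_left ((sum_le_sum h1).trans ?_) (by linarith)
          rw [sum_const, card_range, nsmul_eq_mul]
          gcongr
      _ = 3 * R * A ^ 4 / u ^ 4 := by field_simp
      _ ≤ _ := div_le_div_of_nonneg_left (by positivity) hu0 (le_self_pow₀ hu1 four_ne_zero)
  have h5 : av |(A / u ^ 4) • ∑ a ∈ range m, r 0 a * UU σ n a (Ψ a)| ≤ A * (1 + W) / u := by
    have h1 := (av_abs_le_sq (∑ a ∈ range m, r 0 a * UU σ n a (Ψ a))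
      (by positivity : 0 < u ^ 3))
    have h2 := (orth fun a (_ : a < m) => h.M_UU n (hM a)).trans hU
    have h3 : ∀ (c : ℝ) (f : Fn s), |c • f| = |c| • |f| := fun c f =>
      funext fun ω => abs_mul c (f ω)
    rw [h3, map_smul, smul_eq_mul, abs_of_pos (by positivity)]
    calc _ ≤ A / u ^ 4 * ((u ^ 3 + (u ^ 3)⁻¹ * (W * u ^ 6)) / 2) := by
          refine mul_le_mul_of_nonneg_left (h1.trans ?_) (by positivity)
          gcongr
      _ = A * (1 + W) / u / 2 := by field_simp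
      _ ≤ _ := half_le_self (by positivity)
  have h6 := stop_error hg hl hR hτ (hΨ ▸ hΓ)
  rw [← hΨ] at h6
  have h7 : Ψ m - 1 - (A / u ^ 4) • ∑ a ∈ range m, r 0 a * VV σ n a (Ψ a) =
      (Ψ m - 1 - ∑ a ∈ range m, r 0 a * (Ψ a * (A / u ^ 4) • gg σ n a)) +
        (A / u ^ 4) • ∑ a ∈ range m, r 0 a * UU σ n a (Ψ a) := by
    simp only [UU, mul_smul_comm, ← smul_sum, mul_sub, sum_sub_distrib, smul_sub]
    abel
  rw [h7, add_div (3 * R * A ^ 4)]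
  linarith [av_abs_add (Ψ m - 1 - ∑ a ∈ range m, r 0 a * (Ψ a * (A / u ^ 4) • gg σ n a))
    ((A / u ^ 4) • ∑ a ∈ range m, r 0 a * UU σ n a (Ψ a))]

/-- the sign of the Haar coefficient -/
noncomputable def si (D : Fn s) (a b c : ℕ) : Fn s := fun ω => if 0 ≤ be D a b c ω then 1 else -1

theorem sg_si (D : Fn s) : Sg (si D) where
  sq a b c := funext fun ω => by
    simp only [Pi.mul_apply, si]
    split_ifs <;> simp
  m0 a b c := (M_C 0 a _).map fun x => if 0 ≤ x then 1 else -1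
  m1 a b c := ((M_C 1 b _).C (by decide) a).map fun x => if 0 ≤ x then 1 else -1
  m2 a b c := (((M_C 2 c D).C (by decide) b).C (by decide) a).map
    fun x => if 0 ≤ x then 1 else -1

theorem abs_av_mul_bdd {D f : Fn s} {B : ℝ} (h : ∀ ω, |D ω| ≤ B) : |av (D * f)| ≤ B * av |f| := by
  rw [← av_cmul]
  refine (abs_av_le _).trans (av_mono fun ω => ?_)
  simp only [Pi.abs_apply, Pi.mul_apply, abs_mul]
  exact mul_le_mul_of_nonneg_right (h ω) (abs_nonneg _)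

/-- the gain over the mean square bound in three dimensions -/
theorem gain {K δ η : ℝ} (hK : 1 ≤ K) (hδ : 0 < δ) (hη : 0 < η) (hη1 : η ≤ 1) :
    ∃ u₀ : ℝ, ∀ (u : ℝ) (n s : ℕ) (D : Fn s), u₀ ≤ u → (n + 1 : ℝ) = u ^ 4 → n < s →
      (∀ ω, |D ω| ≤ K * u ^ 8) →
      (∀ a b c i, a + b + c = n + i →
        av |Q 0 a (Q 1 b (Q 2 c D))| ≤ 3 * u ^ 8 * (1 / 2) ^ i) →
      ∑ a ∈ range (n + 1), ∑ b ∈ range (n - a + 1),
        av (fun ω => if δ * u ^ 4 ≤ |be D a b (n - a - b) ω| then 1 else 0) < η * u ^ 8 := by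
  obtain ⟨A, hA, hAe⟩ : ∃ A : ℝ, 0 < A ∧ A * δ * η = 6 * K + 4 :=
    ⟨(6 * K + 4) / (δ * η), by positivity, by field_simp⟩
  obtain ⟨τ, l, hτ, hl, hτl⟩ : ∃ τ l : ℝ, 0 < τ ∧ 0 < l ∧
      (τ * ((2 * A ^ 2 + 1) / l) + τ⁻¹ * (2 * A ^ 2)) / 2 = η / 4 :=
    ⟨8 * A ^ 2 / η, 4 * (8 * A ^ 2 / η) * (2 * A ^ 2 + 1) / η, by positivity, by positivity,
      by field_simp; norm_num⟩
  obtain ⟨R, hR⟩ : ∃ R, R = Real.exp l := ⟨_, rfl⟩
  obtain ⟨W, hW⟩ : ∃ W, W = 6 + 30 * (2 * R) ^ 4 + 3 * (2 * R) ^ 2 := ⟨_, rfl⟩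
  have hR1 : 1 ≤ R := hR ▸ Real.one_le_exp hl.le
  have hW0 : 0 ≤ W := by rw [hW]; positivity
  refine ⟨max (W + 1) (max (4 * (3 * R * A ^ 4 + A * (1 + W)) / η)
    (A * (13 * (4 * K ^ 2 + (2 * R) ^ 2)))), fun u n s D hu0 hu hs hD hQ => ?_⟩
  simp only [max_le_iff] at hu0
  obtain ⟨hu1, hu2, hu3⟩ := hu0
  have hu4 : 1 ≤ u := by linarith
  have hu5 : 0 < u := by linarith
  have h := sg_si D
  obtain ⟨Ψ, hΨ⟩ : ∃ Ψ, Ψ = Ps (fun a => (A / u ^ 4) • gg (si D) n a) R := ⟨_, rfl⟩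
  have hg : ∀ a, M 0 a ((A / u ^ 4) • gg (si D) n a) := fun a => (h.M_gg n a).smul _
  have hb : ∀ a ω, 0 ≤ Ψ a ω ∧ Ψ a ω ≤ 2 * R := fun a ω => hΨ ▸ Ps_bound hR1 a ω
  have hM : ∀ a, M 0 a (Ψ a) := fun a => hΨ ▸ M_Ps hg a
  have hbad : ∀ m ≤ n + 1,
      av |Ψ m - 1 - (A / u ^ 4) • ∑ a ∈ range m, r 0 a * VV (si D) n a (Ψ a)| ≤ η / 2 := by
    intro m hm
    refine (h.bad hs hu hu4 hA hl hτ hR hW hu1 hm hΨ).trans ?_
    have : (3 * R * A ^ 4 + A * (1 + W)) / u ≤ η / 4 := by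
      rw [div_le_iff₀ hη] at hu2
      rw [div_le_iff₀ hu5]
      linarith
    linarith
  have hmain := h.main_off hs hK hu hu5 hD hQ hM (B := 2 * R)
    fun a ω => abs_le.2 ⟨by linarith [(hb a ω).1], (hb _ ω).2⟩
  have h1 : ∀ a ∈ range (n + 1), ∀ b ∈ range (n - a + 1),
      δ * u ^ 4 * (av (fun ω => if δ * u ^ 4 ≤ |be D a b (n - a - b) ω| then 1 else 0) - η / 2) ≤
      av (be D a b (n - a - b) * (si D a b (n - a - b) * P 1 b (P 2 (n - a - b) (Ψ a)))) := by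
    intro a ha b hb'
    rw [mem_range] at ha hb'
    have h2 := ((av_abs_P 1 b _).trans (av_abs_P 2 (n - a - b) _)).trans (hbad a ha.le)
    have h3 : P 1 b (P 2 (n - a - b) (∑ a' ∈ range a, r 0 a' * VV (si D) n a' (Ψ a'))) = 0 := by
      rw [map_sum, map_sum]
      exact sum_eq_zero fun a' ha' => h.kill (mem_range.1 ha') (by omega) _
    have h4 : ∀ i k, P i k (1 : Fn s) = 1 := fun _ _ => ce_one _
    simp only [map_sub, map_smul, h3, h4, smul_zero, sub_zero] at h2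
    have h5 : ∀ ω, 0 ≤ P 1 b (P 2 (n - a - b) (Ψ a)) ω :=
      ce_nonneg _ (ce_nonneg _ fun ω => (hb a ω).1)
    generalize P 1 b (P 2 (n - a - b) (Ψ a)) = Y at *
    refine le_trans (mul_le_mul_of_nonneg_left (sub_le_sub_left h2 _) (by positivity)) ?_
    rw [← map_sub, ← av_cmul]
    refine av_mono fun ω => ?_
    have h6 : be D a b (n - a - b) ω * si D a b (n - a - b) ω = |be D a b (n - a - b) ω| := by
      unfold si
      split_ifs with h7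
      · rw [mul_one, abs_of_nonneg h7]
      · rw [mul_neg_one, abs_of_neg (not_le.1 h7)]
    simp only [Pi.sub_apply, Pi.abs_apply, Pi.mul_apply, Pi.one_apply]
    rw [← mul_assoc, h6]
    have h8 : 0 < δ * u ^ 4 := by positivity
    split_ifs with h7
    · exact (mul_le_mul_of_nonneg_left (by linarith [neg_abs_le (Y ω - 1)]) h8.le).trans
        (mul_le_mul_of_nonneg_right h7 (h5 ω))
    · nlinarith [abs_nonneg (Y ω - 1), mul_nonneg (abs_nonneg (be D a b (n - a - b) ω)) (h5 ω)]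
  by_contra hc
  rw [not_lt] at hc
  have h2 := (sum_le_sum fun a ha => sum_le_sum (h1 a ha)).trans hmain
  simp only [← mul_sum, sum_sub_distrib] at h2
  have h3 : ∑ a ∈ range (n + 1), ∑ _b ∈ range (n - a + 1), η / 2 ≤ η / 2 * u ^ 8 := by
    refine (tri_le fun _ _ => by positivity).trans_eq ?_
    simp only [sum_const, card_range, nsmul_eq_mul]
    push_cast
    rw [hu]
    ring
  have h4 : A / u ^ 4 * ∑ a ∈ range (n + 1), av (D * (r 0 a * VV (si D) n a (Ψ a))) ≤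
      3 * (K * u ^ 8) := by
    have h5 := abs_av_mul_bdd hD (f := Ψ (n + 1) - 1 -
      (A / u ^ 4) • ∑ a ∈ range (n + 1), r 0 a * VV (si D) n a (Ψ a))
    have h6 := abs_av_mul_bdd hD (f := Ψ (n + 1) - 1)
    have h7 : av |Ψ (n + 1) - 1| ≤ 2 := by
      refine (av_abs_sub _ _).trans_eq ?_
      rw [abs_of_nonneg (a := (1 : Fn s)) zero_le_one,
        abs_of_nonneg (a := Ψ (n + 1)) fun ω => (hb _ ω).1, av_one,
        show av (Ψ (n + 1)) = 1 from hΨ ▸ av_Ps hg _]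
      norm_num
    have h8 := hbad (n + 1) le_rfl
    rw [mul_sub D, map_sub, mul_smul_comm, map_smul, mul_sum, map_sum, smul_eq_mul] at h5
    have h9 : 0 ≤ K * u ^ 8 := by positivity
    have := mul_le_mul_of_nonneg_left h7 h9
    have := mul_le_mul_of_nonneg_left (h8.trans (by linarith : η / 2 ≤ 1)) h9
    linarith [(abs_le.1 h5).1, (abs_le.1 h6).2]
  have h5 : δ * u ^ 4 * (η / 2 * u ^ 8) ≤ _ :=
    (mul_le_mul_of_nonneg_left (by linarith) (by positivity)).trans h2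
  have h6 := mul_le_mul_of_nonneg_left h5 (by positivity : 0 ≤ A / u ^ 4)
  rw [mul_add, show A / u ^ 4 * (δ * u ^ 4 * (η / 2 * u ^ 8)) = A * δ * η / 2 * u ^ 8 by
    field_simp, show A / u ^ 4 * (13 * (4 * K ^ 2 + (2 * R) ^ 2) * u ^ 11) =
      A * (13 * (4 * K ^ 2 + (2 * R) ^ 2)) * u ^ 7 by field_simp, hAe] at h6
  have h7 := mul_le_mul_of_nonneg_right hu3 (by positivity : 0 ≤ u ^ 7)
  have h8 : 0 < u ^ 8 := by positivity
  nlinarith

end Pool.Agent.MP_507a17_nt.H83
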