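import Pool.Agent.MP_507a17_nt.H83.Beck

/-! The pairing of a bounded function with the coincidence-free part of the test function. -/

open Finset

namespace Pool.Agent.MP_507a17_nt.H83

variable {s : ℕ}

/-- the complement of the conditional mean -/
noncomputable def Q (i : Fin 3) (k : ℕ) : Fn s →ₗ[ℝ] Fn s := LinearMap.id - P i k

theorem Q_def (i : Fin 3) (k : ℕ) (f : Fn s) : Q i k f = f - P i k f := rfl

/-- the Haar coefficient -/
noncomputable def be (D : Fn s) (a b c : ℕ) : Fn s := C 0 a (C 1 b (C 2 c D))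

theorem C_Q (i : Fin 3) (k : ℕ) (f : Fn s) : C i k (Q i k f) = C i k f := by
  rw [Q_def, map_sub, (M_P i k f).C_eq, sub_zero]

theorem C_Q_ne {i j : Fin 3} (h : i ≠ j) (k l : ℕ) (f : Fn s) :
    C i k (Q j l f) = Q j l (C i k f) := by
  rw [Q_def, Q_def, map_sub, C_P h]

theorem CC_QQ {i j : Fin 3} (h : i ≠ j) (k l : ℕ) (f : Fn s) :
    C i k (C j l (Q i k (Q j l f))) = C i k (C j l f) := by
  rw [C_Q_ne h.symm, C_Q, C_Q]

theorem Dl_eq (i : Fin 3) (k : ℕ) (f : Fn s) :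
    Dl i k f = P i k f + ∑ j ∈ range s, r i (k + 1 + j) * C i (k + 1 + j) f := by
  have h := P_add i (k + 1) s f
  rw [P_top (by omega), P_succ] at h
  rw [Dl]
  linear_combination h

theorem av_CC {j : Fin 3} (hj : 0 ≠ j) {a k : ℕ} {w : Fn s} (h0 : M 0 a w) (h1 : M j k w)
    (D : Fn s) : av (r 0 a * r j k * D * w) = av (C 0 a (C j k D) * w) := by
  rw [← h0.av_C, show r 0 a * C j k D * w = C j k D * (r 0 a * w) by ring,
    ← ((M_r (Or.inl hj)).mul h1).av_C]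
  congr 1
  ring

theorem av_Dl_mul {i : Fin 3} {k : ℕ} (hk : k < s) {e : Fn s} (he : M i k e) (D F : Fn s) :
    av (D * e * r i k * Dl i k F) = av (Q i k D * e * r i k * F) := by
  have h1 : av (D * e * r i k * (r i k * C i k F)) = av (P i k D * e * r i k * F) := by
    rw [show D * e * r i k * (r i k * C i k F) = e * D * C i k F by
      linear_combination D * e * C i k F * r_mul (i := i) hk, C_def, ← av_P_mul, he.P_mul]
    congr 1
    ring
  rw [Dl, mul_sub, map_sub, h1, Q_def, ← map_sub]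
  congr 1
  ring

variable {σ : ℕ → ℕ → ℕ → Fn s} {n : ℕ}

theorem Sg.split (h : Sg σ) {a b c : ℕ} (hc : c < s) {F : Fn s} (hF : M 0 a F) (D : Fn s) :
    av (D * (r 0 a * (ff σ a b c * Dl 1 b (Dl 2 c F)))) =
      av (be D a b c * (σ a b c * P 1 b (P 2 c F))) +
      ∑ i ∈ range s, av (C 0 a (C 2 (c + 1 + i) (C 1 b D)) *
        (σ a b c * r 2 c * C 2 (c + 1 + i) F)) +
      ∑ i ∈ range s, av (C 0 a (C 1 (b + 1 + i) (Q 2 c D)) *
        (σ a b c * r 1 b * r 2 c * C 1 (b + 1 + i) F)) := by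
  have n01 : (0 : Fin 3) ≠ 1 := by decide
  have n02 : (0 : Fin 3) ≠ 2 := by decide
  have n12 : (1 : Fin 3) ≠ 2 := by decide
  rw [Dl_eq 1 b]
  nth_rw 1 [Dl_eq 2 c]
  simp only [map_add, map_sum, mul_add, mul_sum]
  congr 1
  · congr 1
    · have h0 : M 0 a (σ a b c * P 1 b (P 2 c F)) := (h.m0 _ _ _).mul ((hF.P _ _).P _ _)
      have h1 : M 1 b (σ a b c * P 1 b (P 2 c F)) := (h.m1 _ _ _).mul (M_P _ _ _)
      have h2 : M 2 c (σ a b c * P 1 b (P 2 c F)) := (h.m2 _ _ _).mul ((M_P _ _ _).P _ _)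
      rw [be, ← av_CC n01 h0 h1, show r 0 a * r 1 b * C 2 c D * (σ a b c * P 1 b (P 2 c F)) =
        C 2 c D * (r 0 a * r 1 b * (σ a b c * P 1 b (P 2 c F))) by ring,
        ← (((M_r (Or.inl n02)).mul (M_r (Or.inl n12))).mul h2).av_C, ff]
      congr 1
      ring
    · refine sum_congr rfl fun i _ => ?_
      have h0 : M 0 a (σ a b c * r 2 c * C 2 (c + 1 + i) F) :=
        ((h.m0 _ _ _).mul (M_r (Or.inl n02.symm))).mul (hF.C n02.symm _)
      have h2 : M 2 (c + 1 + i) (σ a b c * r 2 c * C 2 (c + 1 + i) F) :=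
        (((h.m2 _ _ _).le (by omega)).mul (M_r (Or.inr (by omega)))).mul (M_C _ _ _)
      have h1 : M 1 b (r 0 a * σ a b c * r 2 c * r 2 (c + 1 + i)) :=
        (((M_r (Or.inl n01)).mul (h.m1 _ _ _)).mul (M_r (Or.inl n12.symm))).mul
          (M_r (Or.inl n12.symm))
      rw [← av_CC n02 h0 h2, (M_r (Or.inl n12.symm)).P_mul, ff]
      generalize C 2 (c + 1 + i) F = G
      have h3 := av_P_mul 1 b (r 0 a * σ a b c * r 2 c * r 2 (c + 1 + i) * (r 1 b * D)) G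
      rw [h1.P_mul, ← C_def] at h3
      refine Eq.trans ?_ (h3.symm.trans ?_) <;> congr 1 <;> ring
  · refine sum_congr rfl fun i _ => ?_
    have h0 : M 0 a (σ a b c * r 1 b * r 2 c * C 1 (b + 1 + i) F) :=
      (h.M_ff _ _ _).mul (hF.C n01.symm _)
    have h1 : M 1 (b + 1 + i) (σ a b c * r 1 b * r 2 c * C 1 (b + 1 + i) F) :=
      ((((h.m1 _ _ _).le (by omega)).mul (M_r (Or.inr (by omega)))).mul
        (M_r (Or.inl n12.symm))).mul (M_C _ _ _)
    have h2 : M 2 c (r 0 a * σ a b c * r 1 b * r 1 (b + 1 + i)) :=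
      (((M_r (Or.inl n02)).mul (h.m2 _ _ _)).mul (M_r (Or.inl n12))).mul (M_r (Or.inl n12))
    rw [← av_CC n01 h0 h1, C_Dl_ne n12, ff]
    refine Eq.trans ?_ ((av_Dl_mul hc h2 D (C 1 (b + 1 + i) F)).trans ?_) <;> congr 1 <;> ring

theorem av_sq_le_abs {f : Fn s} {B : ℝ} (h : ∀ ω, |f ω| ≤ B) : av (f ^ 2) ≤ B * av |f| := by
  rw [← av_cmul]
  refine av_mono fun ω => ?_
  rw [Pi.pow_apply, ← sq_abs, sq]
  exact mul_le_mul_of_nonneg_right (h ω) (abs_nonneg _)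

theorem off_bound {j : Fin 3} {u K B : ℝ} (hK : 1 ≤ K) (hu : (n + 1 : ℝ) = u ^ 4) (hu0 : 0 < u)
    {D : Fn s} (hD : ∀ ω, |D ω| ≤ K * u ^ 8) {F : ℕ → Fn s} (hF : ∀ a ω, |F a ω| ≤ B) (i : ℕ)
    {G w : ℕ → ℕ → Fn s} (h1 : ∀ a k, av (G a k ^ 2) ≤ av (C 0 a (C j (k + 1 + i) D) ^ 2))
    (h2 : ∀ a k ω, |G a k ω| ≤ 2 * (K * u ^ 8))
    (h3 : ∀ a k, a + k ≤ n → av |G a k| ≤ 3 * u ^ 8 * (1 / 2) ^ i)
    (hw : ∀ a k ω, |w a k ω| ≤ |C j (k + 1 + i) (F a) ω|) :
    -((4 * K ^ 2 + B ^ 2) / 2 * u ^ 11 * (12 / 13) ^ i) ≤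
      ∑ a ∈ range (n + 1), ∑ k ∈ range (n - a + 1), av (G a k * w a k) := by
  set X := ∑ a ∈ range (n + 1), ∑ k ∈ range (n - a + 1), av (G a k ^ 2) with hX
  have hX0 : 0 ≤ X := sum_nonneg fun _ _ => sum_nonneg fun _ _ => av_sq_nonneg _
  have hX1 : X ≤ (K * u ^ 8) ^ 2 := by
    refine le_trans ?_ ((bessel₂ 0 j 0 (1 + i) (n + 1) (n + 1) D).trans (av_sq_le hD))
    rw [sum_comm]
    refine le_trans (sum_le_sum fun a _ => sum_le_sum fun k _ => ?_)
      (tri_le fun _ _ => av_sq_nonneg _)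
    rw [zero_add, show 1 + i + k = k + 1 + i by ring]
    exact h1 a k
  have hX2 : X ≤ u ^ 8 * (2 * (K * u ^ 8) * (3 * u ^ 8 * (1 / 2) ^ i)) := by
    refine le_trans (sum_le_sum fun a ha => sum_le_sum fun k hk => (av_sq_le_abs (h2 a k)).trans
      (mul_le_mul_of_nonneg_left (h3 a k (by rw [mem_range] at ha hk; omega)) (by positivity)))
      ((tri_le fun _ _ => by positivity).trans_eq ?_)
    simp only [sum_const, card_range, nsmul_eq_mul]
    push_cast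
    rw [hu]
    ring
  have hX3 : X ≤ 4 * K ^ 2 * u ^ 18 * ((12 / 13) ^ i) ^ 2 := by
    refine le_of_pow_le_pow_left₀ four_ne_zero (by positivity) ?_
    have h4 : (1 / 2 : ℝ) ^ i ≤ ((12 / 13) ^ i) ^ 8 := by
      rw [← pow_mul, mul_comm, pow_mul]
      exact pow_le_pow_left₀ (by norm_num) (by norm_num) i
    calc X ^ 4 = X ^ 3 * X := by ring
      _ ≤ ((K * u ^ 8) ^ 2) ^ 3 * (u ^ 8 * (2 * (K * u ^ 8) * (3 * u ^ 8 * (1 / 2) ^ i))) := by
        gcongr
      _ = 6 * 1 * (K ^ 7 * u ^ 72) * (1 / 2) ^ i := by ring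
      _ ≤ 256 * K * (K ^ 7 * u ^ 72) * ((12 / 13) ^ i) ^ 8 := by
        gcongr
        norm_num
      _ = _ := by ring
  have hW : ∑ a ∈ range (n + 1), ∑ k ∈ range (n - a + 1), av (w a k ^ 2) ≤ u ^ 4 * B ^ 2 := by
    refine (sum_le_sum (g := fun _ => B ^ 2) fun a _ => ?_).trans_eq (by simp [hu])
    refine le_trans (sum_le_sum fun k _ => ?_)
      ((bessel j (1 + i) (n - a + 1) (F a)).trans (av_sq_le (hF a)))
    rw [show 1 + i + k = k + 1 + i by ring]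
    exact av_sq_mono (hw a k)
  have hτ : (0 : ℝ) < (u ^ 7 * (12 / 13) ^ i)⁻¹ := by positivity
  refine le_trans ?_ (sum_le_sum fun a _ => sum_le_sum fun k _ =>
    neg_le_of_abs_le (abs_av_mul_le (G a k) (w a k) hτ))
  simp only [sum_neg_distrib, ← sum_div, sum_add_distrib, ← mul_sum, inv_inv, neg_le_neg_iff]
  rw [← hX]
  refine le_trans (div_le_div_of_nonneg_right (add_le_add (mul_le_mul_of_nonneg_left hX3 hτ.le)
    (mul_le_mul_of_nonneg_left hW (by positivity))) two_pos.le) (le_of_eq ?_)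
  field_simp

theorem Sg.main_off (h : Sg σ) (hs : n < s) {u K B : ℝ} (hK : 1 ≤ K) (hu : (n + 1 : ℝ) = u ^ 4)
    (hu0 : 0 < u) {D : Fn s} (hD : ∀ ω, |D ω| ≤ K * u ^ 8)
    (hQ : ∀ a b c i, a + b + c = n + i → av |Q 0 a (Q 1 b (Q 2 c D))| ≤ 3 * u ^ 8 * (1 / 2) ^ i)
    {F : ℕ → Fn s} (hM : ∀ a, M 0 a (F a)) (hF : ∀ a ω, |F a ω| ≤ B) :
    ∑ a ∈ range (n + 1), ∑ b ∈ range (n - a + 1),
      av (be D a b (n - a - b) * (σ a b (n - a - b) * P 1 b (P 2 (n - a - b) (F a)))) ≤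
      ∑ a ∈ range (n + 1), av (D * (r 0 a * VV σ n a (F a))) +
        13 * (4 * K ^ 2 + B ^ 2) * u ^ 11 := by
  have n01 : (0 : Fin 3) ≠ 1 := by decide
  have n02 : (0 : Fin 3) ≠ 2 := by decide
  have n12 : (1 : Fin 3) ≠ 2 := by decide
  have hKu : 0 ≤ K * u ^ 8 := by positivity
  have hhalf : ∀ i : ℕ, 3 * u ^ 8 * (1 / 2) ^ (i + 1) ≤ 3 * u ^ 8 * (1 / 2) ^ i := fun i =>
    mul_le_mul_of_nonneg_left (pow_le_pow_of_le_one (by norm_num) (by norm_num) i.le_succ)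
      (by positivity)
  have h1 := fun i => off_bound (j := 2) hK hu hu0 hD hF i
    (G := fun a c => C 0 a (C 2 (c + 1 + i) (C 1 (n - a - c) D)))
    (w := fun a c => σ a (n - a - c) c * r 2 c * C 2 (c + 1 + i) (F a))
    (fun a k => by rw [C_C n12.symm, C_C n01]; exact av_sq_C _ _ _)
    (fun a k ω => (abs_C_le _ _ (abs_C_le _ _ (abs_C_le _ _ hD)) ω).trans (by linarith))
    (fun a k hk => by
      rw [C_C n12.symm, ← C_Q 2, ← CC_QQ n01, ← C_Q_ne n12.symm, ← C_Q_ne n02.symm]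
      exact (av_abs_C _ _ _).trans ((av_abs_C _ _ _).trans ((av_abs_C _ _ _).trans
        ((hQ _ _ _ (i + 1) (by omega)).trans (hhalf i)))))
    (fun a k ω => by
      rw [mul_assoc, Pi.mul_apply, abs_mul, h.abs, one_mul]
      exact abs_r_mul _ _ _ _)
  have h2 := fun i => off_bound (j := 1) hK hu hu0 hD hF i
    (G := fun a b => C 0 a (C 1 (b + 1 + i) (Q 2 (n - a - b) D)))
    (w := fun a b => σ a b (n - a - b) * r 1 b * r 2 (n - a - b) * C 1 (b + 1 + i) (F a))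
    (fun a k => by rw [C_Q_ne n12, C_Q_ne n02]; exact av_sq_sub_P _ _ _)
    (fun a k => abs_C_le _ _ (abs_C_le _ _ fun ω => (abs_sub (D ω) _).trans (by
      linarith [hD ω, abs_P_le 2 (n - a - k) hD ω])))
    (fun a k hk => by
      rw [← CC_QQ n01]
      exact (av_abs_C _ _ _).trans ((av_abs_C _ _ _).trans
        ((hQ _ _ _ (i + 1) (by omega)).trans (hhalf i))))
    (fun a k ω => by
      rw [mul_assoc, mul_assoc, Pi.mul_apply, abs_mul, h.abs, one_mul]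
      exact (abs_r_mul _ _ _ _).trans (abs_r_mul _ _ _ _))
  have h3 : ∑ i ∈ range s, (12 / 13 : ℝ) ^ i ≤ 13 := by
    rw [geom_sum_eq (by norm_num), div_le_iff_of_neg (by norm_num)]
    have : (0 : ℝ) ≤ (12 / 13) ^ s := by positivity
    linarith
  have h4 := sum_le_sum fun i (_ : i ∈ range s) => add_le_add (h1 i) (h2 i)
  have h5 : ∀ a ∈ range (n + 1), av (D * (r 0 a * VV σ n a (F a))) = _ := fun a _ => by
    rw [VV, mul_sum, mul_sum, map_sum,
      sum_congr rfl fun b _ => h.split (by omega : n - a - b < s) (hM a) D, sum_add_distrib,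
      sum_add_distrib, sum_comm (t := range s), sum_comm (t := range s),
      sum_congr rfl fun i _ => tri_flip (n - a) fun b c =>
        av (C 0 a (C 2 (c + 1 + i) (C 1 b D)) * (σ a b c * r 2 c * C 2 (c + 1 + i) (F a)))]
  rw [sum_congr rfl h5, sum_add_distrib, sum_add_distrib, sum_comm (t := range s),
    sum_comm (t := range s)]
  simp only [sum_add_distrib, sum_neg_distrib, ← mul_sum] at h4
  have h6 := mul_le_mul_of_nonneg_left h3 (by positivity : 0 ≤ (4 * K ^ 2 + B ^ 2) / 2 * u ^ 11)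
  linarith

end Pool.Agent.MP_507a17_nt.H83
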