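import Pool.Agent.MP_507a17_nt.H83.Cube

/-! Three dyadic filtrations on one cube: martingale differences, Bessel and moment bounds. -/

open Finset

namespace Pool.Agent.MP_507a17_nt.H83

/-- three binary words of length `s` -/
abbrev Om (s : ℕ) := Fin 3 × Fin s → Bool

/-- real functions of three words -/
abbrev Fn (s : ℕ) := Om s → ℝ

variable {s : ℕ}

/-- all bits except those of word `i` from place `k` on -/
def L (s : ℕ) (i : Fin 3) (k : ℕ) : Finset (Fin 3 × Fin s) :=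
  univ.filter fun x => x.1 ≠ i ∨ (x.2 : ℕ) < k

/-- the sign of bit `k` of word `i` -/
def r (i : Fin 3) (k : ℕ) : Fn s := if h : k < s then sg (i, ⟨k, h⟩) else 0

/-- conditional mean -/
noncomputable def P (i : Fin 3) (k : ℕ) : Fn s →ₗ[ℝ] Fn s := ce (L s i k)

/-- coefficient of the martingale difference -/
noncomputable def C (i : Fin 3) (k : ℕ) : Fn s →ₗ[ℝ] Fn s :=
  P i k ∘ₗ LinearMap.mulLeft ℝ (r i k)

/-- measurability at level `k` of word `i` -/
abbrev M (i : Fin 3) (k : ℕ) (f : Fn s) : Prop := Dep (L s i k) f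

theorem mem_L {i : Fin 3} {k : ℕ} {x : Fin 3 × Fin s} :
    x ∈ L s i k ↔ x.1 ≠ i ∨ (x.2 : ℕ) < k := by simp [L]

theorem C_def (i : Fin 3) (k : ℕ) (f : Fn s) : C i k f = P i k (r i k * f) := rfl

theorem M.le {i : Fin 3} {k l : ℕ} {f : Fn s} (h : M i k f) (hkl : k ≤ l) : M i l f :=
  h.mono fun _ hx => mem_L.2 ((mem_L.1 hx).imp_right fun h => h.trans_le hkl)

theorem M.mul {i : Fin 3} {k : ℕ} {f g : Fn s} (h : M i k f) (h' : M i k g) : M i k (f * g) :=
  Dep.mul h h'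

theorem M.add {i : Fin 3} {k : ℕ} {f g : Fn s} (h : M i k f) (h' : M i k g) : M i k (f + g) :=
  Dep.add h h'

theorem M.sub {i : Fin 3} {k : ℕ} {f g : Fn s} (h : M i k f) (h' : M i k g) : M i k (f - g) :=
  Dep.sub h h'

theorem M_r {i j : Fin 3} {k l : ℕ} (h : i ≠ j ∨ k < l) : M j l (r i k : Fn s) := by
  unfold r
  split_ifs with hk
  · exact dep_sg (mem_L.2 h)
  · exact dep_const _ 0

theorem M_P (i : Fin 3) (k : ℕ) (f : Fn s) : M i k (P i k f) := dep_ce _ _

theorem M_C (i : Fin 3) (k : ℕ) (f : Fn s) : M i k (C i k f) := dep_ce _ _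

theorem M.P {i : Fin 3} {k : ℕ} {f : Fn s} (h : M i k f) (j : Fin 3) (l : ℕ) :
    M i k (P j l f) := h.ce.mono inter_subset_right

theorem M.C {i j : Fin 3} {k : ℕ} {f : Fn s} (h : M i k f) (hj : j ≠ i) (l : ℕ) :
    M i k (C j l f) := M.P ((M_r (Or.inl hj)).mul h) j l

theorem M.P_mul {i : Fin 3} {k : ℕ} {g : Fn s} (h : M i k g) (f : Fn s) :
    H83.P i k (g * f) = g * H83.P i k f := h.ce_mul f

theorem M.P_eq {i : Fin 3} {k : ℕ} {g : Fn s} (h : M i k g) : H83.P i k g = g := h.ce_eq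

theorem M.C_mul {i : Fin 3} {k : ℕ} {g : Fn s} (h : M i k g) (f : Fn s) :
    H83.C i k (g * f) = g * H83.C i k f := by
  rw [C_def, mul_left_comm, h.P_mul, C_def]

theorem r_mul {i : Fin 3} {k : ℕ} (h : k < s) : (r i k : Fn s) * r i k = 1 := by
  simp only [r, dif_pos h, sg_mul]

theorem r_top {i : Fin 3} {k : ℕ} (h : s ≤ k) : (r i k : Fn s) = 0 := dif_neg (not_lt.2 h)

theorem r_sq_le (i : Fin 3) (k : ℕ) (ω : Om s) : r i k ω ^ 2 ≤ 1 := by
  rcases lt_or_ge k s with h | h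
  · rw [sq]
    exact (congrFun (r_mul (i := i) h) ω).le
  · simp [r_top h]

theorem abs_r_le (i : Fin 3) (k : ℕ) (ω : Om s) : |r i k ω| ≤ 1 :=
  (sq_le_one_iff_abs_le_one _).1 (r_sq_le i k ω)

theorem C_top {i : Fin 3} {k : ℕ} (h : s ≤ k) (f : Fn s) : C i k f = 0 := by
  rw [C_def, r_top h, zero_mul, map_zero]

theorem L_top {i : Fin 3} {k : ℕ} (h : s ≤ k) : L s i k = univ :=
  eq_univ_of_forall fun x => mem_L.2 (Or.inr (x.2.2.trans_le h))

theorem P_top {i : Fin 3} {k : ℕ} (h : s ≤ k) (f : Fn s) : P i k f = f := by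
  refine M.P_eq fun ω ω' e => ?_
  rw [funext fun x => e x (L_top h ▸ mem_univ x)]

theorem P_succ (i : Fin 3) (k : ℕ) (f : Fn s) : P i (k + 1) f = P i k f + r i k * C i k f := by
  rcases lt_or_ge k s with h | h
  · have h1 : L s i (k + 1) = insert (i, ⟨k, h⟩) (L s i k) := by
      ext x
      simp only [mem_insert, mem_L, Prod.ext_iff, Fin.ext_iff]
      by_cases hx : x.1 = i
      · simp [hx]
        omega
      · simp [hx]
    rw [C_def]
    simp only [P, r, dif_pos h]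
    rw [h1, ce_insert (by simp [mem_L])]
  · rw [P_top h, P_top (h.trans k.le_succ), r_top h, zero_mul, add_zero]

theorem P_P (i j : Fin 3) (k l : ℕ) (f : Fn s) : P i k (P j l f) = P j l (P i k f) := by
  simp only [P, ce_ce, inter_comm]

theorem P_P_le {i : Fin 3} {k l : ℕ} (h : k ≤ l) (f : Fn s) : P i k (P i l f) = P i k f := by
  rw [P_P, ((M_P i k f).le h).P_eq]

theorem C_P {i j : Fin 3} (h : i ≠ j) (k l : ℕ) (f : Fn s) :
    C i k (P j l f) = P j l (C i k f) := by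
  rw [C_def, C_def, P_P, (M_r (Or.inl h)).P_mul]

theorem C_C {i j : Fin 3} (h : i ≠ j) (k l : ℕ) (f : Fn s) :
    C i k (C j l f) = C j l (C i k f) := by
  rw [C_def j l f, C_P h, (M_r (Or.inl h.symm)).C_mul, ← C_def]

theorem av_P (i : Fin 3) (k : ℕ) (f : Fn s) : av (P i k f) = av f := av_ce _ _

theorem av_P_mul (i : Fin 3) (k : ℕ) (f g : Fn s) : av (P i k f * g) = av (f * P i k g) :=
  av_ce_mul _ _ _

theorem M.av_r {i : Fin 3} {k : ℕ} {f : Fn s} (h : M i k f) : av (r i k * f) = 0 := by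
  unfold r
  split_ifs with hk
  · exact av_sg_mul (by simp [mem_L]) h
  · simp

theorem M.av_C {i : Fin 3} {k : ℕ} {w : Fn s} (h : M i k w) (f : Fn s) :
    av (r i k * f * w) = av (H83.C i k f * w) := by
  rw [C_def, av_P_mul, h.P_eq]

theorem C_one (i : Fin 3) (k : ℕ) : C i k (1 : Fn s) = 0 := by
  rw [C_def, mul_one]
  unfold r
  split_ifs with hk
  · exact ce_sg (by simp [mem_L])
  · simp

theorem M.C_eq {i : Fin 3} {k : ℕ} {g : Fn s} (h : M i k g) : H83.C i k g = 0 := by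
  simpa [C_one] using h.C_mul 1

theorem C_rC (i : Fin 3) (k : ℕ) (f : Fn s) : C i k (r i k * C i k f) = C i k f := by
  rcases lt_or_ge k s with h | h
  · rw [C_def i k (_ * _), ← mul_assoc, r_mul h, one_mul, (M_C i k f).P_eq]
  · rw [C_top h, C_top h]

theorem rC_sq (i : Fin 3) (k : ℕ) (f : Fn s) : (r i k * C i k f) ^ 2 = C i k f ^ 2 := by
  rcases lt_or_ge k s with h | h
  · linear_combination C i k f ^ 2 * r_mul (i := i) h
  · rw [C_top h, mul_zero]

theorem P_add (i : Fin 3) (k m : ℕ) (f : Fn s) :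
    P i (k + m) f = P i k f + ∑ j ∈ range m, r i (k + j) * C i (k + j) f := by
  induction m with
  | zero => simp
  | succ m ih => rw [← add_assoc, P_succ, ih, sum_range_succ, add_assoc]

theorem abs_P_le (i : Fin 3) (k : ℕ) {f : Fn s} {B : ℝ} (h : ∀ ω, |f ω| ≤ B) (ω : Om s) :
    |P i k f ω| ≤ B := abs_ce_le _ h ω

theorem abs_r_mul (i : Fin 3) (k : ℕ) (f : Fn s) (ω : Om s) : 
    |(r i k * f : Fn s) ω| ≤ |f ω| := by
  rw [Pi.mul_apply, abs_mul]
  exact mul_le_of_le_one_left (abs_nonneg _) (abs_r_le i k ω)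

theorem abs_C_le (i : Fin 3) (k : ℕ) {f : Fn s} {B : ℝ} (h : ∀ ω, |f ω| ≤ B) (ω : Om s) :
    |C i k f ω| ≤ B := abs_P_le i k (fun ω => (abs_r_mul i k f ω).trans (h ω)) ω

theorem av_abs_P (i : Fin 3) (k : ℕ) (f : Fn s) : av |P i k f| ≤ av |f| := av_abs_ce _ _

theorem av_abs_C (i : Fin 3) (k : ℕ) (f : Fn s) : av |C i k f| ≤ av |f| :=
  (av_abs_P i k _).trans (av_mono (abs_r_mul i k f))

theorem av_sq_P (i : Fin 3) (k : ℕ) (f : Fn s) : av (P i k f ^ 2) ≤ av (f ^ 2) := av_sq_ce _ _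

theorem av_sq_sub_P (i : Fin 3) (k : ℕ) (f : Fn s) : av ((f - P i k f) ^ 2) ≤ av (f ^ 2) :=
  av_sq_sub_ce _ _

theorem av_sq_mono {f g : Fn s} (h : ∀ ω, |f ω| ≤ |g ω|) : av (f ^ 2) ≤ av (g ^ 2) :=
  av_mono fun ω => sq_le_sq.2 (h ω)

theorem av_sq_nonneg (f : Fn s) : 0 ≤ av (f ^ 2) := av_nonneg fun ω => sq_nonneg (f ω)

theorem av_sq_le {f : Fn s} {B : ℝ} (h : ∀ ω, |f ω| ≤ B) : av (f ^ 2) ≤ B ^ 2 :=
  av_le fun ω => by
    rw [Pi.pow_apply, ← sq_abs]
    exact pow_le_pow_left₀ (abs_nonneg _) (h ω) 2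

theorem av_sq_C (i : Fin 3) (k : ℕ) (f : Fn s) : av (C i k f ^ 2) ≤ av (f ^ 2) :=
  (av_sq_P i k _).trans (av_sq_mono (abs_r_mul i k f))

theorem M_sum {i : Fin 3} {m : ℕ} {e : ℕ → Fn s} (h : ∀ k < m, M i k (e k)) :
    M i m (∑ k ∈ range m, r i k * e k) :=
  Dep.sum fun k hk => (M_r (Or.inr (mem_range.1 hk))).mul
    ((h k (mem_range.1 hk)).le (mem_range.1 hk).le)

/-- orthogonality of martingale differences -/
theorem orth {i : Fin 3} {m : ℕ} {e : ℕ → Fn s} (h : ∀ k < m, M i k (e k)) :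
    av ((∑ k ∈ range m, r i k * e k) ^ 2) ≤ ∑ k ∈ range m, av (e k ^ 2) := by
  induction m with
  | zero => simp
  | succ m ih =>
    have h1 := fun k (hk : k < m) => h k (hk.trans m.lt_succ_self)
    have h2 := M.av_r ((M_sum h1).mul (h m m.lt_succ_self))
    have h3 := av_sq_mono (abs_r_mul i m (e m))
    rw [sum_range_succ, sum_range_succ]
    set S := ∑ k ∈ range m, r i k * e k
    rw [show (S + r i m * e m) ^ 2 = S ^ 2 + (2 : ℝ) • (r i m * (S * e m)) + (r i m * e m) ^ 2 by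
      rw [two_smul]; ring, map_add, map_add, map_smul, h2]
    have := ih h1
    simp only [smul_zero, add_zero]
    linarith

theorem bessel (i : Fin 3) (k m : ℕ) (f : Fn s) :
    ∑ j ∈ range m, av (C i (k + j) f ^ 2) ≤ av (f ^ 2) := by
  have h : av (P i (k + m) f ^ 2) = av (P i k f ^ 2) + ∑ j ∈ range m, av (C i (k + j) f ^ 2) := by
    induction m with
    | zero => simp
    | succ m ih =>
      rw [← add_assoc, P_succ, sum_range_succ, ← add_assoc, ← ih, ← rC_sq i (k + m)]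
      have h2 := M.av_r ((M_P i (k + m) f).mul (M_C i (k + m) f))
      set S := P i (k + m) f
      set e := C i (k + m) f
      rw [show (S + r i (k + m) * e) ^ 2 =
        S ^ 2 + (2 : ℝ) • (r i (k + m) * (S * e)) + (r i (k + m) * e) ^ 2 by
        rw [two_smul]; ring, map_add, map_add, map_smul, h2]
      simp
  linarith [av_sq_P i (k + m) f, av_sq_nonneg (P i k f)]

theorem bessel₂ (i j : Fin 3) (k l m m' : ℕ) (f : Fn s) :
    ∑ b ∈ range m', ∑ a ∈ range m, av (C i (k + a) (C j (l + b) f) ^ 2) ≤ av (f ^ 2) :=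
  (sum_le_sum fun _ _ => bessel i k m _).trans (bessel j l m' f)

/-- second moment of the square function of a bounded martingale -/
theorem sq4 (i : Fin 3) (m : ℕ) {f : Fn s} {B : ℝ} (h : ∀ ω, |f ω| ≤ B) :
    av ((∑ k ∈ range m, C i k f ^ 2) ^ 2) ≤ 10 * B ^ 4 := by
  set N := ∑ k ∈ range m, r i k * (P i k f * C i k f) with hN
  have h1 : ∑ k ∈ range m, C i k f ^ 2 = P i m f ^ 2 - P i 0 f ^ 2 - 2 * N := by
    rw [hN]
    clear_value N
    clear hN
    induction m with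
    | zero => simp
    | succ m ih =>
      rw [sum_range_succ, sum_range_succ, ih, P_succ, ← rC_sq i m]
      ring
  have hP : ∀ k ω, P i k f ω ^ 2 ≤ B ^ 2 := fun k ω => by
    rw [← sq_abs]
    exact pow_le_pow_left₀ (abs_nonneg _) (abs_P_le i k h ω) 2
  have h2 : av (N ^ 2) ≤ B ^ 4 := by
    refine (orth fun k _ => (M_P i k f).mul (M_C i k f)).trans ?_
    have h3 : ∀ k ∈ range m, av ((P i k f * C i k f) ^ 2) ≤ B ^ 2 * av (C i (0 + k) f ^ 2) := by
      intro k _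
      rw [← av_cmul, zero_add]
      refine av_mono fun ω => ?_
      simp only [Pi.pow_apply, Pi.mul_apply, mul_pow]
      exact mul_le_mul_of_nonneg_right (hP k ω) (sq_nonneg _)
    refine (sum_le_sum h3).trans ?_
    rw [← mul_sum, show B ^ 4 = B ^ 2 * B ^ 2 by ring]
    exact mul_le_mul_of_nonneg_left ((bessel i 0 m f).trans (av_sq_le h)) (sq_nonneg _)
  have h4 : ∀ ω, ((∑ k ∈ range m, C i k f ^ 2) ^ 2) ω ≤ 2 * B ^ 4 + 8 * (N ^ 2) ω := by
    intro ω
    have h5 : 0 ≤ (∑ k ∈ range m, C i k f ^ 2) ω := by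
      rw [Finset.sum_apply]
      exact sum_nonneg fun k _ => sq_nonneg (C i k f ω)
    have h6 : (∑ k ∈ range m, C i k f ^ 2) ω ≤ B ^ 2 - 2 * N ω := by
      rw [h1]
      have := hP m ω
      have := sq_nonneg (P i 0 f ω)
      simp only [Pi.sub_apply, Pi.pow_apply, Pi.mul_apply, Pi.ofNat_apply]
      linarith
    have h7 := pow_le_pow_left₀ h5 h6 2
    simp only [Pi.pow_apply] at h7 ⊢
    nlinarith [sq_nonneg (B ^ 2 + 2 * N ω)]
  refine (av_mono h4).trans ?_
  rw [av_add', av_const, av_cmul]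
  linarith

/-- moments of a martingale with increments of size at most one -/
theorem khin {i : Fin 3} {m : ℕ} {e : ℕ → Fn s} (h : ∀ k < m, M i k (e k))
    (h1 : ∀ k ω, |e k ω| ≤ 1) :
    av ((∑ k ∈ range m, r i k * e k) ^ 2) ≤ m ∧
      av ((∑ k ∈ range m, r i k * e k) ^ 4) ≤ 3 * m ^ 2 := by
  have h2 : ∀ m : ℕ, (∀ k < m, M i k (e k)) → av ((∑ k ∈ range m, r i k * e k) ^ 2) ≤ m := by
    intro m h
    refine (orth h).trans ((sum_le_sum fun k _ => av_sq_le (h1 k)).trans_eq ?_)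
    simp
  refine ⟨h2 m h, ?_⟩
  induction m with
  | zero => simp
  | succ m ih =>
    have h3 := fun k (hk : k < m) => h k (hk.trans m.lt_succ_self)
    have h4 := M_sum h3
    have h5 := h m m.lt_succ_self
    have h6 := h2 m h3
    have h7 := ih h3
    rw [sum_range_succ]
    set S := ∑ k ∈ range m, r i k * e k
    rcases lt_or_ge m s with hm | hm
    · have h8 := M.av_r (h4.map₂ (fun x y => 4 * x ^ 3 * y + 4 * x * y ^ 3) h5)
      have h9 : ∀ ω, ((S + r i m * e m) ^ 4 : Fn s) ω ≤ (S ^ 4) ω + (6 * (S ^ 2) ω + (1 +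
          (r i m * fun ω => 4 * S ω ^ 3 * e m ω + 4 * S ω * e m ω ^ 3 : Fn s) ω)) := by
        intro ω
        have hr : r i m ω * r i m ω = 1 := congrFun (r_mul (i := i) hm) ω
        have he : e m ω ^ 2 ≤ 1 := (sq_le_one_iff_abs_le_one _).2 (h1 m ω)
        simp only [Pi.pow_apply, Pi.add_apply, Pi.mul_apply]
        generalize S ω = x, e m ω = y, r i m ω = z at *
        have : (x + z * y) ^ 4 = x ^ 4 + 6 * x ^ 2 * y ^ 2 + (y ^ 2) ^ 2 +
            z * (4 * x ^ 3 * y + 4 * x * y ^ 3) := by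
          linear_combination (6 * x ^ 2 * y ^ 2 + 4 * x * y ^ 3 * z + y ^ 4 * (z * z + 1)) * hr
        rw [this]
        nlinarith [mul_le_mul_of_nonneg_left he (sq_nonneg x), sq_nonneg y]
      refine (av_mono h9).trans ?_
      rw [av_add', av_add', av_add', av_const, av_cmul, h8]
      push_cast
      nlinarith
    · rw [r_top hm, zero_mul, add_zero]
      refine h7.trans ?_
      push_cast
      nlinarith [(Nat.cast_nonneg m : (0 : ℝ) ≤ m)]

end Pool.Agent.MP_507a17_nt.H83
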