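import Mathlib

/-! A volume bound: a matrix with flat spectrum has large linear discrepancy on many rows. -/

open Finset MeasureTheory Matrix

namespace Pool.Agent.MP_507a17_nt.H83

theorem gauss1 {ν ε : ℝ} (z : ℝ) (hν : 0 ≤ ν) (hε : 0 < ε) :
    Integrable (fun y : ℝ => Real.exp (-y ^ 2 - ν * (z - y) ^ 2)) ∧
      ∫ y : ℝ, Real.exp (-y ^ 2 - ν * (z - y) ^ 2) ≤ 2 * if 1 ≤ ν * ε ^ 2 then ε else 1 := by
  have h1 : ∀ y : ℝ, Real.exp (-y ^ 2 - ν * (z - y) ^ 2) ≤ Real.exp (-1 * y ^ 2) := fun y =>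
    Real.exp_le_exp.2 (by nlinarith [mul_nonneg hν (sq_nonneg (z - y))])
  have hI : Integrable (fun y : ℝ => Real.exp (-y ^ 2 - ν * (z - y) ^ 2)) :=
    (integrable_exp_neg_mul_sq one_pos).mono' (by fun_prop)
      (.of_forall fun y => by rw [Real.norm_of_nonneg (Real.exp_pos _).le]; exact h1 y)
  refine ⟨hI, ?_⟩
  split_ifs with h
  · have hν' : 0 < ν := pos_of_mul_pos_left (one_pos.trans_le h) (sq_nonneg _)
    refine (integral_mono hI ((integrable_exp_neg_mul_sq hν').comp_sub_left z)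
      fun y => Real.exp_le_exp.2 (by nlinarith [sq_nonneg y])).trans ?_
    rw [integral_sub_left_eq_self (fun y => Real.exp (-ν * y ^ 2)) volume z, integral_gaussian,
      Real.sqrt_le_left (by positivity), div_le_iff₀ hν']
    nlinarith [Real.pi_le_four]
  · refine (integral_mono hI (integrable_exp_neg_mul_sq one_pos) h1).trans ?_
    rw [integral_gaussian, Real.sqrt_le_left (by norm_num)]
    nlinarith [Real.pi_le_four]

variable {R J : Type} [Fintype J] [DecidableEq J]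

theorem exists_diag (S : Finset R) (M : R → J → ℝ) : ∃ (U : Matrix J J ℝ) (μ : J → ℝ),
    U * Uᵀ = 1 ∧ (∀ i, 0 ≤ μ i) ∧ ∑ i, μ i = ∑ r ∈ S, ∑ j, M r j ^ 2 ∧
      ∑ i, μ i ^ 2 = ∑ r ∈ S, ∑ r' ∈ S, (∑ j, M r j * M r' j) ^ 2 ∧
      ∀ x : J → ℝ, ∑ r ∈ S, (∑ j, M r j * x j) ^ 2 = ∑ i, μ i * (Uᵀ *ᵥ x) i ^ 2 := by
  classical
  set B : Matrix S J ℝ := Matrix.of fun r j => M r j with hB
  have hG : (Bᵀ * B).PosSemidef := posSemidef_conjTranspose_mul_self B
  have h1 := hG.1.spectral_theorem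
  have h2 : ∀ i, 0 ≤ hG.1.eigenvalues i := hG.eigenvalues_nonneg
  rw [Unitary.conjStarAlgAut_apply] at h1
  have h3 : (hG.1.eigenvectorUnitary : Matrix J J ℝ) * (hG.1.eigenvectorUnitary : Matrix J J ℝ)ᵀ
    = 1 := Unitary.coe_mul_star_self hG.1.eigenvectorUnitary
  change Bᵀ * B = (hG.1.eigenvectorUnitary : Matrix J J ℝ) * diagonal hG.1.eigenvalues *
    (hG.1.eigenvectorUnitary : Matrix J J ℝ)ᵀ at h1
  generalize (hG.1.eigenvectorUnitary : Matrix J J ℝ) = U at h1 h3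
  generalize hG.1.eigenvalues = μ at h1 h2
  have h4 : Uᵀ * U = 1 := mul_eq_one_comm.1 h3
  refine ⟨U, μ, h3, h2, ?_, ?_, fun x => ?_⟩
  · have h5 := congrArg trace h1
    rw [trace_mul_cycle, h4, Matrix.one_mul, trace_diagonal, trace_mul_comm] at h5
    rw [← h5, ← sum_coe_sort S]
    simp [trace, mul_apply, hB, sq]
  · have h5 : trace (Bᵀ * B * (Bᵀ * B)) = ∑ i, μ i ^ 2 := by
      rw [h1, show U * diagonal μ * Uᵀ * (U * diagonal μ * Uᵀ) =
        U * (diagonal μ * (Uᵀ * U) * diagonal μ) * Uᵀ by simp only [Matrix.mul_assoc],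
        trace_mul_cycle, h4, Matrix.one_mul, Matrix.mul_one, diagonal_mul_diagonal,
        trace_diagonal]
      simp only [sq]
    rw [← h5, ← Matrix.mul_assoc, trace_mul_comm, Matrix.mul_assoc, ← Matrix.mul_assoc,
      ← sum_coe_sort S]
    simp only [trace, diag_apply, mul_apply, hB, of_apply, transpose_apply, sq]
    refine sum_congr rfl fun r _ => ?_
    rw [← sum_coe_sort S]
    exact sum_congr rfl fun r' _ => by simp only [mul_comm]
  · have h5 : (B *ᵥ x) ⬝ᵥ (B *ᵥ x) = (Uᵀ *ᵥ x) ⬝ᵥ (diagonal μ *ᵥ (Uᵀ *ᵥ x)) := by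
      rw [dotProduct_mulVec, vecMul_mulVec, h1, ← dotProduct_mulVec, ← mulVec_mulVec,
        ← mulVec_mulVec, dotProduct_mulVec, ← mulVec_transpose]
    rw [← sum_coe_sort S]
    convert h5 using 1
    · simp [dotProduct, mulVec, hB, sq]
    · simp only [dotProduct, mulVec_diagonal]
      exact sum_congr rfl fun i _ => by ring

theorem gauss_rows (S : Finset R) (M : R → J → ℝ) {c C a γ : ℝ} (hc : 0 < c) (hC : 0 < C)
    (ha : 0 < a) (hγ : γ = c ^ 2 / (4 * C)) {κ : ℝ} (hκ : κ * (c * a / 2) = Real.exp (12 / γ))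
    (h1 : c * Fintype.card J * a ≤ ∑ r ∈ S, ∑ j, M r j ^ 2)
    (h2 : ∑ r ∈ S, ∑ r' ∈ S, (∑ j, M r j * M r' j) ^ 2 ≤ C * Fintype.card J * a ^ 2)
    (q : J → ℝ) :
    Integrable (fun θ : J → ℝ =>
      Real.exp (-∑ j, θ j ^ 2 - κ * ∑ r ∈ S, (∑ j, M r j * (q j - θ j)) ^ 2)) ∧
    ∫ θ : J → ℝ, Real.exp (-∑ j, θ j ^ 2 - κ * ∑ r ∈ S, (∑ j, M r j * (q j - θ j)) ^ 2) ≤
      (2 * Real.exp (-6)) ^ Fintype.card J := by
  obtain ⟨U, μ, hU, hμ, e1, e2, e3⟩ := exists_diag S M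
  have hγ0 : 0 < γ := by rw [hγ]; positivity
  have hκ0 : 0 < κ := pos_of_mul_pos_left (hκ ▸ Real.exp_pos _) (by positivity)
  have hg := fun i => gauss1 ((Uᵀ *ᵥ q) i) (mul_nonneg hκ0.le (hμ i)) (Real.exp_pos (-6 / γ))
  set F : (J → ℝ) → ℝ := fun y =>
    ∏ i, Real.exp (-y i ^ 2 - κ * μ i * ((Uᵀ *ᵥ q) i - y i) ^ 2) with hF
  have hFI : Integrable F := Integrable.fintype_prod fun i => (hg i).1
  have hdet : |(det Uᵀ)⁻¹| = 1 := by
    have h3 := congrArg det hU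
    rw [det_mul, det_transpose, det_one] at h3
    rw [det_transpose]
    rcases mul_self_eq_one_iff.1 h3 with h | h <;> simp [h]
  have hmp : MeasurePreserving (toLin' Uᵀ) (volume : Measure (J → ℝ)) volume :=
    ⟨(toLin' Uᵀ).continuous_of_finiteDimensional.measurable, by
      rw [Real.map_matrix_volume_pi_eq_smul_volume_pi (by rintro h; simp [h] at hdet), hdet]
      simp⟩
  have he : (fun θ : J → ℝ =>
      Real.exp (-∑ j, θ j ^ 2 - κ * ∑ r ∈ S, (∑ j, M r j * (q j - θ j)) ^ 2)) =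
      F ∘ toLin' Uᵀ := by
    funext θ
    have h3 : ∑ j, θ j ^ 2 = ∑ i, (Uᵀ *ᵥ θ) i ^ 2 := by
      have : (Uᵀ *ᵥ θ) ⬝ᵥ (Uᵀ *ᵥ θ) = θ ⬝ᵥ θ := by
        rw [dotProduct_mulVec, vecMul_mulVec, transpose_transpose, hU, vecMul_one]
      simpa only [dotProduct, sq] using this.symm
    have h4 := e3 (q - θ)
    simp only [Pi.sub_apply, mulVec_sub] at h4
    simp only [hF, Function.comp, toLin'_apply]
    rw [← Real.exp_sum, h3, h4, mul_sum, ← sum_neg_distrib, ← sum_sub_distrib]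
    simp only [mul_assoc]
  rw [he]
  refine ⟨hmp.integrable_comp_of_integrable hFI, ?_⟩
  have h3 : ∫ θ, (F ∘ toLin' Uᵀ) θ = ∫ y, F y := by
    conv_rhs => rw [← hmp.map_eq]
    exact (integral_map hmp.aemeasurable (hmp.map_eq.symm ▸ hFI.1)).symm
  rw [h3, hF, integral_fintype_prod_volume_eq_prod
    fun i y => Real.exp (-y ^ 2 - κ * μ i * ((Uᵀ *ᵥ q) i - y) ^ 2)]
  refine (prod_le_prod (fun i _ => integral_nonneg fun y => (Real.exp_pos _).le)
    fun i _ => (hg i).2).trans ?_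
  rw [prod_mul_distrib, prod_const, card_univ, mul_pow, prod_ite, prod_const_one, mul_one,
    prod_const, ← Real.exp_nat_mul _ (card _), ← Real.exp_nat_mul (-6)]
  refine mul_le_mul_of_nonneg_left (Real.exp_le_exp.2 ?_) (by positivity)
  have h4 : ∀ i, μ i ≤ c * a / 2 + (c / (4 * C * a) * μ i ^ 2 +
      C * a / c * if 1 ≤ κ * μ i * Real.exp (-6 / γ) ^ 2 then 1 else 0) := by
    intro i
    split_ifs with h
    · have h5 : 0 ≤ c / (4 * C * a) * (μ i - 2 * C * a / c) ^ 2 := by positivity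
      have h6 : c / (4 * C * a) * (μ i - 2 * C * a / c) ^ 2 =
        c / (4 * C * a) * μ i ^ 2 - μ i + C * a / c := by field_simp; ring
      have : 0 < c * a / 2 := by positivity
      linarith
    · have h5 : κ * (c * a / 2) * Real.exp (-6 / γ) ^ 2 = 1 := by
        rw [hκ, ← Real.exp_nat_mul, ← Real.exp_add, ← Real.exp_zero]
        congr 1
        push_cast
        ring
      rw [← h5, not_le] at h
      have h6 := lt_of_mul_lt_mul_left (lt_of_mul_lt_mul_right h (sq_nonneg _)) hκ0.le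
      have : 0 ≤ c / (4 * C * a) * μ i ^ 2 := by positivity
      linarith
  have h5 := sum_le_sum fun i (_ : i ∈ univ) => h4 i
  rw [sum_add_distrib, sum_add_distrib, ← mul_sum, ← mul_sum, sum_boole, sum_const, card_univ,
    nsmul_eq_mul, e1, e2] at h5
  generalize ((univ.filter fun i => 1 ≤ κ * μ i * Real.exp (-6 / γ) ^ 2).card : ℝ) = k at *
  generalize (Fintype.card J : ℝ) = N at *
  have h6 := mul_le_mul_of_nonneg_left h2 (by positivity : 0 ≤ c / (4 * C * a))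
  rw [show c / (4 * C * a) * (C * N * a ^ 2) = c * N * a / 4 by field_simp] at h6
  have h7 : c * N * a / 4 ≤ C * a / c * k := by linarith
  have h8 : N * γ ≤ k := by
    have := mul_le_mul_of_nonneg_left h7 (by positivity : 0 ≤ c / (C * a))
    rwa [show c / (C * a) * (c * N * a / 4) = N * γ by rw [hγ]; field_simp,
      show c / (C * a) * (C * a / c * k) = k by field_simp] at this
  rw [← mul_div_assoc, div_le_iff₀ hγ0]
  linarith

theorem vol {c C : ℝ} (hc : 0 < c) (hC : 0 < C) : ∃ δ η : ℝ, 0 < δ ∧ 0 < η ∧ η ≤ 1 ∧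
    ∀ (R J : Type) [Fintype R] [Fintype J] (M : R → J → ℝ) (a : ℝ) (T : Finset (J → ℝ)),
      0 < a → 0 < Fintype.card J → Fintype.card R ≤ Fintype.card J →
      T.card ≤ 8 ^ Fintype.card J →
      c * Fintype.card J * a ^ 2 ≤ ∑ r, ∑ j, M r j ^ 2 →
      ∑ r, ∑ r', (∑ j, M r j * M r' j) ^ 2 ≤ C * Fintype.card J * a ^ 4 →
      ∃ θ : J → ℝ, (∀ j, 0 ≤ θ j ∧ θ j ≤ 1) ∧ ∀ q ∈ T, η * Fintype.card J ≤
        ∑ r, if δ * a ≤ |∑ j, M r j * (q j - θ j)| then 1 else 0 := by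
  obtain ⟨γ, hγ⟩ : ∃ γ, γ = (c / 2) ^ 2 / (4 * C) := ⟨_, rfl⟩
  obtain ⟨δ, hδ, hδ2⟩ : ∃ δ : ℝ, 0 < δ ∧ δ ^ 2 = c / 4 / Real.exp (12 / γ) :=
    ⟨√_, by positivity, Real.sq_sqrt (by positivity)⟩
  refine ⟨δ, min 1 (c ^ 2 / (4 * C)), hδ, by positivity, min_le_left _ _, ?_⟩
  intro R J _ _ M a T ha hJ hR hT h1 h2
  classical
  set N := Fintype.card J with hN
  set η := min 1 (c ^ 2 / (4 * C)) with hη
  set G : Finset (Finset R) := univ.filter fun S => ((Sᶜ).card : ℝ) ≤ η * N with hG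
  set κ := (δ * a)⁻¹ ^ 2 with hκ
  set F : (J → ℝ) × Finset R → (J → ℝ) → ℝ := fun x θ =>
    Real.exp (-∑ j, θ j ^ 2 - κ * ∑ r ∈ x.2, (∑ j, M r j * (x.1 j - θ j)) ^ 2) with hF
  have hN0 : (0 : ℝ) ≤ N := Nat.cast_nonneg _
  have hg : ∀ x ∈ T ×ˢ G, Integrable (F x) ∧ ∫ θ, F x θ ≤ (2 * Real.exp (-6)) ^ N := by
    intro x hx
    have hS := (mem_filter.1 (mem_product.1 hx).2).2
    refine gauss_rows x.2 M (half_pos hc) hC (pow_pos ha 2) hγ ?_ ?_ ?_ x.1
    · rw [hκ, inv_pow, mul_pow, hδ2]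
      field_simp
      norm_num
    · have h3 : ∑ r ∈ x.2ᶜ, ((∑ j, M r j ^ 2) ^ 2) ≤ C * N * a ^ 4 := by
        refine le_trans ((sum_le_sum_of_subset_of_nonneg (subset_univ _)
          fun _ _ _ => sq_nonneg _).trans (sum_le_sum fun r _ => ?_)) h2
        simpa only [sq] using single_le_sum (f := fun r' => (∑ j, M r j * M r' j) ^ 2)
          (fun _ _ => sq_nonneg _) (mem_univ r)
      have h4 : ∀ y : ℝ, y ≤ c / (4 * C * a ^ 2) * y ^ 2 + C * a ^ 2 / c := by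
        intro y
        have h5 : 0 ≤ c / (4 * C * a ^ 2) * (y - 2 * C * a ^ 2 / c) ^ 2 := by positivity
        have h6 : c / (4 * C * a ^ 2) * (y - 2 * C * a ^ 2 / c) ^ 2 =
          c / (4 * C * a ^ 2) * y ^ 2 - y + C * a ^ 2 / c := by field_simp; ring
        linarith
      have h5 := sum_le_sum fun r (_ : r ∈ x.2ᶜ) => h4 (∑ j, M r j ^ 2)
      rw [sum_add_distrib, ← mul_sum, sum_const, nsmul_eq_mul] at h5
      have h6 := mul_le_mul_of_nonneg_left h3 (by positivity : 0 ≤ c / (4 * C * a ^ 2))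
      have h7 := mul_le_mul_of_nonneg_right (hS.trans (mul_le_mul_of_nonneg_right
        (min_le_right _ _) hN0)) (by positivity : 0 ≤ C * a ^ 2 / c)
      rw [show c / (4 * C * a ^ 2) * (C * N * a ^ 4) = c * N * a ^ 2 / 4 by field_simp] at h6
      rw [show c ^ 2 / (4 * C) * N * (C * a ^ 2 / c) = c * N * a ^ 2 / 4 by field_simp] at h7
      rw [← sum_add_sum_compl x.2] at h1
      linarith
    · refine le_trans ?_ (h2.trans_eq (by ring))
      exact (sum_le_sum fun r _ => sum_le_sum_of_subset_of_nonneg (subset_univ _)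
        fun _ _ _ => sq_nonneg _).trans (sum_le_sum_of_subset_of_nonneg (subset_univ _)
        fun _ _ _ => sum_nonneg fun _ _ => sq_nonneg _)
  by_contra hcon
  have h3 : ∀ θ, (Set.Icc (0 : J → ℝ) 1).indicator (fun _ => Real.exp (-2) ^ N) θ ≤
      ∑ x ∈ T ×ˢ G, F x θ := by
    intro θ
    refine Set.indicator_apply_le' (fun hθ => ?_)
      fun _ => sum_nonneg fun _ _ => (Real.exp_pos _).le
    have h4 : ¬ ∀ q ∈ T, η * N ≤ ∑ r, if δ * a ≤ |∑ j, M r j * (q j - θ j)| then 1 else 0 :=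
      fun h => hcon ⟨θ, fun j => ⟨hθ.1 j, hθ.2 j⟩, h⟩
    push Not at h4
    obtain ⟨q, hq, h4⟩ := h4
    rw [sum_boole] at h4
    set S := univ.filter fun r => δ * a ≤ |∑ j, M r j * (q j - θ j)| with hS
    refine le_trans ?_ (single_le_sum (f := fun x => F x θ) (fun _ _ => (Real.exp_pos _).le)
      (a := (q, Sᶜ)) (mem_product.2 ⟨hq, mem_filter.2 ⟨mem_univ _, by simpa using h4.le⟩⟩))
    rw [← Real.exp_nat_mul]
    apply Real.exp_le_exp.2
    have h5 : ∑ j, θ j ^ 2 ≤ N :=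
      (sum_le_sum (g := fun _ => 1) fun j _ => pow_le_one₀ (hθ.1 j) (hθ.2 j)).trans_eq
        (by simp [hN])
    have h6 : ∑ r ∈ Sᶜ, (∑ j, M r j * (q j - θ j)) ^ 2 ≤ N * (δ * a) ^ 2 := by
      refine (sum_le_card_nsmul _ _ ((δ * a) ^ 2) fun r hr => ?_).trans ?_
      · rw [← sq_abs]
        exact pow_le_pow_left₀ (abs_nonneg _) (le_of_lt (by simpa [hS] using hr)) 2
      · rw [nsmul_eq_mul]
        exact mul_le_mul_of_nonneg_right (by exact_mod_cast (card_le_univ _).trans hR)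
          (sq_nonneg _)
    have h7 := mul_le_mul_of_nonneg_left h6 (by positivity : 0 ≤ κ)
    rw [show κ * (N * (δ * a) ^ 2) = N by rw [hκ]; field_simp] at h7
    linarith
  have h4 := integral_mono ((integrable_indicator_iff measurableSet_Icc).2
    (integrableOn_const (by simp [Real.volume_Icc_pi])))
    (integrable_finsetSum _ fun x hx => (hg x hx).1) h3
  rw [integral_indicator measurableSet_Icc, setIntegral_const,
    integral_finsetSum _ fun x hx => (hg x hx).1] at h4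
  have h5 := h4.trans (sum_le_card_nsmul _ _ _ fun x hx => (hg x hx).2)
  have h6 : (T ×ˢ G).card ≤ 16 ^ N := by
    rw [card_product, show 16 = 8 * 2 by norm_num, mul_pow]
    refine Nat.mul_le_mul hT ((card_le_univ _).trans ?_)
    rw [Fintype.card_finset]
    exact Nat.pow_le_pow_right two_pos hR
  rw [nsmul_eq_mul, show volume.real (Set.Icc (0 : J → ℝ) 1) = 1 by
    simp [Measure.real, Real.volume_Icc_pi], one_smul] at h5
  have h7 := h5.trans (mul_le_mul_of_nonneg_right (Nat.cast_le.2 h6) (by positivity))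
  push_cast at h7
  rw [← mul_pow] at h7
  refine not_lt.2 h7 (pow_lt_pow_left₀ ?_ (by positivity) hJ.ne')
  have h8 : Real.exp (-2) = Real.exp 1 ^ 4 * Real.exp (-6) := by
    rw [← Real.exp_nat_mul, ← Real.exp_add]
    norm_num
  have h9 : (2.7 : ℝ) ^ 4 ≤ Real.exp 1 ^ 4 :=
    pow_le_pow_left₀ (by norm_num) (by linarith [Real.exp_one_gt_d9]) 4
  rw [h8]
  nlinarith [Real.exp_pos (-6)]

end Pool.Agent.MP_507a17_nt.H83
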