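import Pool.Agent.MP_507a17_nt.H83.Disc
import Pool.Agent.MP_507a17_nt.H83.Vol

/-! A weighted point set all of whose integer roundings have a large discrepancy. -/

open Finset

namespace Pool.Agent.MP_507a17_nt.H83

/-- the shapes of dyadic boxes of volume `2 ^ (-n)` -/
def sh (n : ℕ) : Finset (Σ _ : ℕ, ℕ) := (range (n + 1)).sigma fun a => range (n - a + 1)

/-- the bits that determine a box of a given shape -/
def bx (n : ℕ) (v : Σ _ : ℕ, ℕ) : Finset (Fin 3 × Fin (n + 2)) :=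
  Bx (n + 2) ![v.1, v.2, n - v.1 - v.2]

variable {n : ℕ}

theorem mem_sh {v : Σ _ : ℕ, ℕ} : v ∈ sh n ↔ v.1 + v.2 ≤ n := by
  simp only [sh, mem_sigma, mem_range]
  omega

theorem card_sh (n : ℕ) : 2 * (sh n).card = (n + 1) * (n + 2) := by
  rw [sh, card_sigma]
  simp only [card_range]
  rw [sum_flip fun k => k + 1]
  induction n with
  | zero => simp
  | succ n ih => rw [sum_range_succ, mul_add, ih]; ring

theorem card_sh_le (n : ℕ) : ((sh n).card : ℝ) ≤ (n + 1) ^ 2 := by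
  have h : (2 * (sh n).card : ℝ) = (n + 1) * (n + 2) := by exact_mod_cast card_sh n
  nlinarith [(Nat.cast_nonneg n : (0 : ℝ) ≤ n)]

theorem card_sh_ge (n : ℕ) : ((n : ℝ) + 1) ^ 2 / 2 ≤ (sh n).card := by
  have h : (2 * (sh n).card : ℝ) = (n + 1) * (n + 2) := by exact_mod_cast card_sh n
  nlinarith [(Nat.cast_nonneg n : (0 : ℝ) ≤ n)]

theorem card_bx {v : Σ _ : ℕ, ℕ} (h : v ∈ sh n) : (bx n v).card = n := by
  rw [mem_sh] at h
  rw [bx, card_Bx fun i => by fin_cases i <;> simp <;> omega]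
  simp
  omega

theorem sum_dist (a m : ℕ) : ∑ b ∈ range m, (3 / 4 : ℝ) ^ (a - b + (b - a)) ≤ 8 := by
  have h : ∀ k, ∑ i ∈ range k, (3 / 4 : ℝ) ^ i ≤ 4 := fun k => by
    rw [geom_sum_eq (by norm_num), div_le_iff_of_neg (by norm_num)]
    have : (0 : ℝ) ≤ (3 / 4) ^ k := by positivity
    linarith
  refine (sum_le_sum_of_subset_of_nonneg (range_subset_range.2 (by omega : m ≤ a + 1 + m))
    fun _ _ _ => by positivity).trans ?_
  rw [sum_range_add, show (8 : ℝ) = 4 + 4 by norm_num]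
  refine add_le_add ?_ (le_trans (sum_le_sum fun i _ => ?_) (h m))
  · refine le_trans (le_of_eq ?_) (h (a + 1))
    rw [← sum_flip fun i => (3 / 4 : ℝ) ^ i]
    exact sum_congr rfl fun b hb => by
      rw [mem_range] at hb
      congr 1
      omega
  · exact pow_le_pow_of_le_one (by norm_num) (by norm_num) (by omega)

theorem av_share (x : Om (n + 2)) :
    av (fun y => (∑ v ∈ sh n, ag (bx n v) x y) ^ 2) ≤ (n + 1) ^ 2 * (64 * (1 / 2) ^ n) := by
  simp only [sq (∑ v ∈ sh n, _), sum_mul_sum, ag_mul]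
  rw [av_sum']
  refine (sum_le_card_nsmul _ _ (64 * (1 / 2) ^ n) fun v hv => ?_).trans ?_
  · rw [av_sum']
    have h1 : ∀ w ∈ sh n, av (ag (bx n v ∪ bx n w) x) ≤ (1 / 2) ^ n *
        ((3 / 4) ^ (v.1 - w.1 + (w.1 - v.1)) * (3 / 4) ^ (v.2 - w.2 + (w.2 - v.2))) := by
      intro w hw
      rw [mem_sh] at hv hw
      have h2 : bx n v ∪ bx n w = Bx (n + 2)
          ![max v.1 w.1, max v.2 w.2, max (n - v.1 - v.2) (n - w.1 - w.2)] := by
        ext ⟨i, k⟩
        fin_cases i <;> simp [bx, Bx]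
      obtain ⟨k, hk, hk'⟩ : ∃ k, max v.1 w.1 + max v.2 w.2 +
          max (n - v.1 - v.2) (n - w.1 - w.2) = n + k ∧
          v.1 - w.1 + (w.1 - v.1) + (v.2 - w.2 + (w.2 - v.2)) ≤ 2 * k :=
        ⟨max v.1 w.1 + max v.2 w.2 + max (n - v.1 - v.2) (n - w.1 - w.2) - n, by omega⟩
      rw [av_ag, h2, card_Bx fun i => by fin_cases i <;> simp <;> omega]
      change (1 / 2 : ℝ) ^ (max v.1 w.1 + max v.2 w.2 + max (n - v.1 - v.2) (n - w.1 - w.2)) ≤ _
      rw [hk, pow_add, ← pow_add (3 / 4 : ℝ)]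
      refine mul_le_mul_of_nonneg_left (le_trans ?_
        (pow_le_pow_of_le_one (by norm_num) (by norm_num) hk')) (by positivity)
      rw [pow_mul]
      exact pow_le_pow_left₀ (by norm_num) (by norm_num) k
    refine (sum_le_sum h1).trans ?_
    rw [← mul_sum, mul_comm, sh, sum_sigma]
    refine mul_le_mul_of_nonneg_right ?_ (by positivity)
    simp only [← mul_sum]
    refine (sum_le_sum fun a _ => mul_le_mul_of_nonneg_left (sum_dist _ _)
      (by positivity)).trans ?_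
    rw [← sum_mul]
    linarith [sum_dist v.1 (n + 1)]
  · rw [nsmul_eq_mul]
    exact mul_le_mul_of_nonneg_right (card_sh_le n) (by positivity)

variable {J : Type} [Fintype J] [DecidableEq J]

theorem exists_points (hJ : (Fintype.card J : ℝ) = (n + 1) ^ 2 * 2 ^ n) :
    ∃ X : J → Om (n + 2),
      (1 / 2) ^ 20 * Fintype.card J * ((n : ℝ) + 1) ^ 2 ≤
        ∑ p, ∑ v ∈ sh n, ta v.1 v.2 (n - v.1 - v.2) (X p) ^ 2 ∧
      ∑ p, ∑ p', (∑ v ∈ sh n, ag (bx n v) (X p) (X p')) ^ 2 ≤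
        65 * 2 ^ 20 * Fintype.card J * ((n : ℝ) + 1) ^ 4 := by
  set N : ℝ := (Fintype.card J : ℝ) with hN
  set h : ℝ := n + 1 with hh
  have h0 : 0 < h := by positivity
  have hN0 : 0 ≤ N := Nat.cast_nonneg _
  set T1 : (J → Om (n + 2)) → ℝ := fun X =>
    ∑ p, ∑ v ∈ sh n, ta v.1 v.2 (n - v.1 - v.2) (X p) ^ 2 with hT1
  set T2 : (J → Om (n + 2)) → ℝ := fun X =>
    ∑ p, ∑ p', (∑ v ∈ sh n, ag (bx n v) (X p) (X p')) ^ 2 with hT2
  have h1 : N * (h ^ 2 / 2 * (1 / 2) ^ 18) ≤ av T1 := by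
    rw [hT1, av_sum', hN, ← card_univ, ← nsmul_eq_mul]
    refine card_nsmul_le_sum _ _ _ fun p _ => ?_
    rw [av_coord p fun x => ∑ v ∈ sh n, ta v.1 v.2 (n - v.1 - v.2) x ^ 2, av_sum']
    refine le_trans ?_ (card_nsmul_le_sum _ _ _ fun v hv => by
      rw [mem_sh] at hv
      exact av_ta (by omega) (by omega) (by omega))
    rw [nsmul_eq_mul]
    exact mul_le_mul_of_nonneg_right (card_sh_ge n) (by positivity)
  have h2 : av T2 ≤ N * (65 * h ^ 4) := by
    rw [hT2, av_sum', hN, ← card_univ, ← nsmul_eq_mul]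
    refine sum_le_card_nsmul _ _ _ fun p _ => ?_
    rw [av_sum']
    have h3 : ∀ p' ∈ univ, av (fun X : J → Om (n + 2) =>
        (∑ v ∈ sh n, ag (bx n v) (X p) (X p')) ^ 2) ≤
        (if p = p' then h ^ 4 else 0) + h ^ 2 * (64 * (1 / 2) ^ n) := by
      intro p' _
      split_ifs with hp
      · refine (av_le fun X => ?_).trans (le_add_of_nonneg_right (by positivity))
        rw [show h ^ 4 = (h ^ 2) ^ 2 by ring]
        refine pow_le_pow_left₀ (sum_nonneg fun v _ => ?_) ((sum_le_card_nsmul _ _ 1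
          fun v _ => ?_).trans (by simpa using card_sh_le n)) 2 <;>
        · unfold ag
          split_ifs <;> norm_num
      · rw [zero_add, av_coord₂ hp fun x y => (∑ v ∈ sh n, ag (bx n v) x y) ^ 2]
        exact av_le av_share
    refine (sum_le_sum h3).trans_eq ?_
    rw [sum_add_distrib, sum_ite_eq, if_pos (mem_univ _), sum_const, card_univ, nsmul_eq_mul,
      ← hN, hJ, one_div, inv_pow]
    field_simp
    norm_num
  have h3 : (1 / 2) ^ 20 * N * h ^ 2 ≤ av (T1 - ((1 / 2) ^ 20 / 65 / h ^ 2) • T2) := by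
    rw [map_sub, map_smul, smul_eq_mul]
    have := mul_le_mul_of_nonneg_left h2 (by positivity : 0 ≤ (1 / 2) ^ 20 / 65 / h ^ 2)
    rw [show (1 / 2) ^ 20 / 65 / h ^ 2 * (N * (65 * h ^ 4)) = (1 / 2) ^ 20 * N * h ^ 2 by
      field_simp] at this
    linarith
  obtain ⟨X, -, hX⟩ := exists_le_of_le_expect univ_nonempty h3
  have h4 : 0 ≤ T2 X := sum_nonneg fun _ _ => sum_nonneg fun _ _ => sq_nonneg _
  have h5 : T1 X ≤ N * h ^ 2 := by
    rw [hT1, hN, ← card_univ, ← nsmul_eq_mul]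
    refine sum_le_card_nsmul _ _ _ fun p _ => (sum_le_card_nsmul _ _ 1 fun v _ =>
      (sq_le_one_iff_abs_le_one _).2 (abs_ta _ _ _ _)).trans (by simpa using card_sh_le n)
  simp only [Pi.sub_apply, Pi.smul_apply, smul_eq_mul] at hX
  have h6 : 0 ≤ (1 / 2) ^ 20 / 65 / h ^ 2 * T2 X := by positivity
  refine ⟨X, by linarith, ?_⟩
  have h7 : (1 / 2) ^ 20 / 65 / h ^ 2 * T2 X ≤ N * h ^ 2 := by
    have : 0 ≤ (1 / 2) ^ 20 * N * h ^ 2 := by positivity
    linarith
  have h8 := mul_le_mul_of_nonneg_left h7 (by positivity : 0 ≤ 65 * 2 ^ 20 * h ^ 2)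
  rw [show 65 * 2 ^ 20 * h ^ 2 * ((1 / 2) ^ 20 / 65 / h ^ 2 * T2 X) = T2 X by field_simp] at h8
  linarith

theorem av_restrict {ι : Type} [Fintype ι] [DecidableEq ι] (B : Finset ι) (F : (B → Bool) → ℝ) :
    av (fun ω : ι → Bool => F fun x => ω x) = (1 / 2) ^ B.card * ∑ z, F z := by
  have h : (fun ω : ι → Bool => F fun x => ω x) =
      fun ω => ∑ z, F z * ag B (fun i => if h : i ∈ B then z ⟨i, h⟩ else false) ω := by
    funext ω
    rw [sum_eq_single_of_mem (fun x : B => ω x) (mem_univ _)]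
    · rw [ag, if_pos fun i hi => by simp [hi], mul_one]
    · intro z _ hz
      rw [ag, if_neg, mul_zero]
      exact fun h => hz (funext fun x => by simp [h x x.2])
  rw [h, av_sum', mul_sum]
  exact sum_congr rfl fun z _ => by rw [av_cmul, mul_comm, ← av_ag B]

omit [DecidableEq J] in
theorem frob {R : Type} [Fintype R] (M : R → J → ℝ) :
    ∑ r, ∑ r', (∑ j, M r j * M r' j) ^ 2 = ∑ j, ∑ j', (∑ r, M r j * M r j') ^ 2 := by
  simp only [sq, sum_mul_sum]
  rw [sum_congr rfl fun r _ => sum_comm, sum_comm]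
  refine sum_congr rfl fun j _ => ?_
  rw [sum_congr rfl fun r _ => sum_comm, sum_comm]
  exact sum_congr rfl fun j' _ => sum_congr rfl fun r _ => sum_congr rfl fun r' _ => by ring

theorem card_small (J : Type) [Fintype J] [DecidableEq J] :
    ((Fintype.piFinset fun _ : J => range (2 * Fintype.card J + 1)).filter
      fun q => ∑ p, q p ≤ 2 * Fintype.card J).card ≤ 8 ^ Fintype.card J := by
  set N := Fintype.card J with hN
  have h1 : ∑ q ∈ Fintype.piFinset fun _ : J => range (2 * N + 1), ∏ p, (1 / 2 : ℝ) ^ q p ≤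
      2 ^ N := by
    rw [← prod_univ_sum, prod_const, card_univ]
    exact pow_le_pow_left₀ (by positivity) (sum_geometric_two_le _) _
  have h2 := (card_nsmul_le_sum _ _ ((1 / 2 : ℝ) ^ (2 * N)) fun q hq => by
    rw [prod_pow_eq_pow_sum]
    exact pow_le_pow_of_le_one (by norm_num) (by norm_num) (mem_filter.1 hq).2).trans
    ((sum_le_sum_of_subset_of_nonneg (filter_subset (fun q => ∑ p, q p ≤ 2 * N) _)
      fun _ _ _ => by positivity).trans h1)
  rw [nsmul_eq_mul, one_div, inv_pow, ← div_eq_mul_inv, div_le_iff₀ (by positivity), pow_mul,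
    ← mul_pow] at h2
  norm_num at h2
  exact_mod_cast h2

/-- a weighted point set whose integer roundings all have a large discrepancy -/
theorem core (K : ℝ) : ∃ u₀ : ℝ, ∀ (u : ℝ) (n N : ℕ), u₀ ≤ u → (n + 1 : ℝ) = u ^ 4 →
    N = (n + 1) ^ 2 * 2 ^ n → ∃ (X : Fin N → Om (n + 2)) (θ : Fin N → ℝ),
      (∀ p, 0 ≤ θ p ∧ θ p ≤ 1) ∧ ∀ q : Fin N → ℕ, ∑ p, q p ≤ 2 * N →
        ∃ ω, K * (n + 1) ^ 2 < |DD (fun p => q p - θ p) X ω| := by
  obtain ⟨δ, η, hδ, hη, hη1, hv⟩ := vol (c := (1 / 2) ^ 20) (C := 65 * 2 ^ 20)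
    (by positivity) (by positivity)
  obtain ⟨u₀, hg⟩ := gain (le_max_left 1 K) hδ hη hη1
  refine ⟨u₀, fun u n N hu hn hN => ?_⟩
  have hN' : (N : ℝ) = (n + 1) ^ 2 * 2 ^ n := by exact_mod_cast hN
  obtain ⟨X, h1, h2⟩ := exists_points (J := Fin N) (n := n) (by simpa using hN')
  set Mx : (Σ v : sh n, (bx n v → Bool)) → Fin N → ℝ := fun z p =>
    if (fun x : bx n z.1 => X p x) = z.2 then ta z.1.1.1 z.1.1.2 (n - z.1.1.1 - z.1.1.2) (X p)
    else 0 with hMx
  have hag : ∀ (v : Σ _ : ℕ, ℕ) (x y : Om (n + 2)), ag (bx n v) x y =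
      if (fun i : bx n v => x i) = fun i : bx n v => y i then 1 else 0 := fun v x y =>
    if_congr ⟨fun h => funext fun i => (h i i.2).symm, fun h i hi => (congrFun h ⟨i, hi⟩).symm⟩
      rfl rfl
  have h3 : ∀ p p', ∑ z, Mx z p * Mx z p' = ∑ v ∈ sh n, ag (bx n v) (X p) (X p') *
      (ta v.1 v.2 (n - v.1 - v.2) (X p) * ta v.1 v.2 (n - v.1 - v.2) (X p')) := by
    intro p p'
    rw [Fintype.sum_sigma, ← sum_coe_sort (sh n)]
    refine sum_congr rfl fun v _ => ?_
    simp only [hMx, ite_mul, zero_mul, sum_ite_eq, mem_univ, if_true, hag, one_mul, mul_ite,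
      mul_zero]
  obtain ⟨θ, hθ, h4⟩ := hv _ (Fin N) Mx (n + 1) (((Fintype.piFinset fun _ : Fin N =>
      range (2 * Fintype.card (Fin N) + 1)).filter
      fun q => ∑ p, q p ≤ 2 * Fintype.card (Fin N)).image fun q p => (q p : ℝ)) (by positivity)
    (by rw [Fintype.card_fin, hN]; positivity)
    (by
      rw [Fintype.card_sigma, Fintype.card_fin, hN,
        sum_congr rfl (g := fun _ => 2 ^ n) fun v _ => by simp [card_bx v.2], sum_const,
        card_univ, Fintype.card_coe, smul_eq_mul]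
      exact Nat.mul_le_mul_right _ (by exact_mod_cast card_sh_le n))
    (card_image_le.trans (card_small _))
    (by
      refine h1.trans_eq ?_
      rw [sum_comm (s := univ) (t := univ)]
      refine sum_congr rfl fun p _ => ?_
      simp only [sq, h3, hag, if_true, one_mul])
    (by
      rw [frob]
      refine le_trans (sum_le_sum fun p _ => sum_le_sum fun p' _ => ?_) h2
      rw [h3]
      refine sq_le_sq.2 (((abs_sum_le_sum_abs _ _).trans (sum_le_sum fun v _ => ?_)).trans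
        (le_abs_self _))
      rw [hag]
      split_ifs
      · rw [one_mul, abs_mul]
        exact mul_le_one₀ (abs_ta _ _ _ _) (abs_nonneg _) (abs_ta _ _ _ _)
      · simp)
  refine ⟨X, θ, hθ, fun q hq => ?_⟩
  by_contra hc
  push Not at hc
  have hu8 : u ^ 8 = (n + 1) ^ 2 := by rw [hn]; ring
  have h5 := h4 (fun p => q p) (mem_image.2 ⟨q, mem_filter.2 ⟨Fintype.mem_piFinset.2 fun p =>
    mem_range.2 (Nat.lt_succ_of_le ((single_le_sum (fun _ _ => Nat.zero_le _)
      (mem_univ p)).trans (by simpa using hq))), by simpa using hq⟩, rfl⟩)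
  refine not_le.2 (hg u n (n + 2) (DD (fun p => q p - θ p) X) hu hn (by omega)
    (fun ω => (hc ω).trans ?_) fun a b c i h => (av_QQQ _ _ _ _ _).trans ?_) ?_
  · rw [hu8]
    exact mul_le_mul_of_nonneg_right (le_max_right _ _) (by positivity)
  · have h6 : ∑ p, |(q p : ℝ) - θ p| ≤ 3 * N := by
      refine (sum_le_sum (g := fun p => (q p : ℝ) + 1) fun p _ => abs_le.2 ⟨?_, ?_⟩).trans ?_
      · linarith [(hθ p).2, (Nat.cast_nonneg (q p) : (0 : ℝ) ≤ q p)]
      · linarith [(hθ p).1]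
      · have : (∑ p, (q p : ℝ)) ≤ 2 * N := by exact_mod_cast hq
        simp only [sum_add_distrib, sum_const, card_univ, Fintype.card_fin, nsmul_eq_mul]
        linarith
    refine (mul_le_mul_of_nonneg_right h6 (by positivity)).trans_eq ?_
    rw [h, hN', hu8, pow_add, one_div, inv_pow]
    field_simp
  · rw [sum_sigma', ← sh, ← sum_coe_sort (sh n), hu8, ← hn]
    rw [Fintype.sum_sigma, Fintype.card_fin, hN'] at h5
    refine le_trans (le_of_eq ?_) ((mul_le_mul_of_nonneg_left h5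
      (by positivity : (0 : ℝ) ≤ (1 / 2) ^ n)).trans_eq ?_)
    · rw [one_div, inv_pow]
      field_simp
    · rw [mul_sum]
      refine sum_congr rfl fun v _ => ?_
      have h6 := av_restrict (bx n v) fun z =>
        if δ * (n + 1) ≤ |∑ j, Mx ⟨v, z⟩ j * (q j - θ j)| then (1 : ℝ) else 0
      rw [card_bx v.2] at h6
      rw [← h6]
      congr 1
      funext ω
      rw [be_DD]
      congr 3
      refine sum_congr rfl fun p _ => ?_
      rw [← bx, hag]
      simp [hMx]

end Pool.Agent.MP_507a17_nt.H83
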