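import Pool.Agent.MP_507a17_nt.H83.Off

/-! A stopped Riesz product. -/

open Finset

namespace Pool.Agent.MP_507a17_nt.H83

variable {s : ℕ}

/-- truncation of the increment -/
noncomputable def tr (R x y : ℝ) : ℝ := if x ≤ R ∧ |y| ≤ 1 then y else 0

/-- the stopped Riesz product -/
noncomputable def Ps (g : ℕ → Fn s) (R : ℝ) : ℕ → Fn s
  | 0 => 1
  | a + 1 => Ps g R a + r 0 a * (Ps g R a * fun ω => tr R (Ps g R a ω) (g a ω))

theorem abs_tr_le (R x y : ℝ) : |tr R x y| ≤ 1 := by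
  unfold tr
  split_ifs with h
  · exact h.2
  · simp

theorem tr_sq_le (R x y : ℝ) : tr R x y ^ 2 ≤ y ^ 2 := by
  unfold tr
  split_ifs with h
  · exact le_rfl
  · simpa using sq_nonneg y

variable {g : ℕ → Fn s} {R : ℝ}

theorem Ps_succ (a : ℕ) (ω : Om s) :
    Ps g R (a + 1) ω = Ps g R a ω * (1 + r 0 a ω * tr R (Ps g R a ω) (g a ω)) := by
  simp only [Ps, Pi.add_apply, Pi.mul_apply]
  ring

theorem abs_rtr (a : ℕ) (ω : Om s) (x y : ℝ) : |r 0 a ω * tr R x y| ≤ 1 := by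
  rw [abs_mul]
  exact mul_le_one₀ (abs_r_le _ _ _) (abs_nonneg _) (abs_tr_le _ _ _)

theorem Ps_bound (hR : 1 ≤ R) (a : ℕ) (ω : Om s) : 0 ≤ Ps g R a ω ∧ Ps g R a ω ≤ 2 * R := by
  induction a with
  | zero => exact ⟨zero_le_one, by change 1 ≤ _; linarith⟩
  | succ a ih =>
    have h := abs_le.1 (abs_rtr (R := R) a ω (Ps g R a ω) (g a ω))
    rw [Ps_succ]
    refine ⟨mul_nonneg ih.1 (by linarith), ?_⟩
    by_cases h1 : Ps g R a ω ≤ R
    · nlinarith [ih.1]
    · rw [tr, if_neg fun h => h1 h.1]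
      linarith [ih.2]

theorem Ps_frozen {a a' : ℕ} {ω : Om s} (h : R < Ps g R a ω) (ha : a ≤ a') :
    Ps g R a' ω = Ps g R a ω := by
  induction a', ha using Nat.le_induction with
  | base => rfl
  | succ b _ ih => rw [Ps_succ, ih, tr, if_neg fun h' => not_le.2 h h'.1, mul_zero, add_zero, mul_one]

theorem M_Ps (hg : ∀ a, M 0 a (g a)) (a : ℕ) : M 0 a (Ps g R a) := by
  induction a with
  | zero => exact dep_const _ 1
  | succ a ih =>
    exact (ih.le a.le_succ).add ((M_r (Or.inr a.lt_succ_self)).mul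
      (M.le (ih.mul (ih.map₂ (tr R) (hg a))) a.le_succ))

theorem P_Ps (hg : ∀ a, M 0 a (g a)) {a a' : ℕ} (ha : a ≤ a') :
    P 0 a (Ps g R a') = Ps g R a := by
  induction a', ha using Nat.le_induction with
  | base => exact (M_Ps hg a).P_eq
  | succ b hb ih =>
    rw [Ps, map_add, ih, ← P_P_le hb, ← C_def,
      ((M_Ps hg b).mul ((M_Ps hg b).map₂ (tr R) (hg b))).C_eq, map_zero, add_zero]

theorem av_Ps (hg : ∀ a, M 0 a (g a)) (a : ℕ) : av (Ps g R a) = 1 := by
  rw [← av_P 0 0, P_Ps hg a.zero_le]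
  exact av_one

theorem Ps_eq (m : ℕ) : Ps g R m =
    1 + ∑ a ∈ range m, r 0 a * (Ps g R a * fun ω => tr R (Ps g R a ω) (g a ω)) := by
  induction m with
  | zero => simp [Ps]
  | succ m ih => rw [sum_range_succ, ← add_assoc, ← ih, Ps]

theorem ent_step {x y : ℝ} (hx : 0 ≤ x) (hy : |y| ≤ 1) :
    x * (1 + y) * Real.log (x * (1 + y)) ≤
      x * Real.log x + x * y ^ 2 + y * (x * Real.log x + x) := by
  have h1 : 0 ≤ 1 + y := by linarith [(abs_le.1 hy).1]
  rcases hx.eq_or_lt with rfl | hx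
  · simp
  rcases h1.eq_or_lt with h1 | h1
  · rw [show y = -1 by linarith]
    simp
  rw [Real.log_mul hx.ne' h1.ne']
  have h2 := mul_le_mul_of_nonneg_left (Real.log_le_sub_one_of_pos h1) (mul_pos hx h1).le
  nlinarith

theorem entropy (hg : ∀ a, M 0 a (g a)) (hR : 1 ≤ R) (m : ℕ) :
    av (fun ω => Ps g R m ω * Real.log (Ps g R m ω)) ≤
      ∑ a ∈ range m, av (Ps g R a * g a ^ 2) := by
  induction m with
  | zero => simpa [Ps] using (av_const (X := Om s) 0).le
  | succ m ih =>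
    have h1 := M.av_r ((M_Ps (R := R) hg m).map₂
      (fun x y => tr R x y * (x * Real.log x + x)) (hg m))
    have h2 : ∀ ω, Ps g R (m + 1) ω * Real.log (Ps g R (m + 1) ω) ≤
        Ps g R m ω * Real.log (Ps g R m ω) + ((Ps g R m * g m ^ 2) ω + (r 0 m * fun ω =>
          tr R (Ps g R m ω) (g m ω) * (Ps g R m ω * Real.log (Ps g R m ω) + Ps g R m ω) :
            Fn s) ω) := by
      intro ω
      have h0 := (Ps_bound (g := g) hR m ω).1
      rw [Ps_succ]
      refine (ent_step h0 (abs_rtr m ω _ _)).trans ?_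
      have h3 : (r 0 m ω * tr R (Ps g R m ω) (g m ω)) ^ 2 ≤ g m ω ^ 2 := by
        rw [mul_pow]
        exact (mul_le_of_le_one_left (sq_nonneg _) (r_sq_le _ _ _)).trans (tr_sq_le _ _ _)
      have h4 := mul_le_mul_of_nonneg_left h3 h0
      simp only [Pi.mul_apply, Pi.pow_apply]
      linarith
    refine (av_mono h2).trans ?_
    rw [av_add', av_add', h1, sum_range_succ]
    linarith

theorem av_abs_mul_le (f g : Fn s) {τ : ℝ} (hτ : 0 < τ) :
    av |f * g| ≤ (τ * av (f ^ 2) + τ⁻¹ * av (g ^ 2)) / 2 := by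
  have h := abs_av_mul_le |f| |g| hτ
  have h1 : ∀ f : Fn s, |f| ^ 2 = f ^ 2 := fun f => funext fun x => sq_abs (f x)
  rw [h1, h1, show |f| * |g| = |f * g| from funext fun x => (abs_mul (f x) (g x)).symm] at h
  exact (le_abs_self _).trans h

theorem stop_error (hg : ∀ a, M 0 a (g a)) {l τ Γ : ℝ} (hl : 0 < l) (hR : R = Real.exp l)
    (hτ : 0 < τ) {m : ℕ} (hΓ : ∑ a ∈ range m, av (Ps g R a * g a ^ 2) ≤ Γ) :
    av |Ps g R m - 1 - ∑ a ∈ range m, r 0 a * (Ps g R a * g a)| ≤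
      (τ * ((Γ + 1) / l) + τ⁻¹ * Γ) / 2 + R * ∑ a ∈ range m, av (g a ^ 4) := by
  have hR1 : 1 ≤ R := hR ▸ Real.one_le_exp hl.le
  have h0 := fun a ω => (Ps_bound (g := g) hR1 a ω).1
  set A : Fn s := fun ω => if R < Ps g R m ω then -√(Ps g R m ω) else 0 with hA
  set e : ℕ → Fn s := fun a ω => if R < Ps g R a ω then √(Ps g R a ω) * g a ω else 0 with he
  set d : ℕ → Fn s := fun a ω =>
    if Ps g R a ω ≤ R ∧ 1 < |g a ω| then -(Ps g R a ω * g a ω) else 0 with hd
  have h1 : Ps g R m - 1 - ∑ a ∈ range m, r 0 a * (Ps g R a * g a) =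
      A * ∑ a ∈ range m, r 0 a * e a + ∑ a ∈ range m, r 0 a * d a := by
    nth_rw 1 [Ps_eq m]
    rw [add_sub_cancel_left, mul_sum, ← sum_sub_distrib, ← sum_add_distrib]
    refine sum_congr rfl fun a ha => funext fun ω => ?_
    simp only [Pi.add_apply, Pi.sub_apply, Pi.mul_apply, hA, he, hd, tr]
    by_cases h2 : R < Ps g R a ω
    · have h3 := Ps_frozen h2 (mem_range.1 ha).le
      rw [h3, if_pos h2, if_pos h2, if_neg fun h => not_le.2 h2 h.1,
        if_neg fun h => not_le.2 h2 h.1]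
      linear_combination r 0 a ω * g a ω * Real.mul_self_sqrt (h0 a ω)
    · by_cases h3 : |g a ω| ≤ 1
      · simp [h2, not_lt.1 h2, h3, not_lt.2 h3]
      · simp [h2, not_lt.1 h2, h3, not_le.1 h3]
  have h2 : av (A ^ 2) ≤ (Γ + 1) / l := by
    rw [le_div_iff₀' hl, ← av_cmul]
    refine le_trans (av_mono (g := fun ω => Ps g R m ω * Real.log (Ps g R m ω) + 1) fun ω => ?_) ?_
    · simp only [Pi.pow_apply, hA]
      split_ifs with h
      · rw [neg_sq, Real.sq_sqrt (h0 m ω)]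
        have h3 : l ≤ Real.log (Ps g R m ω) := by
          rw [Real.le_log_iff_exp_le (by linarith), ← hR]
          exact h.le
        nlinarith [h0 m ω]
      · nlinarith [Real.self_sub_one_le_mul_log (h0 m ω), h0 m ω]
    · rw [av_add', av_const]
      linarith [entropy hg hR1 m]
  have h3 : av ((∑ a ∈ range m, r 0 a * e a) ^ 2) ≤ Γ := by
    refine (orth fun a _ => (M_Ps (R := R) hg a).map₂
      (fun x y => if R < x then √x * y else 0) (hg a)).trans (le_trans (sum_le_sum fun a _ =>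
        av_mono fun ω => ?_) hΓ)
    simp only [Pi.pow_apply, Pi.mul_apply]
    split_ifs
    · rw [mul_pow, Real.sq_sqrt (h0 a ω)]
    · simpa using mul_nonneg (h0 a ω) (sq_nonneg _)
  have h4 : ∀ a ∈ range m, av |r 0 a * d a| ≤ R * av (g a ^ 4) := by
    intro a _
    rw [← av_cmul]
    refine av_mono fun ω => (abs_r_mul _ _ _ _).trans ?_
    simp only [Pi.pow_apply, hd]
    split_ifs with h
    · rw [abs_neg, abs_mul, abs_of_nonneg (h0 a ω), ← (by decide : Even 4).pow_abs]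
      exact mul_le_mul h.1 (le_self_pow₀ h.2.le (by norm_num)) (abs_nonneg _) (by linarith)
    · rw [abs_zero]
      positivity
  rw [h1, mul_sum _ _ R]
  refine (av_abs_add _ _).trans (add_le_add ((av_abs_mul_le _ _ hτ).trans ?_)
    ((av_abs_sum _ _).trans (sum_le_sum h4)))
  gcongr

end Pool.Agent.MP_507a17_nt.H83
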